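import Pool.Agent.KS6_81.GR.Chi

/-!
# The canonical sheaf of a nodal curve with rational components
-/

set_option autoImplicit false

open Module Polynomial

namespace Pool.Agent.KS6_81.GR

variable {k : Type} [Field k] [IsAlgClosed k]

namespace Conf

variable (Γ : Conf k)

/-- The uniformizer at the branch `e`, with a sign. -/
noncomputable def tau (e : Γ.E × Bool) : RatFunc k :=
  if e.2 then -(RatFunc.X - RatFunc.C (Γ.p e)) else RatFunc.X - RatFunc.C (Γ.p e)

theorem ul_tau (e : Γ.E × Bool) : UL (Γ.bp e).2 (Γ.tau e) := by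
  rw [tau]
  split_ifs
  · exact (isUnif_pl (some (Γ.p e))).ul.neg
  · exact (isUnif_pl (some (Γ.p e))).ul

open Classical in
/-- The idele of the canonical sheaf. -/
noncomputable def wcan : Γ.Fam := fun q =>
  if h : ∃ e, Γ.bp e = q then (Γ.tau h.choose)⁻¹
  else if q.2 = inf k then (RatFunc.X ^ 2)⁻¹ else 1

theorem wcan_bp (e : Γ.E × Bool) : Γ.wcan (Γ.bp e) = (Γ.tau e)⁻¹ := by
  have h : ∃ e', Γ.bp e' = Γ.bp e := ⟨e, rfl⟩
  rw [wcan, dif_pos h, Γ.bp_injective h.choose_spec]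

theorem not_bp_inf (i : Γ.ι) : ¬ ∃ e, Γ.bp e = (⟨i, inf k⟩ : Γ.Pt) := by
  rintro ⟨e, he⟩
  have := (Smooth.Pt.mk.injEq _ _ _ _).mp he
  exact Γ.bp_ne_inf e (eq_of_heq this.2)

theorem wcan_inf (i : Γ.ι) : Γ.wcan ⟨i, inf k⟩ = (RatFunc.X ^ 2)⁻¹ := by
  rw [wcan, dif_neg (Γ.not_bp_inf i), if_pos rfl]

theorem wcan_of_not {q : Γ.Pt} (h : ¬ ∃ e, Γ.bp e = q) (h' : q.2 ≠ inf k) : Γ.wcan q = 1 := by
  rw [wcan, dif_neg h, if_neg h']

theorem wcan_ne (q : Γ.Pt) : Γ.wcan q ≠ 0 := by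
  by_cases h : ∃ e, Γ.bp e = q
  · obtain ⟨e, rfl⟩ := h
    rw [wcan_bp]
    exact inv_ne_zero (Γ.ul_tau e).ne
  · by_cases h' : q.2 = inf k
    · obtain ⟨i, q'⟩ := q
      have h'' : q' = inf k := h'
      subst h''
      rw [wcan_inf]
      exact inv_ne_zero (pow_ne_zero _ X_ne)
    · rw [Γ.wcan_of_not h h']
      exact one_ne_zero

theorem wcan_finite : {q | Γ.wcan q ≠ 1}.Finite := by
  refine ((Set.finite_range Γ.bp).union
    (Set.finite_range (fun i : Γ.ι => (⟨i, inf k⟩ : Γ.Pt)))).subset ?_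
  intro q hq
  by_contra hcon
  rw [Set.mem_union, not_or] at hcon
  apply hq
  refine Γ.wcan_of_not hcon.1 ?_
  intro h
  apply hcon.2
  refine ⟨q.1, ?_⟩
  obtain ⟨i, q'⟩ := q
  have h'' : q' = inf k := h
  subst h''
  rfl

open Classical in
/-- The idele with `X⁻ⁿ` at infinity. -/
noncomputable def winf (n : ℕ) : Γ.Fam := fun q =>
  if q.2 = inf k then (RatFunc.X ^ n)⁻¹ else 1

theorem winf_ne (n : ℕ) (q : Γ.Pt) : Γ.winf n q ≠ 0 := by
  rw [winf]
  split_ifs
  · exact inv_ne_zero (pow_ne_zero _ X_ne)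
  · exact one_ne_zero

theorem winf_finite (n : ℕ) : {q | Γ.winf n q ≠ 1}.Finite := by
  refine (Set.finite_range (fun i : Γ.ι => (⟨i, inf k⟩ : Γ.Pt))).subset ?_
  intro q hq
  by_contra hcon
  apply hq
  rw [winf, if_neg]
  intro h
  apply hcon
  refine ⟨q.1, ?_⟩
  obtain ⟨i, q'⟩ := q
  have h'' : q' = inf k := h
  subst h''
  rfl

/-- The points at infinity of the components in `B`. -/
noncomputable def infs (B : Finset Γ.ι) : Finset Γ.Pt :=
  B.map ⟨fun i => (⟨i, inf k⟩ : Γ.Pt), fun i j h => by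
    exact congrArg Smooth.Pt.comp h⟩

theorem mem_infs {B : Finset Γ.ι} {q : Γ.Pt} : q ∈ Γ.infs B ↔ q.1 ∈ B ∧ q.2 = inf k := by
  rw [infs, Finset.mem_map]
  constructor
  · rintro ⟨i, hi, rfl⟩
    exact ⟨hi, rfl⟩
  · rintro ⟨h1, h2⟩
    refine ⟨q.1, h1, ?_⟩
    obtain ⟨i, q'⟩ := q
    have h'' : q' = inf k := h2
    subst h''
    rfl

/-- The branches on the components in `B`. -/
def branches (B : Finset Γ.ι) : Finset (Γ.E × Bool) := Finset.univ.filter fun e => Γ.v e ∈ B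

/-- The points of the branches on the components in `B`. -/
noncomputable def brpts (B : Finset Γ.ι) : Finset Γ.Pt :=
  (Γ.branches B).map ⟨Γ.bp, Γ.bp_injective⟩

theorem mem_brpts {B : Finset Γ.ι} {q : Γ.Pt} :
    q ∈ Γ.brpts B ↔ q.1 ∈ B ∧ ∃ e, Γ.bp e = q := by
  rw [brpts, Finset.mem_map]
  constructor
  · rintro ⟨e, he, rfl⟩
    exact ⟨(Finset.mem_filter.mp he).2, e, rfl⟩
  · rintro ⟨h1, e, rfl⟩
    exact ⟨e, Finset.mem_filter.mpr ⟨Finset.mem_univ _, h1⟩, rfl⟩

theorem chi_winf (B : Finset Γ.ι) (n : ℕ) :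
    HasChi (Γ.prin B) (Γ.ade B) (Γ.lat B (Γ.winf n) ∅) (B.card - n * B.card) := by
  induction n with
  | zero =>
    have h : Γ.winf 0 = 1 := by
      funext q
      rw [winf, pow_zero, inv_one, ite_self]
      rfl
    rw [h]
    have := Γ.chi_base B
    simpa using this
  | succ n ih =>
    have h := chi_down (Γ := Γ) (B := B) (w := Γ.winf (n + 1)) (w' := Γ.winf n)
      (τ := fun _ => RatFunc.X⁻¹) (P := Γ.infs B) (fun q hq => (Γ.mem_infs.mp hq).1)
      (fun q hq => by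
        rw [(Γ.mem_infs.mp hq).2]
        exact (isUnif_pl none).ul)
      (fun q hq => by
        rw [winf, winf, if_pos (Γ.mem_infs.mp hq).2, if_pos (Γ.mem_infs.mp hq).2, pow_succ,
          mul_inv])
      (fun q hqB hq => by
        have h' : q.2 ≠ inf k := fun h => hq (Γ.mem_infs.mpr ⟨hqB, h⟩)
        rw [winf, winf, if_neg h', if_neg h'])
      (Γ.winf_ne n) (Γ.winf_finite n) ih
    have hc : (Γ.infs B).card = B.card := by rw [infs, Finset.card_map]
    rw [hc] at h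
    convert h using 1
    push_cast
    ring

theorem chi_wcan (B : Finset Γ.ι) (T : Finset Γ.E)
    (hT : ∀ e ∈ T, Γ.v (e, false) ∈ B ∧ Γ.v (e, true) ∈ B) :
    HasChi (Γ.prin B) (Γ.ade B) (Γ.lat B Γ.wcan T)
      (-(B.card : ℤ) + (Γ.branches B).card - T.card) := by
  apply Γ.chi_glue B Γ.wcan_ne Γ.wcan_finite T hT
  have h2 := Γ.chi_winf B 2
  have h := chi_up (Γ := Γ) (B := B) (w := Γ.winf 2) (w' := Γ.wcan)
      (τ := fun q => (Γ.wcan q)⁻¹) (P := Γ.brpts B) (fun q hq => (Γ.mem_brpts.mp hq).1)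
      (fun q hq => by
        obtain ⟨e, rfl⟩ := (Γ.mem_brpts.mp hq).2
        rw [wcan_bp, inv_inv]
        exact Γ.ul_tau e)
      (fun q hq => by
        obtain ⟨e, rfl⟩ := (Γ.mem_brpts.mp hq).2
        rw [winf, if_neg (Γ.bp_ne_inf e), mul_inv_cancel₀ (Γ.wcan_ne _)])
      (fun q hqB hq => by
        have h' : ¬ ∃ e, Γ.bp e = q := fun h => hq (Γ.mem_brpts.mpr ⟨hqB, h⟩)
        by_cases h : q.2 = inf k
        · obtain ⟨i, q'⟩ := q
          have h'' : q' = inf k := h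
          subst h''
          rw [wcan_inf, winf, if_pos rfl]
        · rw [Γ.wcan_of_not h' h, winf, if_neg h])
      Γ.wcan_ne Γ.wcan_finite h2
  have hc : (Γ.brpts B).card = (Γ.branches B).card := by rw [brpts, Finset.card_map]
  rw [hc] at h
  convert h using 1
  push_cast
  ring

theorem chi_one (B : Finset Γ.ι) (T : Finset Γ.E)
    (hT : ∀ e ∈ T, Γ.v (e, false) ∈ B ∧ Γ.v (e, true) ∈ B) :
    HasChi (Γ.prin B) (Γ.ade B) (Γ.lat B 1 T) (B.card - T.card) := by
  refine Γ.chi_glue B (w := 1) (fun q => one_ne_zero) ?_ T hT (Γ.chi_base B)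
  have : {q : Γ.Pt | (1 : Γ.Fam) q ≠ 1} = ∅ := by
    ext q
    simp
  rw [this]
  exact Set.finite_empty

theorem inner_spec (B : Finset Γ.ι) (S : Finset Γ.E) :
    ∀ e ∈ Γ.inner B S, Γ.v (e, false) ∈ B ∧ Γ.v (e, true) ∈ B := by
  intro e he
  exact (Finset.mem_filter.mp he).2

theorem chi_eq {B : Finset Γ.ι} {U L : Submodule k Γ.Fam} {n : ℤ}
    (hU : U.map (Γ.curve.cut B) = L) (h : HasChi (Γ.prin B) (Γ.ade B) L n) :
    Γ.curve.chi B U = n := by
  subst hU
  exact h.eq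

/-- The canonical sheaf. -/
noncomputable def can : Submodule k Γ.Fam := Γ.sheaf Γ.wcan Finset.univ

/-- The partial normalization at the nodes not in `S`. -/
noncomputable def str (S : Finset Γ.E) : Submodule k Γ.Fam := Γ.sheaf 1 S

theorem str_univ : Γ.str Finset.univ = Γ.curve.structureSheaf := by
  ext a
  constructor
  · intro ha
    refine ⟨fun q => ?_, fun e he => ?_⟩
    · have := lat_integral ha q
      rwa [Pi.one_apply, inv_one, one_mul] at this
    · have := ha.2.2 e he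
      rwa [Pi.one_apply, Pi.one_apply, inv_one, one_mul, one_mul] at this
  · intro ha
    refine ⟨fun q hq => absurd (Finset.mem_univ _) hq, fun q _ => ?_, fun e he => ?_⟩
    · rw [Pi.one_apply, inv_one, one_mul]
      exact ha.1 q
    · rw [Pi.one_apply, Pi.one_apply, inv_one, one_mul, one_mul]
      exact ha.2 e he

theorem chi_can (B : Finset Γ.ι) : Γ.curve.chi B Γ.can =
    -(B.card : ℤ) + (Γ.branches B).card - (Γ.inner B Finset.univ).card :=
  Γ.chi_eq (Γ.map_cut_sheaf B Γ.wcan_ne _) (Γ.chi_wcan B _ (Γ.inner_spec B _))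

theorem chi_str (B : Finset Γ.ι) (S : Finset Γ.E) : Γ.curve.chi B (Γ.str S) =
    (B.card : ℤ) - (Γ.inner B S).card :=
  Γ.chi_eq (Γ.map_cut_sheaf B (fun _ => one_ne_zero) _) (Γ.chi_one B _ (Γ.inner_spec B _))

theorem chi_structure (B : Finset Γ.ι) : Γ.curve.chi B Γ.curve.structureSheaf =
    (B.card : ℤ) - (Γ.inner B Finset.univ).card := by
  rw [← str_univ]
  exact Γ.chi_str B _

end Conf

end Pool.Agent.KS6_81.GR
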