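import Pool.Agent.KS6_81.GR.Conf

/-!
# Euler characteristics on nodal curves with rational components
-/

set_option autoImplicit false

open Module Polynomial

namespace Pool.Agent.KS6_81.GR

variable {k : Type} [Field k] [IsAlgClosed k]

/-- A local uniformizer. -/
structure UL (q : Place k (RatFunc k)) (t : RatFunc k) : Prop where
  ne : t ≠ 0
  mem : t ∈ q.1
  ev0 : ev q t = 0
  div : ∀ f ∈ q.1, ev q f = 0 → t⁻¹ * f ∈ q.1

theorem IsUnif.ul {q : Place k (RatFunc k)} {t : RatFunc k} (h : IsUnif q t) : UL q t where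
  ne := h.ne
  mem := h.mem
  ev0 := h.ev_eq_zero
  div := fun f hf h0 => by rw [mul_comm]; exact h.div_mem hf h0

theorem UL.neg {q : Place k (RatFunc k)} {t : RatFunc k} (h : UL q t) : UL q (-t) where
  ne := neg_ne_zero.mpr h.ne
  mem := q.1.neg_mem _ h.mem
  ev0 := by rw [ev_neg _ h.mem, h.ev0, neg_zero]
  div := fun f hf h0 => by
    rw [inv_neg, neg_mul]
    exact q.1.neg_mem _ (h.div f hf h0)

namespace Conf

variable (Γ : Conf k)

/-- The principal adeles on `B`. -/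
noncomputable abbrev prin (B : Finset Γ.ι) : Submodule k Γ.Fam := Γ.curve.principal B

/-- The adeles on `B`. -/
noncomputable abbrev ade (B : Finset Γ.ι) : Submodule k Γ.Fam := Γ.curve.adele B

theorem lat_le_ade (B : Finset Γ.ι) {w : Γ.Fam} (hw : {q | w q ≠ 1}.Finite) (T : Finset Γ.E) :
    Γ.lat B w T ≤ Γ.ade B := by
  intro a ha
  refine ⟨ha.1, hw.subset ?_⟩
  intro q hq hw1
  apply hq
  have := lat_integral ha q
  rwa [hw1, inv_one, one_mul] at this

open Classical in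
theorem chi_glue (B : Finset Γ.ι) {w : Γ.Fam} (hw0 : ∀ q, w q ≠ 0) (hw : {q | w q ≠ 1}.Finite)
    (T : Finset Γ.E) (hT : ∀ e ∈ T, Γ.v (e, false) ∈ B ∧ Γ.v (e, true) ∈ B) {n : ℤ}
    (h : HasChi (Γ.prin B) (Γ.ade B) (Γ.lat B w ∅) n) :
    HasChi (Γ.prin B) (Γ.ade B) (Γ.lat B w T) (n - T.card) := by
  have hcard : finrank k (T → k) = T.card := by
    rw [Module.finrank_fintype_fun_eq_card, Fintype.card_coe]
  rw [← hcard]
  refine h.down ?_ (Γ.lat_le_ade B hw ∅)
    { toFun := fun a e => ev (Γ.bp (e, false)).2 ((w (Γ.bp (e, false)))⁻¹ * (a : Γ.Fam) (Γ.bp (e, false))) -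
        ev (Γ.bp (e, true)).2 ((w (Γ.bp (e, true)))⁻¹ * (a : Γ.Fam) (Γ.bp (e, true)))
      map_add' := ?_
      map_smul' := ?_ } ?_ ?_
  · intro a ha
    exact ⟨ha.1, ha.2.1, fun e he => absurd he (Finset.notMem_empty e)⟩
  · intro a b
    funext e
    simp only [Submodule.coe_add, Pi.add_apply, mul_add]
    rw [ev_add _ (lat_integral a.2 _) (lat_integral b.2 _),
      ev_add _ (lat_integral a.2 _) (lat_integral b.2 _)]
    ring
  · intro c a
    funext e
    simp only [Submodule.coe_smul, Pi.smul_apply, mul_smul_comm, RingHom.id_apply, smul_eq_mul]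
    rw [ev_smul _ _ (lat_integral a.2 _), ev_smul _ _ (lat_integral a.2 _)]
    ring
  · intro y
    -- the family with values `y e` at the first branches
    let b : Γ.Fam := fun q => if h : ∃ e : T, Γ.bp (e, false) = q then RatFunc.C (y h.choose) else 0
    have hb1 : ∀ e : T, b (Γ.bp (e, false)) = RatFunc.C (y e) := by
      intro e
      have h' : ∃ e' : T, Γ.bp (e', false) = Γ.bp (e, false) := ⟨e, rfl⟩
      have h2 := Γ.bp_injective h'.choose_spec
      have h3 : h'.choose = e := Subtype.ext (congrArg Prod.fst h2)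
      simp only [b, dif_pos h', h3]
    have hb2 : ∀ e : Γ.E, b (Γ.bp (e, true)) = 0 := by
      intro e
      have h' : ¬ ∃ e' : T, Γ.bp (e', false) = Γ.bp (e, true) := by
        rintro ⟨e', he'⟩
        have := congrArg Prod.snd (Γ.bp_injective he')
        simp at this
      simp only [b, dif_neg h']
    have hb3 : ∀ q, b q ∈ q.2.1 := by
      intro q
      by_cases h' : ∃ e' : T, Γ.bp (e', false) = q
      · simp only [b, dif_pos h']
        exact C_mem_place _ _
      · simp only [b, dif_neg h']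
        exact q.2.1.zero_mem
    have hb4 : ∀ q : Γ.Pt, q.1 ∉ B → b q = 0 := by
      intro q hq
      have h' : ¬ ∃ e' : T, Γ.bp (e', false) = q := by
        rintro ⟨e', rfl⟩
        exact hq (hT e' e'.2).1
      simp only [b, dif_neg h']
    refine ⟨⟨fun q => w q * b q, ⟨fun q hq => ?_, fun q _ => ?_,
      fun e he => absurd he (Finset.notMem_empty e)⟩⟩, ?_⟩
    · show w q * b q = 0
      rw [hb4 q hq, mul_zero]
    · rw [inv_mul_cancel_left₀ (hw0 q)]
      exact hb3 q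
    · funext e
      show ev _ ((w (Γ.bp (e, false)))⁻¹ * (w (Γ.bp (e, false)) * b (Γ.bp (e, false)))) -
        ev _ ((w (Γ.bp (e, true)))⁻¹ * (w (Γ.bp (e, true)) * b (Γ.bp (e, true)))) = y e
      rw [inv_mul_cancel_left₀ (hw0 _), inv_mul_cancel_left₀ (hw0 _), hb1, hb2, ev_C, ev_zero,
        sub_zero]
  · intro a
    constructor
    · intro h0
      refine ⟨a.2.1, a.2.2.1, fun e he => ?_⟩
      have := congrFun h0 ⟨e, he⟩
      exact sub_eq_zero.mp this
    · intro h0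
      funext e
      exact sub_eq_zero.mpr (h0.2.2 e e.2)

open Classical in
/-- The data of the comparison of two ideles. -/
noncomputable def twistMap (B : Finset Γ.ι) (w : Γ.Fam) (P : Finset Γ.Pt) :
    Γ.lat B w ∅ →ₗ[k] (P → k) where
  toFun a q := ev (q : Γ.Pt).2 ((w q)⁻¹ * (a : Γ.Fam) q)
  map_add' a b := by
    funext q
    simp only [Submodule.coe_add, Pi.add_apply, mul_add]
    rw [ev_add _ (lat_integral a.2 _) (lat_integral b.2 _)]
  map_smul' c a := by
    funext q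
    simp only [Submodule.coe_smul, Pi.smul_apply, mul_smul_comm, RingHom.id_apply, smul_eq_mul]
    rw [ev_smul _ _ (lat_integral a.2 _)]

variable {Γ}

theorem twistMap_surj {B : Finset Γ.ι} {w : Γ.Fam} (hw0 : ∀ q, w q ≠ 0) {P : Finset Γ.Pt}
    (hP : ∀ q ∈ P, q.1 ∈ B) : Function.Surjective (Γ.twistMap B w P) := by
  classical
  intro y
  let b : Γ.Fam := fun q => if h : q ∈ P then RatFunc.C (y ⟨q, h⟩) else 0
  have hb3 : ∀ q, b q ∈ q.2.1 := by
    intro q
    by_cases h' : q ∈ P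
    · simp only [b, dif_pos h']
      exact C_mem_place _ _
    · simp only [b, dif_neg h']
      exact q.2.1.zero_mem
  refine ⟨⟨fun q => w q * b q, ⟨fun q hq => ?_, fun q _ => ?_,
      fun e he => absurd he (Finset.notMem_empty e)⟩⟩, ?_⟩
  · have h' : q ∉ P := fun h => hq (hP q h)
    simp only [b, dif_neg h', mul_zero]
  · rw [inv_mul_cancel_left₀ (hw0 q)]
    exact hb3 q
  · funext q
    show ev _ ((w q)⁻¹ * (w q * b q)) = y q
    rw [inv_mul_cancel_left₀ (hw0 q)]
    simp only [b, dif_pos q.2]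
    rw [ev_C]

theorem twist_le {B : Finset Γ.ι} {w w' τ : Γ.Fam} {P : Finset Γ.Pt}
    (hτ : ∀ q ∈ P, UL q.2 (τ q)) (h1 : ∀ q ∈ P, w q = w' q * τ q)
    (h2 : ∀ q, q.1 ∈ B → q ∉ P → w q = w' q) :
    Γ.lat B w ∅ ≤ Γ.lat B w' ∅ := by
  intro a ha
  refine ⟨ha.1, fun q hq => ?_, fun e he => absurd he (Finset.notMem_empty e)⟩
  by_cases h : q ∈ P
  · have h3 := ha.2.1 q hq
    rw [h1 q h, mul_inv, mul_assoc] at h3
    have h4 : (w' q)⁻¹ * a q = τ q * ((w' q)⁻¹ * ((τ q)⁻¹ * a q)) := by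
      have := (hτ q h).ne
      field_simp
    rw [h4]
    exact q.2.1.mul_mem _ _ (hτ q h).mem h3
  · rw [← h2 q hq h]
    exact ha.2.1 q hq

theorem twist_ker {B : Finset Γ.ι} {w w' τ : Γ.Fam} {P : Finset Γ.Pt} (hP : ∀ q ∈ P, q.1 ∈ B)
    (hτ : ∀ q ∈ P, UL q.2 (τ q)) (h1 : ∀ q ∈ P, w q = w' q * τ q)
    (h2 : ∀ q, q.1 ∈ B → q ∉ P → w q = w' q) (a : Γ.lat B w' ∅) :
    Γ.twistMap B w' P a = 0 ↔ (a : Γ.Fam) ∈ Γ.lat B w ∅ := by
  constructor
  · intro h0
    refine ⟨a.2.1, fun q hq => ?_, fun e he => absurd he (Finset.notMem_empty e)⟩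
    by_cases h : q ∈ P
    · have h3 := congrFun h0 ⟨q, h⟩
      have h4 := (hτ q h).div _ (lat_integral a.2 q) h3
      rw [h1 q h, mul_inv]
      rw [← mul_assoc] at h4
      rwa [mul_comm (w' q)⁻¹]
    · rw [h2 q hq h]
      exact a.2.2.1 q hq
  · intro h0
    funext q
    show ev _ ((w' q)⁻¹ * (a : Γ.Fam) q) = 0
    have h3 := h0.2.1 q (hP q q.2)
    rw [h1 q q.2, mul_inv, mul_assoc] at h3
    have h4 : (w' q)⁻¹ * (a : Γ.Fam) q = τ q * ((w' q)⁻¹ * ((τ q)⁻¹ * (a : Γ.Fam) q)) := by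
      have := (hτ q q.2).ne
      field_simp
    rw [h4, ev_mul _ (hτ q q.2).mem h3, (hτ q q.2).ev0, zero_mul]

theorem chi_up {B : Finset Γ.ι} {w w' τ : Γ.Fam} {P : Finset Γ.Pt} (hP : ∀ q ∈ P, q.1 ∈ B)
    (hτ : ∀ q ∈ P, UL q.2 (τ q)) (h1 : ∀ q ∈ P, w q = w' q * τ q)
    (h2 : ∀ q, q.1 ∈ B → q ∉ P → w q = w' q) (hw0 : ∀ q, w' q ≠ 0) (hw : {q | w' q ≠ 1}.Finite) {n : ℤ}
    (h : HasChi (Γ.prin B) (Γ.ade B) (Γ.lat B w ∅) n) :
    HasChi (Γ.prin B) (Γ.ade B) (Γ.lat B w' ∅) (n + P.card) := by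
  have hcard : finrank k (P → k) = P.card := by
    rw [Module.finrank_fintype_fun_eq_card, Fintype.card_coe]
  rw [← hcard]
  exact h.up (twist_le hτ h1 h2) (Γ.lat_le_ade B hw ∅) (Γ.twistMap B w' P)
    (twistMap_surj hw0 hP) (twist_ker hP hτ h1 h2)

theorem chi_down {B : Finset Γ.ι} {w w' τ : Γ.Fam} {P : Finset Γ.Pt} (hP : ∀ q ∈ P, q.1 ∈ B)
    (hτ : ∀ q ∈ P, UL q.2 (τ q)) (h1 : ∀ q ∈ P, w q = w' q * τ q)
    (h2 : ∀ q, q.1 ∈ B → q ∉ P → w q = w' q) (hw0 : ∀ q, w' q ≠ 0) (hw : {q | w' q ≠ 1}.Finite) {n : ℤ}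
    (h : HasChi (Γ.prin B) (Γ.ade B) (Γ.lat B w' ∅) n) :
    HasChi (Γ.prin B) (Γ.ade B) (Γ.lat B w ∅) (n - P.card) := by
  have hcard : finrank k (P → k) = P.card := by
    rw [Module.finrank_fintype_fun_eq_card, Fintype.card_coe]
  rw [← hcard]
  exact h.down (twist_le hτ h1 h2) (Γ.lat_le_ade B hw ∅) (Γ.twistMap B w' P)
    (twistMap_surj hw0 hP) (twist_ker hP hτ h1 h2)

variable (Γ)

/-- The lattice of all integral families. -/
theorem chi_base (B : Finset Γ.ι) :
    HasChi (Γ.prin B) (Γ.ade B) (Γ.lat B 1 ∅) B.card := by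
  classical
  -- the constants
  let Φ : (B → k) →ₗ[k] ↥(Γ.prin B ⊓ Γ.lat B 1 ∅) :=
    { toFun := fun c => ⟨fun q => if h : q.1 ∈ B then RatFunc.C (c ⟨q.1, h⟩) else 0,
        ⟨fun i => if h : i ∈ B then RatFunc.C (c ⟨i, h⟩) else 0, by
          funext q
          show (if q.1 ∈ B then (if h : q.1 ∈ B then RatFunc.C (c ⟨q.1, h⟩) else 0) else 0) = _
          by_cases h : q.1 ∈ B
          · rw [if_pos h]
          · rw [if_neg h, dif_neg h]⟩,
        ⟨fun q hq => dif_neg hq, fun q hq => by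
          show _ * (if h : q.1 ∈ B then RatFunc.C (c ⟨q.1, h⟩) else 0) ∈ _
          rw [dif_pos hq, Pi.one_apply, inv_one, one_mul]
          exact C_mem_place _ _, fun e he => absurd he (Finset.notMem_empty e)⟩⟩
      map_add' := by
        intro c c'
        apply Subtype.ext
        funext q
        show (if h : q.1 ∈ B then (RatFunc.C ((c + c') ⟨q.1, h⟩) : RatFunc k) else 0) =
          (if h : q.1 ∈ B then (RatFunc.C (c ⟨q.1, h⟩) : RatFunc k) else 0) +
          (if h : q.1 ∈ B then (RatFunc.C (c' ⟨q.1, h⟩) : RatFunc k) else 0)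
        by_cases h : q.1 ∈ B
        · rw [dif_pos h, dif_pos h, dif_pos h, Pi.add_apply, map_add]
        · rw [dif_neg h, dif_neg h, dif_neg h, add_zero]
      map_smul' := by
        intro r c
        apply Subtype.ext
        funext q
        show (if h : q.1 ∈ B then (RatFunc.C ((r • c) ⟨q.1, h⟩) : RatFunc k) else 0) =
          r • (if h : q.1 ∈ B then (RatFunc.C (c ⟨q.1, h⟩) : RatFunc k) else 0)
        by_cases h : q.1 ∈ B
        · rw [dif_pos h, dif_pos h, Pi.smul_apply, smul_eq, smul_eq_mul, map_mul]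
        · rw [dif_neg h, dif_neg h, smul_zero] }
  have hΦ : Function.Bijective Φ := by
    constructor
    · intro c c' h
      funext i
      have h1 : (Φ c : Γ.Fam) ⟨i, inf k⟩ = (Φ c' : Γ.Fam) ⟨i, inf k⟩ := by rw [h]
      have h2 : RatFunc.C (c i) = RatFunc.C (c' i) := by
        have e1 : (Φ c : Γ.Fam) ⟨i, inf k⟩ = RatFunc.C (c i) := dif_pos i.2
        have e2 : (Φ c' : Γ.Fam) ⟨i, inf k⟩ = RatFunc.C (c' i) := dif_pos i.2
        rw [← e1, ← e2, h1]
      exact RatFunc.C_injective h2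
    · rintro ⟨a, ⟨f, hf⟩, ha⟩
      have h1 : ∀ q : Γ.Pt, q.1 ∈ B → a q = f q.1 := by
        intro q hq
        rw [← hf]
        show (if q.1 ∈ B then f q.1 else 0) = f q.1
        rw [if_pos hq]
      have h2 : ∀ i ∈ B, ∃ c, f i = RatFunc.C c := by
        intro i hi
        apply const_of_mem
        intro q
        have := ha.2.1 ⟨i, q⟩ hi
        rw [Pi.one_apply, inv_one, one_mul, h1 ⟨i, q⟩ hi] at this
        exact this
      choose c hc using h2
      refine ⟨fun i => c i i.2, ?_⟩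
      apply Subtype.ext
      funext q
      show (if h : q.1 ∈ B then RatFunc.C (c q.1 h) else 0) = a q
      by_cases h : q.1 ∈ B
      · rw [dif_pos h, h1 q h, hc q.1 h]
      · rw [dif_neg h, ha.1 q h]
  let e := LinearEquiv.ofBijective Φ hΦ
  have hfin : FiniteDimensional k ↥(Γ.prin B ⊓ Γ.lat B 1 ∅) := Module.Finite.equiv e
  have hrank : finrank k ↥(Γ.prin B ⊓ Γ.lat B 1 ∅) = B.card := by
    rw [← e.finrank_eq, Module.finrank_fintype_fun_eq_card, Fintype.card_coe]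
  -- all adeles
  have htop : (Γ.prin B ⊔ Γ.lat B 1 ∅).comap (Γ.ade B).subtype = ⊤ := by
    rw [eq_top_iff]
    rintro ⟨a, ha1, ha2⟩ _
    show a ∈ Γ.prin B ⊔ Γ.lat B 1 ∅
    have hap : ∀ i : Γ.ι, ∃ f : RatFunc k, ∀ q : Place k (RatFunc k), a ⟨i, q⟩ - f ∈ q.1 := by
      intro i
      apply approx (fun q => a ⟨i, q⟩)
      have := ha2.preimage (f := fun q : Place k (RatFunc k) => (⟨i, q⟩ : Γ.Pt))
        (fun q _ q' _ h => by
          rw [Smooth.Pt.mk.injEq] at h
          exact eq_of_heq h.2)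
      exact this
    choose f hf using hap
    have h1 : a = Γ.curve.cut B (Γ.curve.diag f) + (a - Γ.curve.cut B (Γ.curve.diag f)) := by
      abel
    rw [h1]
    refine Submodule.add_mem_sup ⟨f, rfl⟩ ⟨fun q hq => ?_, fun q hq => ?_,
      fun e he => absurd he (Finset.notMem_empty e)⟩
    · show a q - (if q.1 ∈ B then f q.1 else 0) = 0
      rw [if_neg hq, ha1 q hq, sub_zero]
    · rw [Pi.one_apply, inv_one, one_mul]
      show a q - (if q.1 ∈ B then f q.1 else 0) ∈ q.2.1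
      rw [if_pos hq]
      exact hf q.1 q.2
  have hsub : Subsingleton (Quo (Γ.prin B) (Γ.ade B) (Γ.lat B 1 ∅)) := by
    rw [Submodule.Quotient.subsingleton_iff]
    exact htop
  refine ⟨hfin, Module.Finite.of_finite, ?_⟩
  rw [hrank, Module.finrank_zero_of_subsingleton]
  simp

end Conf

end Pool.Agent.KS6_81.GR
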