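import Mathlib

/-!
# The index of a pair of subspaces
-/

set_option autoImplicit false

open Module

namespace Pool.Agent.KS6_81.GR

variable {k X : Type} [Field k] [AddCommGroup X] [Module k X]

/-- The quotient `A / (D + V)`. -/
abbrev Quo (D A V : Submodule k X) : Type := A ⧸ (D ⊔ V).comap A.subtype

/-- `dim (D ∩ V) - dim A / (D + V) = n`, both being finite. -/
structure HasChi (D A V : Submodule k X) (n : ℤ) : Prop where
  fin0 : FiniteDimensional k ↥(D ⊓ V)
  fin1 : FiniteDimensional k (Quo D A V)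
  eq : (finrank k ↥(D ⊓ V) : ℤ) - finrank k (Quo D A V) = n

section core

variable {D A V V' : Submodule k X} (hVV : V ≤ V') (hVA : V' ≤ A)
  {Y : Type} [AddCommGroup Y] [Module k Y] (φ : V' →ₗ[k] Y)

/-- The map `D ∩ V' → Y`. -/
def fMap (φ : V' →ₗ[k] Y) : ↥(D ⊓ V') →ₗ[k] Y :=
  φ ∘ₗ Submodule.inclusion inf_le_right

/-- The map `Y → A / (D + V)` given by a section. -/
def hMap (hVA : V' ≤ A) (s : Y →ₗ[k] V') : Y →ₗ[k] Quo D A V :=
  (Submodule.mkQ _) ∘ₗ (Submodule.inclusion hVA) ∘ₗ s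

/-- The map `A / (D + V) → A / (D + V')`. -/
def gMap (hVV : V ≤ V') : Quo D A V →ₗ[k] Quo D A V' :=
  Submodule.mapQ _ _ LinearMap.id (by
    rw [Submodule.comap_id]
    exact Submodule.comap_mono (sup_le_sup_left hVV D))

theorem gMap_surj : Function.Surjective (gMap (D := D) (A := A) hVV) := by
  intro y
  obtain ⟨a, rfl⟩ := Submodule.mkQ_surjective _ y
  exact ⟨Submodule.mkQ _ a, rfl⟩

include hVV in
theorem ker_fMap (hk : ∀ a : V', φ a = 0 ↔ (a : X) ∈ V) :
    Nonempty (LinearMap.ker (fMap (D := D) φ) ≃ₗ[k] ↥(D ⊓ V)) := by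
  refine ⟨LinearEquiv.ofBijective
    { toFun := fun x => ⟨(x : ↥(D ⊓ V')), x.1.2.1, (hk ⟨_, x.1.2.2⟩).mp x.2⟩
      map_add' := fun _ _ => rfl
      map_smul' := fun _ _ => rfl } ⟨?_, ?_⟩⟩
  · intro x y h
    apply Subtype.ext
    apply Subtype.ext
    have h2 : ((x : ↥(D ⊓ V')) : X) = ((y : ↥(D ⊓ V')) : X) :=
      congrArg (Subtype.val (p := fun z => z ∈ D ⊓ V)) h
    exact h2
  · intro y
    exact ⟨⟨⟨y, y.2.1, hVV y.2.2⟩, (hk ⟨_, hVV y.2.2⟩).mpr y.2.2⟩, rfl⟩

theorem ker_hMap (hVV : V ≤ V') (hk : ∀ a : V', φ a = 0 ↔ (a : X) ∈ V) (s : Y →ₗ[k] V')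
    (hs : φ ∘ₗ s = LinearMap.id) :
    LinearMap.ker (hMap (D := D) (V := V) hVA s) = LinearMap.range (fMap (D := D) φ) := by
  ext y
  constructor
  · intro hy
    have h1 : Submodule.mkQ ((D ⊔ V).comap A.subtype) (Submodule.inclusion hVA (s y)) = 0 := hy
    rw [Submodule.mkQ_apply, Submodule.Quotient.mk_eq_zero] at h1
    obtain ⟨d, hd, v, hv, hdv⟩ := Submodule.mem_sup.mp h1
    have hdv' : d + v = (s y : X) := hdv
    have hdV : d ∈ V' := by
      have : d = (s y : X) - v := by rw [← hdv']; abel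
      rw [this]
      exact sub_mem (s y).2 (hVV hv)
    refine ⟨⟨d, hd, hdV⟩, ?_⟩
    have h2 : φ ⟨d, hdV⟩ = φ (s y) - φ ⟨v, hVV hv⟩ := by
      rw [← map_sub]
      congr 1
      apply Subtype.ext
      show d = (s y : X) - v
      rw [← hdv']; abel
    have h3 : φ ⟨v, hVV hv⟩ = 0 := (hk _).mpr hv
    have h4 : φ (s y) = y := LinearMap.congr_fun hs y
    show φ ⟨d, hdV⟩ = y
    rw [h2, h3, h4, sub_zero]
  · rintro ⟨⟨d, hd, hdV⟩, rfl⟩
    show Submodule.mkQ ((D ⊔ V).comap A.subtype)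
      (Submodule.inclusion hVA (s (φ ⟨d, hdV⟩))) = 0
    rw [Submodule.mkQ_apply, Submodule.Quotient.mk_eq_zero]
    show (s (φ ⟨d, hdV⟩) : X) ∈ D ⊔ V
    have h1 : φ (s (φ ⟨d, hdV⟩) - ⟨d, hdV⟩) = 0 := by
      rw [map_sub]
      have h4 : φ (s (φ ⟨d, hdV⟩)) = φ ⟨d, hdV⟩ := LinearMap.congr_fun hs _
      rw [h4, sub_self]
    have h2 := (hk _).mp h1
    have : (s (φ ⟨d, hdV⟩) : X) = d + ((s (φ ⟨d, hdV⟩) - ⟨d, hdV⟩ : V') : X) := by
      rw [Submodule.coe_sub]; abel
    rw [this]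
    exact Submodule.add_mem_sup hd h2

theorem range_hMap (hk : ∀ a : V', φ a = 0 ↔ (a : X) ∈ V) (s : Y →ₗ[k] V')
    (hs : φ ∘ₗ s = LinearMap.id) :
    LinearMap.range (hMap (D := D) (V := V) hVA s) = LinearMap.ker (gMap (D := D) (A := A) hVV) := by
  ext x
  constructor
  · rintro ⟨y, rfl⟩
    show Submodule.mkQ ((D ⊔ V').comap A.subtype) (Submodule.inclusion hVA (s y)) = 0
    rw [Submodule.mkQ_apply, Submodule.Quotient.mk_eq_zero]
    exact Submodule.mem_sup_right (s y).2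
  · intro hx
    obtain ⟨a, rfl⟩ := Submodule.mkQ_surjective _ x
    have h1 : Submodule.mkQ ((D ⊔ V').comap A.subtype) a = 0 := hx
    rw [Submodule.mkQ_apply, Submodule.Quotient.mk_eq_zero] at h1
    obtain ⟨d, hd, v, hv, hdv⟩ := Submodule.mem_sup.mp h1
    have hdv' : d + v = (a : X) := hdv
    refine ⟨φ ⟨v, hv⟩, ?_⟩
    show Submodule.mkQ ((D ⊔ V).comap A.subtype) (Submodule.inclusion hVA (s (φ ⟨v, hv⟩))) =
      Submodule.mkQ ((D ⊔ V).comap A.subtype) a
    rw [Submodule.mkQ_apply, Submodule.mkQ_apply, Submodule.Quotient.eq]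
    show (s (φ ⟨v, hv⟩) : X) - a ∈ D ⊔ V
    have h1 : φ (s (φ ⟨v, hv⟩) - ⟨v, hv⟩) = 0 := by
      rw [map_sub]
      have h4 : φ (s (φ ⟨v, hv⟩)) = φ ⟨v, hv⟩ := LinearMap.congr_fun hs _
      rw [h4, sub_self]
    have h2 := (hk _).mp h1
    have : (s (φ ⟨v, hv⟩) : X) - a = -d + ((s (φ ⟨v, hv⟩) - ⟨v, hv⟩ : V') : X) := by
      rw [Submodule.coe_sub, ← hdv']
      show _ = -d + (_ - v)
      abel
    rw [this]
    exact Submodule.add_mem_sup (D.neg_mem hd) h2

end core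

variable {D A V V' : Submodule k X} {Y : Type} [AddCommGroup Y] [Module k Y]
  [FiniteDimensional k Y]

/-- A bigger subspace has a bigger index. -/
theorem HasChi.up {n : ℤ} (h : HasChi D A V n) (hVV : V ≤ V') (hVA : V' ≤ A)
    (φ : V' →ₗ[k] Y) (hs : Function.Surjective φ) (hk : ∀ a : V', φ a = 0 ↔ (a : X) ∈ V) :
    HasChi D A V' (n + finrank k Y) := by
  obtain ⟨s, hs'⟩ := φ.exists_rightInverse_of_surjective (LinearMap.range_eq_top.mpr hs)
  obtain ⟨e⟩ := ker_fMap (D := D) hVV φ hk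
  have := h.fin0
  have := h.fin1
  have i1 : FiniteDimensional k (LinearMap.ker (fMap (D := D) φ)) :=
    Module.Finite.equiv e.symm
  have i2 : FiniteDimensional k (↥(D ⊓ V') ⧸ LinearMap.ker (fMap (D := D) φ)) :=
    Module.Finite.equiv (fMap (D := D) φ).quotKerEquivRange.symm
  have i3 : FiniteDimensional k ↥(D ⊓ V') :=
    Module.Finite.of_submodule_quotient (LinearMap.ker (fMap (D := D) φ))
  have i4 : FiniteDimensional k (Quo D A V') :=
    Module.Finite.of_surjective _ (gMap_surj (D := D) (A := A) hVV)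
  refine ⟨i3, i4, ?_⟩
  have e1 := LinearMap.finrank_range_add_finrank_ker (fMap (D := D) φ)
  have e2 := LinearMap.finrank_range_add_finrank_ker (hMap (D := D) (V := V) hVA s)
  have e3 := LinearMap.finrank_range_add_finrank_ker (gMap (D := D) (A := A) hVV)
  rw [ker_hMap hVA φ hVV hk s hs', range_hMap hVV hVA φ hk s hs'] at e2
  rw [LinearMap.range_eq_top.mpr (gMap_surj (D := D) (A := A) hVV), finrank_top] at e3
  rw [e.finrank_eq] at e1
  have e4 := h.eq
  omega

/-- A smaller subspace has a smaller index. -/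
theorem HasChi.down {n : ℤ} (h : HasChi D A V' n) (hVV : V ≤ V') (hVA : V' ≤ A)
    (φ : V' →ₗ[k] Y) (hs : Function.Surjective φ) (hk : ∀ a : V', φ a = 0 ↔ (a : X) ∈ V) :
    HasChi D A V (n - finrank k Y) := by
  obtain ⟨s, hs'⟩ := φ.exists_rightInverse_of_surjective (LinearMap.range_eq_top.mpr hs)
  obtain ⟨e⟩ := ker_fMap (D := D) hVV φ hk
  have := h.fin0
  have := h.fin1
  have i1 : FiniteDimensional k ↥(D ⊓ V) := Module.Finite.equiv e
  have i2 : FiniteDimensional k (LinearMap.ker (gMap (D := D) (A := A) hVV)) := by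
    rw [← range_hMap hVV hVA φ hk s hs']
    infer_instance
  have i3 : FiniteDimensional k (Quo D A V ⧸ LinearMap.ker (gMap (D := D) (A := A) hVV)) :=
    Module.Finite.equiv (gMap (D := D) (A := A) hVV).quotKerEquivRange.symm
  have i4 : FiniteDimensional k (Quo D A V) :=
    Module.Finite.of_submodule_quotient (LinearMap.ker (gMap (D := D) (A := A) hVV))
  refine ⟨i1, i4, ?_⟩
  have e1 := LinearMap.finrank_range_add_finrank_ker (fMap (D := D) φ)
  have e2 := LinearMap.finrank_range_add_finrank_ker (hMap (D := D) (V := V) hVA s)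
  have e3 := LinearMap.finrank_range_add_finrank_ker (gMap (D := D) (A := A) hVV)
  rw [ker_hMap hVA φ hVV hk s hs', range_hMap hVV hVA φ hk s hs'] at e2
  rw [LinearMap.range_eq_top.mpr (gMap_surj (D := D) (A := A) hVV), finrank_top] at e3
  rw [e.finrank_eq] at e1
  have e4 := h.eq
  omega

end Pool.Agent.KS6_81.GR
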