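import Pool.Agent.KS6_81.GR.Residue
import Pool.Agent.KS6_81.GR.Index

/-!
# Nodal curves with rational components
-/

set_option autoImplicit false

open Module Polynomial

namespace Pool.Agent.KS6_81.GR

/-- A nodal curve whose components are lines: the node `e` joins the points `p (e, false)` of the
component `v (e, false)` and `p (e, true)` of the component `v (e, true)`. -/
structure Conf (k : Type) [Field k] where
  ι : Type
  E : Type
  [fι : Fintype ι]
  [dι : DecidableEq ι]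
  [nι : Nonempty ι]
  [fE : Fintype E]
  [dE : DecidableEq E]
  v : E × Bool → ι
  p : E × Bool → k
  inj : ∀ e e', v e = v e' → p e = p e' → e = e'

attribute [instance] Conf.fι Conf.dι Conf.nι Conf.fE Conf.dE

theorem transcendental_X (k : Type) [Field k] : Transcendental k (RatFunc.X : RatFunc k) := by
  apply RatFunc.transcendental_of_ne_C
  rintro ⟨c, hc⟩
  have h := congrArg RatFunc.intDegree hc
  simp at h

theorem finite_adjoin_X (k : Type) [Field k] :
    FiniteDimensional (IntermediateField.adjoin k {(RatFunc.X : RatFunc k)}) (RatFunc k) := by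
  rw [RatFunc.adjoin_X]
  exact FiniteDimensional.of_finrank_pos (by rw [IntermediateField.finrank_top]; exact one_pos)

namespace Conf

variable {k : Type} [Field k] (Γ : Conf k)

/-- The normalization. -/
noncomputable abbrev smooth : Smooth k where
  ι := Γ.ι
  K := fun _ => RatFunc k
  functionField := fun _ => ⟨RatFunc.X, transcendental_X k, finite_adjoin_X k⟩

/-- The points of the normalization. -/
abbrev Pt : Type := Γ.smooth.Pt

/-- The families of rational functions. -/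
abbrev Fam : Type := ∀ _ : Γ.Pt, RatFunc k

/-- The point of the branch `e`. -/
noncomputable def bp (e : Γ.E × Bool) : Γ.Pt := ⟨Γ.v e, pl (some (Γ.p e))⟩

theorem bp_injective : Function.Injective Γ.bp := by
  intro e e' h
  rw [bp, bp, Smooth.Pt.mk.injEq] at h
  refine Γ.inj e e' h.1 ?_
  have := pl_injective (eq_of_heq h.2)
  exact Option.some_injective _ this

theorem bp_ne_inf (e : Γ.E × Bool) : (Γ.bp e).2 ≠ inf k := pl_some_ne _

/-- The other branch of the node. -/
def other (e : Γ.E × Bool) : Γ.E × Bool := (e.1, !e.2)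

theorem other_other (e : Γ.E × Bool) : Γ.other (Γ.other e) = e := by
  simp [other]

variable [IsAlgClosed k]

/-- The families which are integral and glued at the nodes in `S`. -/
noncomputable def nodeRing (S : Finset Γ.E) : Subalgebra k Γ.Fam where
  carrier := {a | (∀ q, a q ∈ q.2.1) ∧ ∀ e ∈ S,
    ev (Γ.bp (e, false)).2 (a (Γ.bp (e, false))) = ev (Γ.bp (e, true)).2 (a (Γ.bp (e, true)))}
  mul_mem' := by
    rintro a b ⟨ha, ha'⟩ ⟨hb, hb'⟩
    refine ⟨fun q => q.2.1.mul_mem _ _ (ha q) (hb q), fun e he => ?_⟩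
    rw [Pi.mul_apply, Pi.mul_apply, ev_mul _ (ha _) (hb _), ev_mul _ (ha _) (hb _), ha' e he,
      hb' e he]
  add_mem' := by
    rintro a b ⟨ha, ha'⟩ ⟨hb, hb'⟩
    refine ⟨fun q => q.2.1.add_mem _ _ (ha q) (hb q), fun e he => ?_⟩
    rw [Pi.add_apply, Pi.add_apply, ev_add _ (ha _) (hb _), ev_add _ (ha _) (hb _), ha' e he,
      hb' e he]
  algebraMap_mem' := by
    intro c
    refine ⟨fun q => ?_, fun e _ => ?_⟩
    · rw [Pi.algebraMap_apply]
      exact q.2.3 c
    · rw [Pi.algebraMap_apply, Pi.algebraMap_apply, algC, ev_C, ev_C]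

theorem mem_nodeRing {S : Finset Γ.E} {a : Γ.Fam} : a ∈ Γ.nodeRing S ↔
    (∀ q, a q ∈ q.2.1) ∧ ∀ e ∈ S,
    ev (Γ.bp (e, false)).2 (a (Γ.bp (e, false))) = ev (Γ.bp (e, true)).2 (a (Γ.bp (e, true))) :=
  Iff.rfl

open Classical in
/-- The idele of uniformizers at the branches. -/
noncomputable def nodeIdele : Γ.Fam := fun q =>
  if h : ∃ e, Γ.bp e = q then RatFunc.X - RatFunc.C (Γ.p h.choose) else 1

theorem nodeIdele_bp (e : Γ.E × Bool) :
    Γ.nodeIdele (Γ.bp e) = RatFunc.X - RatFunc.C (Γ.p e) := by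
  have h : ∃ e', Γ.bp e' = Γ.bp e := ⟨e, rfl⟩
  rw [nodeIdele, dif_pos h, Γ.bp_injective h.choose_spec]

theorem nodeIdele_of_not {q : Γ.Pt} (h : ¬ ∃ e, Γ.bp e = q) : Γ.nodeIdele q = 1 := by
  rw [nodeIdele, dif_neg h]

theorem nodeRing_open (S : Finset Γ.E) : ∃ u : Γ.Fam, (∀ q, u q ≠ 0) ∧ {q | u q ≠ 1}.Finite ∧
    ∀ a : Γ.Fam, (∀ q, a q ∈ q.2.1) → u * a ∈ Γ.nodeRing S := by
  refine ⟨Γ.nodeIdele, ?_, ?_, ?_⟩
  · intro q
    by_cases h : ∃ e, Γ.bp e = q
    · obtain ⟨e, rfl⟩ := h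
      rw [nodeIdele_bp]
      exact XC_ne _
    · rw [Γ.nodeIdele_of_not h]
      exact one_ne_zero
  · refine (Set.finite_range Γ.bp).subset ?_
    intro q hq
    by_contra h
    exact hq (Γ.nodeIdele_of_not h)
  · intro a ha
    have h1 : ∀ e, Γ.nodeIdele (Γ.bp e) ∈ (Γ.bp e).2.1 := by
      intro e
      rw [nodeIdele_bp]
      exact (isUnif_pl (some (Γ.p e))).mem
    have h2 : ∀ e, ev (Γ.bp e).2 ((Γ.nodeIdele * a) (Γ.bp e)) = 0 := by
      intro e
      rw [Pi.mul_apply, ev_mul _ (h1 e) (ha _), nodeIdele_bp]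
      have := (isUnif_pl (some (Γ.p e))).ev_eq_zero
      have h3 : ev (Γ.bp e).2 (RatFunc.X - RatFunc.C (Γ.p e)) = 0 := this
      rw [h3, zero_mul]
    refine ⟨fun q => ?_, fun e _ => ?_⟩
    · by_cases h : ∃ e, Γ.bp e = q
      · obtain ⟨e, rfl⟩ := h
        exact (Γ.bp e).2.1.mul_mem _ _ (h1 e) (ha _)
      · rw [Pi.mul_apply, Γ.nodeIdele_of_not h, one_mul]
        exact ha q
    · rw [h2, h2]

/-- The nodal curve. -/
noncomputable abbrev curve : Curve k where
  toSmooth := Γ.smooth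
  R := Γ.nodeRing Finset.univ
  integral := fun _ ha => ha.1
  isOpen := by
    obtain ⟨u, h1, h2, h3⟩ := Γ.nodeRing_open Finset.univ
    exact ⟨u, ⟨h1, h2⟩, h3⟩


/-- The lattice on the components `B` given by the idele `w` and the gluing at the nodes `T`. -/
noncomputable def lat (B : Finset Γ.ι) (w : Γ.Fam) (T : Finset Γ.E) : Submodule k Γ.Fam where
  carrier := {a | (∀ q, q.1 ∉ B → a q = 0) ∧ (∀ q, q.1 ∈ B → (w q)⁻¹ * a q ∈ q.2.1) ∧
    ∀ e ∈ T, ev (Γ.bp (e, false)).2 ((w (Γ.bp (e, false)))⁻¹ * a (Γ.bp (e, false))) =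
      ev (Γ.bp (e, true)).2 ((w (Γ.bp (e, true)))⁻¹ * a (Γ.bp (e, true)))}
  zero_mem' := ⟨fun _ _ => rfl, fun q _ => by simp [q.2.1.zero_mem], fun e _ => by simp [ev_zero]⟩
  add_mem' := by
    rintro a b ⟨ha, ha', ha''⟩ ⟨hb, hb', hb''⟩
    have key : ∀ (c : Γ.Fam), (∀ q, q.1 ∉ B → c q = 0) → (∀ q, q.1 ∈ B → (w q)⁻¹ * c q ∈ q.2.1) →
        ∀ q, (w q)⁻¹ * c q ∈ q.2.1 := by
      intro c hc hc' q
      by_cases h : q.1 ∈ B
      · exact hc' q h
      · rw [hc q h, mul_zero]
        exact q.2.1.zero_mem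
    refine ⟨fun q hq => by rw [Pi.add_apply, ha q hq, hb q hq, add_zero],
      fun q hq => by rw [Pi.add_apply, mul_add]; exact q.2.1.add_mem _ _ (ha' q hq) (hb' q hq),
      fun e he => ?_⟩
    rw [Pi.add_apply, Pi.add_apply, mul_add, mul_add,
      ev_add _ (key a ha ha' _) (key b hb hb' _), ev_add _ (key a ha ha' _) (key b hb hb' _),
      ha'' e he, hb'' e he]
  smul_mem' := by
    rintro c a ⟨ha, ha', ha''⟩
    have key : ∀ q, (w q)⁻¹ * a q ∈ q.2.1 := by
      intro q
      by_cases h : q.1 ∈ B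
      · exact ha' q h
      · rw [ha q h, mul_zero]
        exact q.2.1.zero_mem
    refine ⟨fun q hq => by rw [Pi.smul_apply, ha q hq, smul_zero],
      fun q hq => by
        rw [Pi.smul_apply, mul_smul_comm]
        exact smul_mem_place _ (ha' q hq), fun e he => ?_⟩
    rw [Pi.smul_apply, Pi.smul_apply, mul_smul_comm, mul_smul_comm, ev_smul _ _ (key _),
      ev_smul _ _ (key _), ha'' e he]

variable {Γ}

theorem lat_integral {B : Finset Γ.ι} {w : Γ.Fam} {T : Finset Γ.E} {a : Γ.Fam}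
    (ha : a ∈ Γ.lat B w T) (q : Γ.Pt) : (w q)⁻¹ * a q ∈ q.2.1 := by
  by_cases h : q.1 ∈ B
  · exact ha.2.1 q h
  · rw [ha.1 q h, mul_zero]
    exact q.2.1.zero_mem

variable (Γ)

/-- The sheaf given by the idele `w` and the gluing at the nodes `S`. -/
noncomputable def sheaf (w : Γ.Fam) (S : Finset Γ.E) : Submodule k Γ.Fam := Γ.lat Finset.univ w S

/-- The nodes of `S` with both branches on components in `B`. -/
def inner (B : Finset Γ.ι) (S : Finset Γ.E) : Finset Γ.E :=
  S.filter fun e => Γ.v (e, false) ∈ B ∧ Γ.v (e, true) ∈ B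

open Classical in
/-- Extension of a family on `B` such that the gluing conditions hold. -/
noncomputable def extend (B : Finset Γ.ι) (b : Γ.Fam) : Γ.Fam := fun q =>
  if q.1 ∈ B then b q else
    if h : ∃ e, Γ.bp e = q then
      (if Γ.v (Γ.other h.choose) ∈ B then
        RatFunc.C (ev (Γ.bp (Γ.other h.choose)).2 (b (Γ.bp (Γ.other h.choose)))) else 0)
    else 0

theorem extend_mem {B : Finset Γ.ι} (b : Γ.Fam) {q : Γ.Pt} (h : q.1 ∈ B) :
    Γ.extend B b q = b q := by
  rw [extend, if_pos h]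

theorem extend_bp {B : Finset Γ.ι} (b : Γ.Fam) {e : Γ.E × Bool} (h : Γ.v e ∉ B) :
    Γ.extend B b (Γ.bp e) =
      if Γ.v (Γ.other e) ∈ B then
        RatFunc.C (ev (Γ.bp (Γ.other e)).2 (b (Γ.bp (Γ.other e)))) else 0 := by
  have h' : ∃ e', Γ.bp e' = Γ.bp e := ⟨e, rfl⟩
  rw [extend, if_neg (show (Γ.bp e).1 ∉ B from h), dif_pos h', Γ.bp_injective h'.choose_spec]

theorem extend_integral {B : Finset Γ.ι} (b : Γ.Fam) (hb : ∀ q, q.1 ∈ B → b q ∈ q.2.1)
    (q : Γ.Pt) : Γ.extend B b q ∈ q.2.1 := by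
  by_cases h : q.1 ∈ B
  · rw [extend_mem _ _ h]
    exact hb q h
  · rw [extend, if_neg h]
    split_ifs
    · exact C_mem_place _ _
    · exact q.2.1.zero_mem
    · exact q.2.1.zero_mem

theorem map_cut_sheaf (B : Finset Γ.ι) {w : Γ.Fam} (hw : ∀ q, w q ≠ 0) (S : Finset Γ.E) :
    (Γ.sheaf w S).map (Γ.curve.cut B) = Γ.lat B w (Γ.inner B S) := by
  ext a
  constructor
  · rintro ⟨b, hb, rfl⟩
    have hcut : ∀ q : Γ.Pt, q.1 ∈ B → Γ.curve.cut B b q = b q := by
      intro q hq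
      show (if q.1 ∈ B then b q else 0) = b q
      rw [if_pos hq]
    refine ⟨fun q hq => ?_, fun q hq => ?_, fun e he => ?_⟩
    · show (if q.1 ∈ B then b q else 0) = 0
      rw [if_neg hq]
    · rw [hcut q hq]
      exact lat_integral hb q
    · rw [inner, Finset.mem_filter] at he
      rw [hcut _ he.2.1, hcut _ he.2.2]
      exact hb.2.2 e he.1
  · intro ha
    refine ⟨fun q => w q * Γ.extend B (fun q => (w q)⁻¹ * a q) q, ⟨fun q hq => absurd (Finset.mem_univ _) hq,
      fun q _ => ?_, fun e he => ?_⟩, ?_⟩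
    · rw [inv_mul_cancel_left₀ (hw q)]
      exact Γ.extend_integral _ ha.2.1 q
    · show ev _ ((w (Γ.bp (e, false)))⁻¹ * (w (Γ.bp (e, false)) *
          Γ.extend B (fun q => (w q)⁻¹ * a q) (Γ.bp (e, false)))) =
        ev _ ((w (Γ.bp (e, true)))⁻¹ * (w (Γ.bp (e, true)) *
          Γ.extend B (fun q => (w q)⁻¹ * a q) (Γ.bp (e, true))))
      rw [inv_mul_cancel_left₀ (hw _), inv_mul_cancel_left₀ (hw _)]
      by_cases h0 : Γ.v (e, false) ∈ B
      · by_cases h1 : Γ.v (e, true) ∈ B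
        · rw [extend_mem _ _ (show (Γ.bp (e, false)).1 ∈ B from h0),
            extend_mem _ _ (show (Γ.bp (e, true)).1 ∈ B from h1)]
          exact ha.2.2 e (Finset.mem_filter.mpr ⟨he, h0, h1⟩)
        · rw [extend_mem _ _ (show (Γ.bp (e, false)).1 ∈ B from h0), extend_bp _ _ h1,
            if_pos (show Γ.v (Γ.other (e, true)) ∈ B from h0), ev_C]
          rfl
      · by_cases h1 : Γ.v (e, true) ∈ B
        · rw [extend_mem _ _ (show (Γ.bp (e, true)).1 ∈ B from h1), extend_bp _ _ h0,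
            if_pos (show Γ.v (Γ.other (e, false)) ∈ B from h1), ev_C]
          rfl
        · rw [extend_bp _ _ h0, extend_bp _ _ h1,
            if_neg (show Γ.v (Γ.other (e, false)) ∉ B from h1),
            if_neg (show Γ.v (Γ.other (e, true)) ∉ B from h0), ev_zero, ev_zero]
    · funext q
      show (if q.1 ∈ B then w q * Γ.extend B (fun q => (w q)⁻¹ * a q) q else 0) = a q
      by_cases h : q.1 ∈ B
      · rw [if_pos h, extend_mem _ _ h, mul_inv_cancel_left₀ (hw q)]
      · rw [if_neg h, ha.1 q h]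

end Conf

end Pool.Agent.KS6_81.GR
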