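import Mathlib

/-!
# Reduced projective curves, torsion free sheaves of rank 1, Clifford index and Koszul cohomology

The description of singular curves by their normalization, as in the book of Serre on algebraic
groups and class fields (and of their sheaves by adeles, as in the work of Weil).

Let `k` be an algebraically closed field. A reduced projective curve `C` over `k` is given by the
function fields `K i` of its irreducible components and by the local rings of its points. The closed
points of the normalization of `C` are the places `q` of the fields `K i`, with valuation rings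
`O_q`. The local rings of `C` are given by the subalgebra `R` of the product of all the `O_q`
consisting of the families `(a_q)` which are, at every closed point `x` of `C`, in the local ring
(semilocal completion) of `C` at `x`. This is an open subalgebra: it contains all families which
vanish to a certain order at finitely many places and are integral at all the others. Conversely every
open subalgebra `R` of the product of the `O_q` belongs to a reduced projective curve with the given
normalization.

A torsion free sheaf of rank 1 on `C` is, up to isomorphism, given by an `R`-submodule `U` of the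
product of the fields, which is commensurable with `R`. Its cohomology is
`H⁰ = K ∩ U` and `H¹ = A / (K + U)`, where `A` is the space of the adeles (repartitions) and `K` the
product of the fields `K i`, diagonally embedded. For a subcurve, given by a set `B` of
components, the restriction of the sheaf, modulo torsion, is the image of `U` in the families
over the components in `B`.
-/

set_option autoImplicit false

open Module TensorProduct

namespace Pool.Agent.KS6_81.GR

/-- The places of the field `K` over `k`: the valuation rings `V` of `K` which contain `k`, different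
from `K`. For a function field `K` of one variable over `k` they are the closed points of the smooth
projective curve with the function field `K`. -/
@[ext]
structure Place (k K : Type) [Field k] [Field K] [Algebra k K] where
  V : ValuationSubring K
  ne_top : V ≠ ⊤
  mem : ∀ c : k, algebraMap k K c ∈ V

/-- `K` is a function field of one variable over `k`. -/
def IsFunctionField (k K : Type) [Field k] [Field K] [Algebra k K] : Prop :=
  ∃ t : K, Transcendental k t ∧ FiniteDimensional (IntermediateField.adjoin k {t}) K

/-- The degree of `K` over `k(t)` (0 if it is infinite). -/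
noncomputable def degOver (k : Type) {K : Type} [Field k] [Field K] [Algebra k K] (t : K) : ℕ :=
  finrank (IntermediateField.adjoin k {t}) K

/-- The multiplication `H × H → A` of the elements of a subspace `H` of an algebra `A`. -/
def mulOn {k A : Type} [Field k] [CommRing A] [Algebra k A] (H : Submodule k A) :
    H →ₗ[k] H →ₗ[k] A := (LinearMap.mul k A).domRestrict₁₂ H H

/-- A finite disjoint union of smooth projective curves over `k`, given by their function fields. -/
structure Smooth (k : Type) [Field k] where
  /-- the set of the irreducible components -/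
  ι : Type
  [finι : Fintype ι]
  [decι : DecidableEq ι]
  [neι : Nonempty ι]
  /-- the function field of the component `i` -/
  K : ι → Type
  [fieldK : ∀ i, Field (K i)]
  [algK : ∀ i, Algebra k (K i)]
  /-- `K i` is a function field of one variable over `k` -/
  functionField : ∀ i, IsFunctionField k (K i)

attribute [instance] Smooth.finι Smooth.decι Smooth.neι Smooth.fieldK Smooth.algK

namespace Smooth

variable {k : Type} [Field k] (C : Smooth k)

/-- A closed point: a place of one of the function fields. -/
structure Pt where
  /-- the component -/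
  comp : C.ι
  /-- the place of the function field of the component -/
  place : Place k (C.K comp)

/-- The algebra of all families of elements of the fields `K i`, one for every closed point. -/
abbrev Fam : Type := ∀ q : C.Pt, C.K q.1

instance famRing : CommRing C.Fam := Pi.commRing

instance famSemiring : Semiring C.Fam := Pi.semiring

instance famAlg : Algebra k C.Fam := Pi.algebra _ _

instance famMonoid : AddCommMonoid C.Fam := Pi.addCommMonoid

instance famMod : Module k C.Fam := Pi.module _ _ _

variable {C}

/-- The family `a` is integral at the point `q`. -/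
def IntAt (a : C.Fam) (q : C.Pt) : Prop := a q ∈ q.place.V

/-- The inverse of the family `a` is integral at the point `q`. -/
def InvIntAt (a : C.Fam) (q : C.Pt) : Prop := a q ≠ 0 ∧ (a q)⁻¹ ∈ q.place.V

/-- The ideles (with values 1 at almost all places). -/
def IsIdele (u : C.Fam) : Prop := (∀ q, u q ≠ 0) ∧ {q | u q ≠ 1}.Finite

/-- The families which are integral at all places. -/
def IsIntegral (a : C.Fam) : Prop := ∀ q : C.Pt, IntAt a q

end Smooth

open Smooth

/-- A reduced projective curve over the (algebraically closed) field `k`, described by its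
normalization and its local rings. -/
structure Curve (k : Type) [Field k] extends Smooth k where
  /-- the algebra of the integral families, which describes the local rings -/
  R : Subalgebra k toSmooth.Fam
  /-- the elements of `R` are integral over the normalization, that is, at all places -/
  integral : ∀ a ∈ R, IsIntegral a
  /-- `R` is open: for some idele `u` it contains `u a` for all families `a` which are integral at
  all places (so `R` is integrally closed at almost all places, and it contains all families which
  vanish to a certain order at the other places) -/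
  isOpen : ∃ u : toSmooth.Fam, IsIdele u ∧ ∀ a : toSmooth.Fam, IsIntegral a → u * a ∈ R

namespace Curve

variable {k : Type} [Field k] (C : Curve k)

/-- The diagonal embedding of the ring of rational functions, the product of the fields `K i`. -/
def diag : (∀ i, C.K i) →ₗ[k] C.Fam where
  toFun f := fun q => f q.1
  map_add' _ _ := rfl
  map_smul' _ _ := rfl

/-- The projection of the families to the components in `B`. -/
def cut (B : Finset C.ι) : C.Fam →ₗ[k] C.Fam where
  toFun a := fun q => if q.1 ∈ B then a q else 0
  map_add' a b := by
    funext q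
    by_cases h : q.1 ∈ B <;> simp [h]
  map_smul' c a := by
    funext q
    by_cases h : q.1 ∈ B <;> simp [h]

/-- The families given by the rational functions on the subcurve `B`. -/
def principal (B : Finset C.ι) : Submodule k C.Fam := LinearMap.range (C.cut B ∘ₗ C.diag)

/-- The adeles (repartitions) of the subcurve `B`: families which are integral at almost all
places. -/
def adele (B : Finset C.ι) : Submodule k C.Fam where
  carrier := {a | (∀ q, q.1 ∉ B → a q = 0) ∧ {q : C.Pt | ¬ IntAt a q}.Finite}
  zero_mem' := by
    refine ⟨fun _ _ => rfl, ?_⟩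
    have : {q : C.Pt | ¬ IntAt (0 : C.Fam) q} = ∅ := by
      ext q
      simp [IntAt]
    rw [this]
    exact Set.finite_empty
  add_mem' := by
    rintro a b ⟨ha, ha'⟩ ⟨hb, hb'⟩
    refine ⟨fun q hq => by simp [ha q hq, hb q hq], (ha'.union hb').subset ?_⟩
    intro q hq
    by_contra h
    simp only [Set.mem_union, Set.mem_ofPred_eq, not_or, not_not] at h
    exact hq (q.2.1.add_mem _ _ h.1 h.2)
  smul_mem' := by
    rintro c a ⟨ha, ha'⟩
    refine ⟨fun q hq => by simp [ha q hq], ha'.subset ?_⟩
    intro q hq h
    apply hq
    show c • a q ∈ q.2.1
    rw [Algebra.smul_def]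
    exact q.2.1.mul_mem _ _ (q.2.mem c) h

/-- A torsion free sheaf of rank 1 on `C`: an `R`-submodule of the families which is commensurable
with `R`, or, what is the same, with the algebra of all the integral families. -/
def IsSheaf (U : Submodule k C.Fam) : Prop :=
  (∀ r ∈ C.R, ∀ a ∈ U, r * a ∈ U) ∧
    ∃ u : C.Fam, IsIdele u ∧ (∀ a, IsIntegral a → u * a ∈ U) ∧ ∀ a ∈ U, IsIntegral (u * a)

/-- The structure sheaf. -/
abbrev structureSheaf : Submodule k C.Fam := Subalgebra.toSubmodule C.R

/-- `H⁰(B, F|_B)`, where `F|_B` is the restriction modulo torsion of the sheaf `F` given by `U` to the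
subcurve `B`. -/
def H0 (B : Finset C.ι) (U : Submodule k C.Fam) : Submodule k C.Fam :=
  C.principal B ⊓ U.map (C.cut B)

/-- `H¹(B, F|_B)`: the adeles modulo the principal adeles and the integral ones. -/
abbrev H1 (B : Finset C.ι) (U : Submodule k C.Fam) : Type :=
  (C.adele B) ⧸ ((C.principal B ⊔ U.map (C.cut B)).comap (C.adele B).subtype)

/-- `h⁰(B, F|_B)` -/
noncomputable def h0 (B : Finset C.ι) (U : Submodule k C.Fam) : ℤ := finrank k (C.H0 B U)

/-- `h¹(B, F|_B)` -/
noncomputable def h1 (B : Finset C.ι) (U : Submodule k C.Fam) : ℤ := finrank k (C.H1 B U)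

/-- The Euler characteristic `χ(F|_B)`. -/
noncomputable def chi (B : Finset C.ι) (U : Submodule k C.Fam) : ℤ := C.h0 B U - C.h1 B U

/-- The degree `deg F|_B = χ(F|_B) - χ(O_B)`. -/
noncomputable def deg (B : Finset C.ι) (U : Submodule k C.Fam) : ℤ :=
  C.chi B U - C.chi B C.structureSheaf

/-- The arithmetic genus of the subcurve `B`. -/
noncomputable def pa (B : Finset C.ι) : ℤ := 1 - C.chi B C.structureSheaf

/-- `C` is connected: the only global functions are the constants. -/
def IsConnected : Prop :=
  ∀ f : (∀ i, C.K i), C.diag f ∈ C.R → ∃ c : k, ∀ i, f i = algebraMap k (C.K i) c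

/-- `a` is an element of the maximal ideal of `R` which belongs to the point of `C` under `q`. -/
def InMax (q : C.Pt) (a : C.Fam) : Prop := a ∈ C.R ∧ ¬ InvIntAt a q

/-- The singularities of `C` are planar: for every point the maximal ideal `m` is generated by two
elements modulo `m²`. -/
def IsPlanar : Prop :=
  ∀ q : C.Pt, ∃ x y : C.Fam, C.InMax q x ∧ C.InMax q y ∧ ∀ a, C.InMax q a →
    ∃ b ∈ Submodule.span k {z | ∃ u v, C.InMax q u ∧ C.InMax q v ∧ z = u * v},
      ∃ r ∈ C.R, ∃ s ∈ C.R, a = b + r * x + s * y

/-- `W` is a dualizing (canonical) sheaf of `C`: there is a Weil differential `ℓ`, that is, a linear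
functional on the adeles which vanishes on the principal adeles and on an open subspace, which is
not zero on any component, such that `W` is the orthogonal space of `R`. (The values of `ℓ` at
families which are not adeles do not matter. `W` is the sheaf of the regular differentials of
Rosenlicht, divided by the differential `ℓ`; it is unique up to isomorphism.) -/
def IsCanonical (W : Submodule k C.Fam) : Prop :=
  ∃ ℓ : C.Fam →ₗ[k] k, (∀ a ∈ C.principal Finset.univ, ℓ a = 0) ∧
    (∃ u : C.Fam, IsIdele u ∧ ∀ a, IsIntegral a → ℓ (u * a) = 0) ∧
    (∀ i, ∃ a ∈ C.adele {i}, ℓ a ≠ 0) ∧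
    ∀ w, w ∈ W ↔ w ∈ C.adele Finset.univ ∧ ∀ r ∈ C.R, ℓ (w * r) = 0

/-- `C` is 4-connected: `A ⬝ B = deg_B(ω_C) - (2 p_a(B) - 2) ≥ 4` for all decompositions of `C` into
subcurves `A`, `B` without common components. -/
def IsFourConnected (W : Submodule k C.Fam) : Prop :=
  ∀ B : Finset C.ι, B.Nonempty → Bᶜ.Nonempty → 4 ≤ C.deg B W - (2 * C.pa B - 2)

/-- The rational function `f` is in the local ring of the point of `C` under `q`: some `r f` with `r`
in `R`, a unit at this point, is in `R`. -/
def IsRegularAt (f : ∀ i, C.K i) (q : C.Pt) : Prop :=
  ∃ r ∈ C.R, InvIntAt r q ∧ r * C.diag f ∈ C.R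

/-- The inverse of the rational function `f`. -/
def ratInv (f : ∀ i, C.K i) : ∀ i, C.K i := fun i => (f i)⁻¹

/-- `C` is hyperelliptic: there is a finite morphism of degree 2 to the projective line. It is given
by a rational function `f`, not constant on any component, such that `f` or `1 / f` is in the local ring
of every point; the degree is the sum of the degrees of `K i` over `k(f i)`. -/
def IsHyperelliptic : Prop :=
  ∃ f : (∀ i, C.K i), (∀ i, f i ∉ Set.range (algebraMap k (C.K i))) ∧
    (∀ q : C.Pt, C.IsRegularAt f q ∨ C.IsRegularAt (C.ratInv f) q) ∧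
    ∑ i, degOver k (f i) = 2

/-- The Clifford index `deg F - 2 h⁰(F) + 2` of the sheaf given by `U`. -/
noncomputable def cliffOf (U : Submodule k C.Fam) : ℤ :=
  C.deg Finset.univ U - 2 * C.h0 Finset.univ U + 2

/-- The sheaves which are admitted in the definition of the Clifford index of the curve: torsion
free of rank 1, with `0 ≤ deg F|_{C_i} ≤ deg ω_C|_{C_i}` for all components, `h⁰ ≥ 2` and `h¹ ≥ 2`. -/
def IsAdmissible (W U : Submodule k C.Fam) : Prop :=
  C.IsSheaf U ∧ (∀ i, 0 ≤ C.deg {i} U ∧ C.deg {i} U ≤ C.deg {i} W) ∧
    2 ≤ C.h0 Finset.univ U ∧ 2 ≤ C.h1 Finset.univ U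

/-- The Clifford index of the curve `C` with the canonical sheaf `W`, the minimum of the Clifford
indices of the admissible sheaves. -/
noncomputable def cliff (W : Submodule k C.Fam) : ℤ :=
  sInf {c | ∃ U, C.IsAdmissible W U ∧ c = C.cliffOf U}

end Curve

section Koszul

variable {k : Type} [Field k] {M N : Type} [AddCommGroup M] [Module k M] [AddCommMonoid N]
  [Module k N]

/-- The Koszul map `⋀^(n+1) M → ⋀^n M ⊗ M`,
`v_0 ∧ … ∧ v_n ↦ ∑ (-1)^i (v_0 ∧ … (without v_i) … ∧ v_n) ⊗ v_i`. -/
noncomputable def koszulD (n : ℕ) : ⋀[k]^(n + 1) M →ₗ[k] (⋀[k]^n M) ⊗[k] M :=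
  exteriorPower.alternatingMapLinearEquiv (R := k) (N := (⋀[k]^n M) ⊗[k] M)
    (AlternatingMap.alternatizeUncurryFin (R := k) (M := M) (N := (⋀[k]^n M) ⊗[k] M) (n := n)
      ({ toFun := fun m => ((TensorProduct.mk k (⋀[k]^n M) M).flip m).compAlternatingMap
            (exteriorPower.ιMulti k n)
         map_add' := fun _ _ => AlternatingMap.ext fun _ => TensorProduct.tmul_add _ _ _
         map_smul' := fun _ _ => AlternatingMap.ext fun _ => TensorProduct.tmul_smul _ _ _ } :
        M →ₗ[k] M [⋀^Fin n]→ₗ[k] ((⋀[k]^n M) ⊗[k] M)))

/-- The Koszul map `⋀^(n+1) M ⊗ M → ⋀^n M ⊗ N` for a bilinear map `M × M → N`. -/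
noncomputable def koszulMap (n : ℕ) (μ : M →ₗ[k] M →ₗ[k] N) :
    (⋀[k]^(n + 1) M) ⊗[k] M →ₗ[k] (⋀[k]^n M) ⊗[k] N :=
  (LinearMap.lTensor (⋀[k]^n M) (TensorProduct.lift μ)) ∘ₗ
    (TensorProduct.assoc k (⋀[k]^n M) M M).toLinearMap ∘ₗ (LinearMap.rTensor M (koszulD n))

/-- The exactness of `⋀^(n+2) M → ⋀^(n+1) M ⊗ M → ⋀^n M ⊗ N` in the middle, for a bilinear map
`M × M → N`. -/
def KoszulExact (n : ℕ) (μ : M →ₗ[k] M →ₗ[k] N) : Prop :=
  LinearMap.ker (koszulMap n μ) ≤ LinearMap.range (koszulD (k := k) (M := M) (n + 1))

end Koszul

namespace Curve

variable {k : Type} [Field k] (C : Curve k)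

/-- `K_{n+1,1}(C, ω_C) = 0`: the sequence
`⋀^(n+2) H⁰(ω) → ⋀^(n+1) H⁰(ω) ⊗ H⁰(ω) → ⋀^n H⁰(ω) ⊗ H⁰(ω²)` is exact. (`H⁰(O_C) = k` for a connected
curve, and the vector space `H⁰(ω²)` may be replaced by the bigger space of all families.) -/
def KoszulVanishes (W : Submodule k C.Fam) (n : ℕ) : Prop :=
  KoszulExact n (mulOn (C.H0 Finset.univ W))

end Curve

end Pool.Agent.KS6_81.GR
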