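import Pool.Agent.KS6_81.GR.Canon

/-!
# The sheaf `can` is canonical
-/

set_option autoImplicit false

open Module Polynomial

namespace Pool.Agent.KS6_81.GR

variable {k : Type} [Field k] [IsAlgClosed k]

namespace Conf

variable (Γ : Conf k)

/-- The restriction to the component `i`. -/
def restr (i : Γ.ι) : Γ.Fam →ₗ[k] LFam k where
  toFun a := fun q => a ⟨i, q⟩
  map_add' _ _ := rfl
  map_smul' _ _ := rfl

/-- The Weil differential of the curve. -/
noncomputable def ell : Γ.Fam →ₗ[k] k := ∑ i, (residue k) ∘ₗ (Γ.restr i)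

theorem ell_apply (a : Γ.Fam) : Γ.ell a = ∑ i, residue k (Γ.restr i a) := by
  rw [ell, LinearMap.sum_apply]
  rfl

theorem ell_null (a : Γ.Fam) (h : ∀ i, Γ.restr i a ∈ nullFam k) : Γ.ell a = 0 := by
  rw [ell_apply]
  exact Finset.sum_eq_zero fun i _ => residue_null _ (h i)

/-- The family with the element `g` at the point `q` and `0` elsewhere. -/
noncomputable def fsingle (q : Γ.Pt) (g : RatFunc k) : Γ.Fam :=
  open Classical in fun q' => if q' = q then g else 0

theorem fsingle_same (q : Γ.Pt) (g : RatFunc k) : Γ.fsingle q g q = g := by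
  rw [fsingle, if_pos rfl]

theorem fsingle_ne {q q' : Γ.Pt} (g : RatFunc k) (h : q' ≠ q) : Γ.fsingle q g q' = 0 := by
  rw [fsingle, if_neg h]

theorem ell_fsingle (q : Γ.Pt) (g : RatFunc k) :
    Γ.ell (Γ.fsingle q g) = residue k (single q.2 g) := by
  rw [ell_apply, Finset.sum_eq_single q.1]
  · congr 1
    funext q'
    obtain ⟨i, q0⟩ := q
    show Γ.fsingle ⟨i, q0⟩ g ⟨i, q'⟩ = single q0 g q'
    by_cases h : q' = q0
    · subst h
      rw [fsingle_same, single_same]
    · rw [fsingle_ne, single_ne _ h]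
      intro h'
      rw [Smooth.Pt.mk.injEq] at h'
      exact h (eq_of_heq h'.2)
  · intro i _ hi
    have : Γ.restr i (Γ.fsingle q g) = 0 := by
      funext q'
      show Γ.fsingle q g ⟨i, q'⟩ = 0
      rw [fsingle_ne]
      intro h
      exact hi (congrArg Smooth.Pt.comp h)
    rw [this, map_zero]
  · intro h
    exact absurd (Finset.mem_univ _) h

/-- The sign of a branch. -/
def sgn (e : Γ.E × Bool) : k := if e.2 then 1 else -1

theorem ell_bp (e : Γ.E × Bool) {b : RatFunc k} (hb : b ∈ (Γ.bp e).2.1) :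
    Γ.ell (Γ.fsingle (Γ.bp e) ((Γ.tau e)⁻¹ * b)) = Γ.sgn e * ev (Γ.bp e).2 b := by
  rw [ell_fsingle, tau, sgn]
  split_ifs
  · have h1 : (-(RatFunc.X - RatFunc.C (Γ.p e)) : RatFunc k)⁻¹ * b =
        (-b) * (RatFunc.X - RatFunc.C (Γ.p e))⁻¹ := by
      rw [inv_neg]; ring
    rw [h1]
    have h2 := residue_simple (Γ.p e) (h := -b) ((Γ.bp e).2.1.neg_mem _ hb)
    have h3 : ev (Γ.bp e).2 (-b) = - ev (Γ.bp e).2 b := ev_neg _ hb
    refine h2.trans ?_
    show - ev (Γ.bp e).2 (-b) = _
    rw [h3, neg_neg, one_mul]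
  · have h1 : (RatFunc.X - RatFunc.C (Γ.p e) : RatFunc k)⁻¹ * b =
        b * (RatFunc.X - RatFunc.C (Γ.p e))⁻¹ := by
      ring
    rw [h1]
    refine (residue_simple (Γ.p e) hb).trans ?_
    rw [neg_one_mul]
    rfl

theorem ell_can {a : Γ.Fam} (ha : a ∈ Γ.can) : Γ.ell a = 0 := by
  classical
  -- subtract the branches
  have h1 : Γ.ell a = ∑ e : Γ.E × Bool, Γ.ell (Γ.fsingle (Γ.bp e) (a (Γ.bp e))) := by
    rw [← map_sum, ← sub_eq_zero, ← map_sub]
    apply ell_null
    intro i
    have key : ∀ q : Γ.Pt, (∑ e : Γ.E × Bool, Γ.fsingle (Γ.bp e) (a (Γ.bp e))) q =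
        if ∃ e, Γ.bp e = q then a q else 0 := by
      intro q
      rw [Finset.sum_apply]
      by_cases h : ∃ e, Γ.bp e = q
      · obtain ⟨e, rfl⟩ := h
        rw [if_pos ⟨e, rfl⟩, Finset.sum_eq_single e, fsingle_same]
        · intro e' _ he'
          rw [fsingle_ne]
          intro h'
          exact he' (Γ.bp_injective h').symm
        · intro h'
          exact absurd (Finset.mem_univ _) h'
      · rw [if_neg h]
        refine Finset.sum_eq_zero fun e _ => ?_
        rw [fsingle_ne]
        intro h'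
        exact h ⟨e, h'.symm⟩
    constructor
    · intro q hq
      show a ⟨i, q⟩ - (∑ e : Γ.E × Bool, Γ.fsingle (Γ.bp e) (a (Γ.bp e))) ⟨i, q⟩ ∈ q.1
      rw [key]
      by_cases h : ∃ e, Γ.bp e = (⟨i, q⟩ : Γ.Pt)
      · rw [if_pos h, sub_self]
        exact q.1.zero_mem
      · rw [if_neg h, sub_zero]
        have := lat_integral ha ⟨i, q⟩
        rwa [Γ.wcan_of_not h hq, inv_one, one_mul] at this
    · show RatFunc.X ^ 2 * (a ⟨i, inf k⟩ -
        (∑ e : Γ.E × Bool, Γ.fsingle (Γ.bp e) (a (Γ.bp e))) ⟨i, inf k⟩) ∈ (inf k).1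
      rw [key, if_neg (Γ.not_bp_inf i), sub_zero]
      have := lat_integral ha ⟨i, inf k⟩
      rwa [wcan_inf, inv_inv] at this
  rw [h1, Fintype.sum_prod_type]
  refine Finset.sum_eq_zero fun e _ => ?_
  have h2 : ∀ s : Bool, Γ.ell (Γ.fsingle (Γ.bp (e, s)) (a (Γ.bp (e, s)))) =
      Γ.sgn (e, s) * ev (Γ.bp (e, s)).2 ((Γ.wcan (Γ.bp (e, s)))⁻¹ * a (Γ.bp (e, s))) := by
    intro s
    rw [← Γ.ell_bp (e, s) (lat_integral ha _), wcan_bp, inv_inv,
      inv_mul_cancel_left₀ (Γ.ul_tau (e, s)).ne]
  rw [Fintype.sum_bool, h2, h2, ha.2.2 e (Finset.mem_univ _), sgn, sgn]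
  simp

theorem mul_mem_can {a r : Γ.Fam} (ha : a ∈ Γ.can) (hr : r ∈ Γ.nodeRing Finset.univ) :
    a * r ∈ Γ.can := by
  refine ⟨fun q hq => absurd (Finset.mem_univ _) hq, fun q _ => ?_, fun e he => ?_⟩
  · rw [Pi.mul_apply, ← mul_assoc]
    exact q.2.1.mul_mem _ _ (lat_integral ha q) (hr.1 q)
  · rw [Pi.mul_apply, Pi.mul_apply, ← mul_assoc, ← mul_assoc,
      ev_mul _ (lat_integral ha _) (hr.1 _), ev_mul _ (lat_integral ha _) (hr.1 _),
      ha.2.2 e he, hr.2 e he]

/-- A family at one point is in the ring, if it is integral and vanishes if the point is on a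
node. -/
theorem fsingle_mem {q : Γ.Pt} {g : RatFunc k} (hg : g ∈ q.2.1)
    (h : ∀ e, Γ.bp e = q → ev q.2 g = 0) : Γ.fsingle q g ∈ Γ.nodeRing Finset.univ := by
  have key : ∀ e, ev (Γ.bp e).2 (Γ.fsingle q g (Γ.bp e)) = 0 := by
    intro e
    by_cases h' : Γ.bp e = q
    · subst h'
      rw [fsingle_same]
      exact h e rfl
    · rw [fsingle_ne _ _ h', ev_zero]
  refine ⟨fun q' => ?_, fun e _ => ?_⟩
  · by_cases h' : q' = q
    · subst h'
      rw [fsingle_same]
      exact hg
    · rw [fsingle_ne _ _ h']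
      exact q'.2.1.zero_mem
  · rw [key, key]

theorem mul_fsingle (w : Γ.Fam) (q : Γ.Pt) (g : RatFunc k) :
    w * Γ.fsingle q g = Γ.fsingle q (w q * g) := by
  funext q'
  rw [Pi.mul_apply]
  by_cases h' : q' = q
  · subst h'
    rw [fsingle_same, fsingle_same]
  · rw [fsingle_ne _ _ h', fsingle_ne _ _ h', mul_zero]

theorem isCanonical_can : Γ.curve.IsCanonical Γ.can := by
  refine ⟨Γ.ell, ?_, ?_, ?_, ?_⟩
  · rintro a ⟨f, rfl⟩
    show Γ.ell _ = 0
    rw [ell_apply]
    refine Finset.sum_eq_zero fun i _ => residue_const _ (f i) fun q => ?_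
    show (if (⟨i, q⟩ : Γ.Pt).1 ∈ Finset.univ then f i else 0) = f i
    rw [if_pos (Finset.mem_univ _)]
  · refine ⟨Γ.winf 2, ⟨Γ.winf_ne 2, Γ.winf_finite 2⟩, fun a ha => ?_⟩
    show Γ.ell _ = 0
    apply ell_null
    intro i
    constructor
    · intro q hq
      show Γ.winf 2 ⟨i, q⟩ * a ⟨i, q⟩ ∈ q.1
      rw [winf, if_neg (show (⟨i, q⟩ : Γ.Pt).2 ≠ inf k from hq), one_mul]
      exact ha ⟨i, q⟩
    · show RatFunc.X ^ 2 * (Γ.winf 2 ⟨i, inf k⟩ * a ⟨i, inf k⟩) ∈ (inf k).1
      rw [winf, if_pos rfl, mul_inv_cancel_left₀ (pow_ne_zero _ X_ne)]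
      exact ha ⟨i, inf k⟩
  · intro i
    refine ⟨Γ.fsingle ⟨i, inf k⟩ RatFunc.X⁻¹, ⟨fun q hq => ?_, ?_⟩, ?_⟩
    · show Γ.fsingle _ _ q = 0
      rw [fsingle_ne]
      rintro rfl
      exact hq (Finset.mem_singleton_self i)
    · refine (Set.finite_singleton (⟨i, inf k⟩ : Γ.Pt)).subset ?_
      intro q hq
      by_contra h
      apply hq
      show Γ.fsingle _ _ q ∈ q.2.1
      rw [fsingle_ne _ _ h]
      exact q.2.1.zero_mem
    · show Γ.ell _ ≠ 0
      rw [ell_fsingle, residue_inf]
      exact one_ne_zero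
  · intro w
    constructor
    · intro hw
      refine ⟨Γ.lat_le_ade Finset.univ Γ.wcan_finite _ hw, fun r hr => ?_⟩
      exact Γ.ell_can (Γ.mul_mem_can hw hr)
    · rintro ⟨_, hw⟩
      have hw' : ∀ r ∈ Γ.nodeRing Finset.univ, Γ.ell (w * r) = 0 := hw
      have hint : ∀ q : Γ.Pt, (Γ.wcan q)⁻¹ * w q ∈ q.2.1 := by
        intro q
        by_contra hcon
        set b := (Γ.wcan q)⁻¹ * w q with hb
        have hb0 : b ≠ 0 := by
          intro h
          rw [h] at hcon
          exact hcon q.2.1.zero_mem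
        have hwq : w q = Γ.wcan q * b := by
          rw [hb, mul_inv_cancel_left₀ (Γ.wcan_ne q)]
        have hbinv : b⁻¹ ∈ q.2.1 := inv_mem_of_not_mem _ hcon
        by_cases h : ∃ e, Γ.bp e = q
        · obtain ⟨e, rfl⟩ := h
          have hev : ev (Γ.bp e).2 b⁻¹ = 0 := by
            rw [ev_eq_zero_iff _ hbinv]
            apply val_lt_of_inv_not_mem
            rwa [inv_inv]
          have h1 := hw' _ (Γ.fsingle_mem hbinv fun _ _ => hev)
          rw [mul_fsingle, hwq, mul_assoc, mul_inv_cancel₀ hb0, wcan_bp] at h1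
          rw [Γ.ell_bp e (b := 1) (Γ.bp e).2.1.one_mem, ev_one, mul_one, sgn] at h1
          split_ifs at h1
          · exact one_ne_zero h1
          · exact neg_ne_zero.mpr one_ne_zero h1
        · obtain ⟨i, q'⟩ := q
          by_cases h' : q' = inf k
          · subst h'
            have h2 := (isUnif_pl (k := k) none).quot_mem hcon
            have h1 := hw' _ (Γ.fsingle_mem (q := ⟨i, inf k⟩) h2
              (fun e he => absurd ⟨e, he⟩ h))
            rw [mul_fsingle, hwq, wcan_inf] at h1
            have h3 : (RatFunc.X ^ 2 : RatFunc k)⁻¹ * b * ((ptUnif none)⁻¹ * b⁻¹) =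
                RatFunc.X⁻¹ := by
              have := X_ne (k := k)
              simp only [ptUnif]
              field_simp
            rw [h3, ell_fsingle, residue_inf] at h1
            exact one_ne_zero h1
          · obtain ⟨P, rfl⟩ := pl_surjective q'
            cases P with
            | none => exact h' rfl
            | some c =>
              have h2 := (isUnif_pl (k := k) (some c)).quot_mem hcon
              have h1 := hw' _ (Γ.fsingle_mem (q := ⟨i, pl (some c)⟩) h2
                (fun e he => absurd ⟨e, he⟩ h))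
              rw [mul_fsingle, hwq, Γ.wcan_of_not h h'] at h1
              have h3 : 1 * b * ((ptUnif (some c))⁻¹ * b⁻¹) =
                  (RatFunc.X - RatFunc.C c)⁻¹ := by
                have := XC_ne c
                simp only [ptUnif]
                field_simp
              rw [h3, ell_fsingle] at h1
              have h4 := residue_fin c
              rw [show (⟨i, pl (some c)⟩ : Γ.Pt).2 = pl (some c) from rfl, h4] at h1
              exact neg_ne_zero.mpr one_ne_zero h1
      refine ⟨fun q hq => absurd (Finset.mem_univ _) hq, fun q _ => hint q, fun e _ => ?_⟩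
      have hr : Γ.fsingle (Γ.bp (e, false)) 1 + Γ.fsingle (Γ.bp (e, true)) 1 ∈
          Γ.nodeRing Finset.univ := by
        have key : ∀ (e' : Γ.E) (s : Bool), (Γ.fsingle (Γ.bp (e, false)) 1 +
            Γ.fsingle (Γ.bp (e, true)) 1) (Γ.bp (e', s)) = if e' = e then 1 else 0 := by
          intro e' s
          rw [Pi.add_apply]
          by_cases h : e' = e
          · subst h
            rw [if_pos rfl]
            cases s
            · rw [fsingle_same, fsingle_ne, add_zero]
              intro h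
              have := congrArg Prod.snd (Γ.bp_injective h)
              simp at this
            · rw [fsingle_same, fsingle_ne, zero_add]
              intro h
              have := congrArg Prod.snd (Γ.bp_injective h)
              simp at this
          · rw [if_neg h, fsingle_ne, fsingle_ne, add_zero]
            · intro h'
              exact h (congrArg Prod.fst (Γ.bp_injective h'))
            · intro h'
              exact h (congrArg Prod.fst (Γ.bp_injective h'))
        refine ⟨fun q => ?_, fun e' _ => ?_⟩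
        · by_cases h : ∃ e', Γ.bp e' = q
          · obtain ⟨⟨e', s⟩, rfl⟩ := h
            rw [key]
            split_ifs
            · exact ValuationSubring.one_mem _
            · exact ValuationSubring.zero_mem _
          · rw [Pi.add_apply, fsingle_ne, fsingle_ne, add_zero]
            · exact ValuationSubring.zero_mem _
            · intro h'
              exact h ⟨_, h'.symm⟩
            · intro h'
              exact h ⟨_, h'.symm⟩
        · rw [key, key]
          split_ifs
          · rw [ev_one, ev_one]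
          · rw [ev_zero, ev_zero]
      have h1 := hw' _ hr
      have h2 : ∀ s : Bool, Γ.ell (w * Γ.fsingle (Γ.bp (e, s)) 1) =
          Γ.sgn (e, s) * ev (Γ.bp (e, s)).2 ((Γ.wcan (Γ.bp (e, s)))⁻¹ * w (Γ.bp (e, s))) := by
        intro s
        rw [← Γ.ell_bp (e, s) (hint _), wcan_bp, inv_inv,
          inv_mul_cancel_left₀ (Γ.ul_tau (e, s)).ne, mul_fsingle, mul_one]
      rw [mul_add, map_add, h2, h2, sgn, sgn] at h1
      simp only [Bool.false_eq_true, if_false, if_true, neg_one_mul, one_mul] at h1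
      exact (neg_add_eq_zero.mp h1)

end Conf

end Pool.Agent.KS6_81.GR
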