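import Mathlib

/-!
# The linear system of the Koszul cocycles of the octahedral curve
-/

set_option autoImplicit false

namespace Pool.Agent.KS6_81.GR

/-- The linear relations for the symmetric part of a Koszul cocycle. -/
structure Good {k : Type} [Field k] (S : Fin 7 → Fin 7 → Fin 7 → Fin 7 → k) : Prop where
  zb : ∀ b c d, S b c b d = 0
  zc : ∀ b c d, S b c c d = 0
  zb' : ∀ b c d, S b c d b = 0
  zc' : ∀ b c d, S b c d c = 0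
  zd : ∀ b c a, S b c a a = 0
  sym : ∀ b c a d, S b c d a = S b c a d
  anti : ∀ b c a d, S c b a d = - S b c a d
  cyc : ∀ a b c d, S a b c d + S a c b d + S a d b c = 0
  r0 : ∀ b c, 1 * S b c 0 1 + (-1) * S b c 0 3 + (-1) * S b c 0 5 + (-1) * S b c 0 6 + (-1) * S b c 1 3 + (-1) * S b c 1 5 + (-1) * S b c 1 6 + 1 * S b c 3 5 + 1 * S b c 3 6 + 1 * S b c 5 6 = 0
  r1 : ∀ b c, 1 * S b c 3 5 + 1 * S b c 3 6 + 1 * S b c 5 6 = 0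
  r2 : ∀ b c, (-1) * S b c 0 2 + (-1) * S b c 0 3 + 1 * S b c 2 3 = 0
  r3 : ∀ b c, (-1) * S b c 2 4 + (-1) * S b c 2 5 + 1 * S b c 4 5 = 0
  r4 : ∀ b c, 1 * S b c 1 4 + (-1) * S b c 1 6 + (-1) * S b c 4 6 = 0
  r5 : ∀ b c, 2 * S b c 0 1 + 2 * S b c 0 3 + 2 * S b c 0 5 + 2 * S b c 0 6 + 1 * S b c 1 3 + 1 * S b c 1 5 + 1 * S b c 1 6 + 1 * S b c 3 5 + 1 * S b c 3 6 + 1 * S b c 5 6 = 0
  r6 : ∀ b c, (-3) * S b c 0 2 + (-2) * S b c 0 3 + 6 * S b c 2 3 = 0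
  r7 : ∀ b c, 6 * S b c 0 1 + (-2) * S b c 0 2 + (-4) * S b c 0 3 + 4 * S b c 0 4 + (-2) * S b c 0 5 + (-6) * S b c 0 6 + (-3) * S b c 1 2 + (-6) * S b c 1 3 + 6 * S b c 1 4 + (-3) * S b c 1 5 + (-9) * S b c 1 6 + 2 * S b c 2 3 + (-2) * S b c 2 4 + 1 * S b c 2 5 + 3 * S b c 2 6 + (-4) * S b c 3 4 + 2 * S b c 3 5 + 6 * S b c 3 6 + (-2) * S b c 4 5 + (-6) * S b c 4 6 + 3 * S b c 5 6 = 0
  r8 : ∀ b c, (-3) * S b c 2 4 + (-6) * S b c 2 5 + 2 * S b c 4 5 = 0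
  r9 : ∀ b c, (-2) * S b c 1 4 + (-2) * S b c 1 6 + 1 * S b c 4 6 = 0
  r10 : ∀ b c, 6 * S b c 3 5 + 2 * S b c 3 6 + 3 * S b c 5 6 = 0

variable {k : Type} [Field k] [CharZero k] {S : Fin 7 → Fin 7 → Fin 7 → Fin 7 → k}

theorem p0123 (h : Good S) : S 0 1 2 3 = 0 := by
  linear_combination 1 * h.r2 0 1 - (-1) * h.zb 0 1 2 - (-1) * h.zb 0 1 3

theorem p0124 (h : Good S) : S 0 1 2 4 = (4/3) * S 0 1 4 5 := by
  linear_combination (-2) * h.r3 0 1 + (1/3) * h.r8 0 1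

theorem p0125 (h : Good S) : S 0 1 2 5 = (-1/3) * S 0 1 4 5 := by
  linear_combination 1 * h.r3 0 1 + (-1/3) * h.r8 0 1

theorem p0126 (h : Good S) : S 0 1 2 6 = (4/3) * S 0 1 3 4 + (5/3) * S 0 1 4 5 + (2/3) * S 0 1 5 6 := by
  linear_combination (1/3) * h.r8 0 1 + (-5/3) * h.r3 0 1 + (1/3) * h.r7 0 1 + (-2/3) * h.r2 0 1 + (-8/3) * h.r5 0 1 + (1/3) * h.r10 0 1 + 2 * h.r9 0 1 - (-10/3) * h.zb 0 1 1 - (-6) * h.zb 0 1 3 - (4/3) * h.zb 0 1 4 - (-6) * h.zb 0 1 5 - (-22/3) * h.zb 0 1 6 - (-1) * h.zc 0 1 2 - (-14/3) * h.zc 0 1 3 - (-2) * h.zc 0 1 4 - (-11/3) * h.zc 0 1 5 - (-29/3) * h.zc 0 1 6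

theorem p0135 (h : Good S) : S 0 1 3 5 = (-1/4) * S 0 1 5 6 := by
  linear_combination (-1/2) * h.r5 0 1 + (1/4) * h.r10 0 1 - (-1) * h.zb 0 1 1 - (-1) * h.zb 0 1 3 - (-1) * h.zb 0 1 5 - (-1) * h.zb 0 1 6 - (-1/2) * h.zc 0 1 3 - (-1/2) * h.zc 0 1 5 - (-1/2) * h.zc 0 1 6

theorem p0136 (h : Good S) : S 0 1 3 6 = (-3/4) * S 0 1 5 6 := by
  linear_combination (-1/4) * h.r10 0 1 + (3/2) * h.r5 0 1 - 3 * h.zb 0 1 1 - 3 * h.zb 0 1 3 - 3 * h.zb 0 1 5 - 3 * h.zb 0 1 6 - (3/2) * h.zc 0 1 3 - (3/2) * h.zc 0 1 5 - (3/2) * h.zc 0 1 6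

theorem p0146 (h : Good S) : S 0 1 4 6 = 0 := by
  linear_combination 1 * h.r9 0 1 - (-2) * h.zc 0 1 4 - (-2) * h.zc 0 1 6

theorem p0213 (h : Good S) : S 0 2 1 3 = (-4/3) * S 0 2 3 4 + (-2/3) * S 0 2 5 6 := by
  linear_combination 1 * h.r0 0 2 + (-1/3) * h.r7 0 2 + 2 * h.r4 0 2 + (5/3) * h.r1 0 2 + (-1/3) * h.r10 0 2 + (-1/3) * h.r8 0 2 - (-1) * h.zb 0 2 1 - (1/3) * h.zb 0 2 3 - (-1/3) * h.zb 0 2 5 - 1 * h.zb 0 2 6 - (2/3) * h.zb 0 2 2 - (-4/3) * h.zb 0 2 4 - 1 * h.zc' 0 2 1 - (-2/3) * h.zc 0 2 3 - (5/3) * h.zc 0 2 4 - (5/3) * h.zc 0 2 5 - (-1) * h.zc 0 2 6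

theorem p0214 (h : Good S) : S 0 2 1 4 = (3/4) * S 0 2 4 6 := by
  linear_combination (1/2) * h.r4 0 2 + (-1/4) * h.r9 0 2

theorem p0215 (h : Good S) : S 0 2 1 5 = (4/3) * S 0 2 3 4 + (1/4) * S 0 2 4 6 + (2/3) * S 0 2 5 6 := by
  linear_combination (1/3) * h.r7 0 2 + (-2) * h.r0 0 2 + (-3/2) * h.r4 0 2 + (1/4) * h.r9 0 2 + (-2/3) * h.r1 0 2 + (1/3) * h.r10 0 2 + (1/3) * h.r8 0 2 - (-2/3) * h.zb 0 2 2 - (2/3) * h.zb 0 2 3 - (4/3) * h.zb 0 2 4 - (4/3) * h.zb 0 2 5 - (-1) * h.zc' 0 2 1 - (2/3) * h.zc 0 2 3 - (-5/3) * h.zc 0 2 4 - (-5/3) * h.zc 0 2 5 - 1 * h.zc 0 2 6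

theorem p0216 (h : Good S) : S 0 2 1 6 = (-1/4) * S 0 2 4 6 := by
  linear_combination (-1/4) * h.r9 0 2 + (-1/2) * h.r4 0 2

theorem p0235 (h : Good S) : S 0 2 3 5 = (-1/4) * S 0 2 5 6 := by
  linear_combination (-1/2) * h.r1 0 2 + (1/4) * h.r10 0 2

theorem p0236 (h : Good S) : S 0 2 3 6 = (-3/4) * S 0 2 5 6 := by
  linear_combination (-1/4) * h.r10 0 2 + (3/2) * h.r1 0 2

theorem p0245 (h : Good S) : S 0 2 4 5 = 0 := by
  linear_combination (1/2) * h.r8 0 2 - (-3/2) * h.zc 0 2 4 - (-3) * h.zc 0 2 5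

theorem p0312 (h : Good S) : S 0 3 1 2 = 1 * S 0 3 2 6 + (-5/3) * S 0 3 4 5 := by
  linear_combination (-1/3) * h.r7 0 3 + 2 * h.r4 0 3 + (-1/3) * h.r8 0 3 + (5/3) * h.r3 0 3 + 1 * h.r0 0 3 - (-1) * h.zb 0 3 1 - (2/3) * h.zb 0 3 2 - (1/3) * h.zb 0 3 3 - (-4/3) * h.zb 0 3 4 - (-1/3) * h.zb 0 3 5 - 1 * h.zb 0 3 6 - 1 * h.zc' 0 3 1 - (-2/3) * h.zc' 0 3 2 - (4/3) * h.zc 0 3 4 - (1/3) * h.zc 0 3 5 - (-1) * h.zc 0 3 6

theorem p0314 (h : Good S) : S 0 3 1 4 = (3/4) * S 0 3 4 6 := by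
  linear_combination (1/2) * h.r4 0 3 + (-1/4) * h.r9 0 3

theorem p0315 (h : Good S) : S 0 3 1 5 = (1/4) * S 0 3 4 6 := by
  linear_combination (1/2) * h.r5 0 3 + (1/4) * h.r9 0 3 + (1/2) * h.r4 0 3 + (-1/2) * h.r0 0 3 - (1/2) * h.zb 0 3 1 - (3/2) * h.zb 0 3 3 - (3/2) * h.zb 0 3 5 - (3/2) * h.zb 0 3 6 - 1 * h.zc' 0 3 1

theorem p0316 (h : Good S) : S 0 3 1 6 = (-1/4) * S 0 3 4 6 := by
  linear_combination (-1/4) * h.r9 0 3 + (-1/2) * h.r4 0 3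

theorem p0324 (h : Good S) : S 0 3 2 4 = (4/3) * S 0 3 4 5 := by
  linear_combination (1/3) * h.r8 0 3 + (-2) * h.r3 0 3

theorem p0325 (h : Good S) : S 0 3 2 5 = (-1/3) * S 0 3 4 5 := by
  linear_combination 1 * h.r3 0 3 + (-1/3) * h.r8 0 3

theorem p0356 (h : Good S) : S 0 3 5 6 = 0 := by
  linear_combination (1/2) * h.r0 0 3 + (1/2) * h.r5 0 3 - (3/2) * h.zb 0 3 1 - (1/2) * h.zb 0 3 3 - (1/2) * h.zb 0 3 5 - (1/2) * h.zb 0 3 6 - 1 * h.zc 0 3 5 - 1 * h.zc 0 3 6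

theorem p0412 (h : Good S) : S 0 4 1 2 = 1 * S 0 4 1 5 + 1 * S 0 4 2 6 + (-2/3) * S 0 4 5 6 := by
  linear_combination (-1/3) * h.r7 0 4 + (-2) * h.r5 0 4 + 1 * h.r4 0 4 + (2/3) * h.r2 0 4 + (-1/3) * h.r3 0 4 + (14/3) * h.r1 0 4 + (-1/3) * h.r10 0 4 - (-6) * h.zb 0 4 1 - (-10/3) * h.zb 0 4 3 - (-4/3) * h.zb 0 4 4 - (-10/3) * h.zb 0 4 5 - (-2) * h.zb 0 4 6 - (-1) * h.zc' 0 4 1 - 1 * h.zc' 0 4 2 - (4/3) * h.zc' 0 4 3 - (1/3) * h.zc 0 4 5 - 1 * h.zc 0 4 6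

theorem p0413 (h : Good S) : S 0 4 1 3 = (-1) * S 0 4 1 5 := by
  linear_combination 1 * h.r5 0 4 + 1 * h.r4 0 4 + (-1) * h.r1 0 4 - 2 * h.zb 0 4 1 - 2 * h.zb 0 4 3 - 2 * h.zb 0 4 5 - 2 * h.zb 0 4 6 - 1 * h.zc' 0 4 1 - (-1) * h.zc 0 4 6

theorem p0416 (h : Good S) : S 0 4 1 6 = 0 := by
  linear_combination (-1) * h.r4 0 4 - (-1) * h.zc' 0 4 1 - 1 * h.zc 0 4 6

theorem p0423 (h : Good S) : S 0 4 2 3 = 0 := by
  linear_combination 1 * h.r2 0 4 - (-1) * h.zb 0 4 2 - (-1) * h.zb 0 4 3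

theorem p0425 (h : Good S) : S 0 4 2 5 = 0 := by
  linear_combination (-1) * h.r3 0 4 - 1 * h.zc' 0 4 2 - (-1) * h.zc 0 4 5

theorem p0435 (h : Good S) : S 0 4 3 5 = (-1/4) * S 0 4 5 6 := by
  linear_combination (-1/2) * h.r1 0 4 + (1/4) * h.r10 0 4

theorem p0436 (h : Good S) : S 0 4 3 6 = (-3/4) * S 0 4 5 6 := by
  linear_combination (-1/4) * h.r10 0 4 + (3/2) * h.r1 0 4

theorem p0512 (h : Good S) : S 0 5 1 2 = 1 * S 0 5 2 6 + (-4/3) * S 0 5 3 4 + (-1/4) * S 0 5 4 6 := by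
  linear_combination (-1/3) * h.r7 0 5 + (3/2) * h.r4 0 5 + (-1/4) * h.r9 0 5 + (2/3) * h.r2 0 5 + (2/9) * h.r8 0 5 + 2 * h.r0 0 5 - (-4/3) * h.zb 0 5 3 - (-4/3) * h.zb 0 5 4 - (-4/3) * h.zb 0 5 5 - (-1) * h.zc' 0 5 1 - (-5/3) * h.zc' 0 5 2 - (4/3) * h.zc' 0 5 3 - (10/9) * h.zc' 0 5 4 - 1 * h.zc 0 5 6

theorem p0513 (h : Good S) : S 0 5 1 3 = (1/4) * S 0 5 4 6 := by
  linear_combination (1/2) * h.r5 0 5 + (1/4) * h.r9 0 5 + (1/2) * h.r4 0 5 + (-1/2) * h.r0 0 5 - (1/2) * h.zb 0 5 1 - (3/2) * h.zb 0 5 3 - (3/2) * h.zb 0 5 5 - (3/2) * h.zb 0 5 6 - 1 * h.zc' 0 5 1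

theorem p0514 (h : Good S) : S 0 5 1 4 = (3/4) * S 0 5 4 6 := by
  linear_combination (1/2) * h.r4 0 5 + (-1/4) * h.r9 0 5

theorem p0516 (h : Good S) : S 0 5 1 6 = (-1/4) * S 0 5 4 6 := by
  linear_combination (-1/4) * h.r9 0 5 + (-1/2) * h.r4 0 5

theorem p0523 (h : Good S) : S 0 5 2 3 = 0 := by
  linear_combination 1 * h.r2 0 5 - (-1) * h.zb 0 5 2 - (-1) * h.zb 0 5 3

theorem p0524 (h : Good S) : S 0 5 2 4 = 0 := by
  linear_combination (-1/3) * h.r8 0 5 - 2 * h.zc' 0 5 2 - (-2/3) * h.zc' 0 5 4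

theorem p0536 (h : Good S) : S 0 5 3 6 = 0 := by
  linear_combination (1/2) * h.r0 0 5 + (1/2) * h.r5 0 5 - (3/2) * h.zb 0 5 1 - (1/2) * h.zb 0 5 3 - (1/2) * h.zb 0 5 5 - (1/2) * h.zb 0 5 6 - 1 * h.zc' 0 5 3 - 1 * h.zc 0 5 6

theorem p0612 (h : Good S) : S 0 6 1 2 = 1 * S 0 6 1 5 + (-4/3) * S 0 6 3 4 + (-5/3) * S 0 6 4 5 := by
  linear_combination (-1/3) * h.r7 0 6 + (-2/3) * h.r5 0 6 + 2 * h.r4 0 6 + (2/3) * h.r2 0 6 + (5/3) * h.r3 0 6 + (-1/3) * h.r8 0 6 + (4/3) * h.r0 0 6 - (-2) * h.zb 0 6 1 - (-2) * h.zb 0 6 3 - (-4/3) * h.zb 0 6 4 - (-2) * h.zb 0 6 5 - (-2/3) * h.zb 0 6 6 - (-1) * h.zc' 0 6 1 - (-1) * h.zc' 0 6 2 - (-4/3) * h.zc' 0 6 3 - (-1/3) * h.zc' 0 6 5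

theorem p0613 (h : Good S) : S 0 6 1 3 = (-1) * S 0 6 1 5 := by
  linear_combination (1/2) * h.r5 0 6 + (-1/2) * h.r0 0 6 - (1/2) * h.zb 0 6 1 - (3/2) * h.zb 0 6 3 - (3/2) * h.zb 0 6 5 - (3/2) * h.zb 0 6 6 - 1 * h.zc' 0 6 1

theorem p0614 (h : Good S) : S 0 6 1 4 = 0 := by
  linear_combination 1 * h.r4 0 6 - (-1) * h.zc' 0 6 1 - (-1) * h.zc' 0 6 4

theorem p0623 (h : Good S) : S 0 6 2 3 = 0 := by
  linear_combination 1 * h.r2 0 6 - (-1) * h.zb 0 6 2 - (-1) * h.zb 0 6 3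

theorem p0624 (h : Good S) : S 0 6 2 4 = (4/3) * S 0 6 4 5 := by
  linear_combination (-2) * h.r3 0 6 + (1/3) * h.r8 0 6

theorem p0625 (h : Good S) : S 0 6 2 5 = (-1/3) * S 0 6 4 5 := by
  linear_combination (-1/3) * h.r8 0 6 + 1 * h.r3 0 6

theorem p0635 (h : Good S) : S 0 6 3 5 = 0 := by
  linear_combination (1/2) * h.r0 0 6 + (1/2) * h.r5 0 6 - (3/2) * h.zb 0 6 1 - (1/2) * h.zb 0 6 3 - (1/2) * h.zb 0 6 5 - (1/2) * h.zb 0 6 6 - 1 * h.zc' 0 6 3 - 1 * h.zc' 0 6 5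

theorem p1203 (h : Good S) : S 1 2 0 3 = 0 := by
  linear_combination (-1) * h.r2 1 2 - 1 * h.zc' 1 2 0 - (-1) * h.zc 1 2 3

theorem p1204 (h : Good S) : S 1 2 0 4 = 1 * S 1 2 0 6 + 1 * S 1 2 3 4 + (1/2) * S 1 2 5 6 := by
  linear_combination (1/4) * h.r7 1 2 + (-3/2) * h.r0 1 2 + (-1/2) * h.r2 1 2 + (1/4) * h.r10 1 2 + (-1/2) * h.r5 1 2 + (1/2) * h.r3 1 2 + (3/2) * h.r9 1 2 - (-1) * h.zb' 1 2 0 - (-3/4) * h.zb 1 2 2 - (-1/2) * h.zb 1 2 3 - (-3/2) * h.zb 1 2 4 - (1/4) * h.zb 1 2 5 - (-17/4) * h.zb 1 2 6 - (-1) * h.zc 1 2 4 - (-1/4) * h.zc 1 2 5 - (3/4) * h.zc 1 2 6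

theorem p1205 (h : Good S) : S 1 2 0 5 = (-1) * S 1 2 0 6 := by
  linear_combination 1 * h.r2 1 2 + (-1/3) * h.r0 1 2 + (1/3) * h.r5 1 2 - (-1) * h.zc' 1 2 0 - 1 * h.zc 1 2 3 - (1/3) * h.zb' 1 2 0 - (2/3) * h.zb 1 2 3 - (2/3) * h.zb 1 2 5 - (2/3) * h.zb 1 2 6

theorem p1235 (h : Good S) : S 1 2 3 5 = (-1/4) * S 1 2 5 6 := by
  linear_combination (-1/6) * h.r5 1 2 + (-1/3) * h.r0 1 2 + (1/4) * h.r10 1 2 - (-2/3) * h.zb' 1 2 0 - (1/6) * h.zb 1 2 3 - (1/6) * h.zb 1 2 5 - (1/6) * h.zb 1 2 6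

theorem p1236 (h : Good S) : S 1 2 3 6 = (-3/4) * S 1 2 5 6 := by
  linear_combination (-1/4) * h.r10 1 2 + (1/2) * h.r5 1 2 + 1 * h.r0 1 2 - 2 * h.zb' 1 2 0 - (-1/2) * h.zb 1 2 3 - (-1/2) * h.zb 1 2 5 - (-1/2) * h.zb 1 2 6

theorem p1245 (h : Good S) : S 1 2 4 5 = 0 := by
  linear_combination 1 * h.r3 1 2 - (-1) * h.zc 1 2 4 - (-1) * h.zc 1 2 5

theorem p1246 (h : Good S) : S 1 2 4 6 = 0 := by
  linear_combination 1 * h.r9 1 2 - (-2) * h.zb 1 2 4 - (-2) * h.zb 1 2 6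

theorem p1302 (h : Good S) : S 1 3 0 2 = 0 := by
  linear_combination (-1) * h.r2 1 3 - 1 * h.zc' 1 3 0 - (-1) * h.zc' 1 3 2

theorem p1304 (h : Good S) : S 1 3 0 4 = 1 * S 1 3 0 6 + (-3/4) * S 1 3 2 6 + (5/4) * S 1 3 4 5 := by
  linear_combination (1/4) * h.r7 1 3 + (-1/2) * h.r2 1 3 + (-1/2) * h.r0 1 3 + (-5/4) * h.r3 1 3 + (1/4) * h.r8 1 3 + (-3/2) * h.r4 1 3 + (-1/4) * h.r1 1 3 - 1 * h.zb' 1 3 0 - (-3/4) * h.zb 1 3 2 - (-1) * h.zb 1 3 3 - (-1/4) * h.zb 1 3 5 - (-1/4) * h.zb 1 3 6 - (-1) * h.zc 1 3 4 - (-1/4) * h.zc 1 3 5 - (3/4) * h.zc 1 3 6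

theorem p1305 (h : Good S) : S 1 3 0 5 = (-1) * S 1 3 0 6 := by
  linear_combination (-1) * h.r0 1 3 + 1 * h.r1 1 3 - (-1) * h.zb' 1 3 0 - 1 * h.zc' 1 3 0 - 1 * h.zb 1 3 3 - 1 * h.zb 1 3 5 - 1 * h.zb 1 3 6

theorem p1324 (h : Good S) : S 1 3 2 4 = (4/3) * S 1 3 4 5 := by
  linear_combination (-2) * h.r3 1 3 + (1/3) * h.r8 1 3

theorem p1325 (h : Good S) : S 1 3 2 5 = (-1/3) * S 1 3 4 5 := by
  linear_combination (-1/3) * h.r8 1 3 + 1 * h.r3 1 3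

theorem p1346 (h : Good S) : S 1 3 4 6 = 0 := by
  linear_combination (-1) * h.r4 1 3 - (-1) * h.zb 1 3 4 - 1 * h.zb 1 3 6

theorem p1356 (h : Good S) : S 1 3 5 6 = 0 := by
  linear_combination 1 * h.r1 1 3 - 1 * h.zc 1 3 5 - 1 * h.zc 1 3 6

theorem p1402 (h : Good S) : S 1 4 0 2 = 4 * S 1 4 2 3 := by
  linear_combination 2 * h.r2 1 4 + (-1) * h.r6 1 4

theorem p1403 (h : Good S) : S 1 4 0 3 = (-3) * S 1 4 2 3 := by
  linear_combination 1 * h.r6 1 4 + (-3) * h.r2 1 4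

theorem p1405 (h : Good S) : S 1 4 0 5 = 3 * S 1 4 2 3 + (-3/4) * S 1 4 2 6 + (1/2) * S 1 4 5 6 := by
  linear_combination (-1) * h.r6 1 4 + (5/2) * h.r2 1 4 + (-11/6) * h.r0 1 4 + (1/4) * h.r7 1 4 + (1/4) * h.r3 1 4 + (-1/6) * h.r5 1 4 + (1/4) * h.r10 1 4 - (-2/3) * h.zb' 1 4 0 - (1/6) * h.zb 1 4 3 - (11/12) * h.zb 1 4 5 - (-7/12) * h.zb 1 4 6 - 1 * h.zc' 1 4 0 - (-3/4) * h.zb 1 4 2 - (3/2) * h.zb 1 4 4 - (-3/4) * h.zc' 1 4 2 - (-1) * h.zc' 1 4 3 - (-1/4) * h.zc 1 4 5 - (-3/2) * h.zc 1 4 6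

theorem p1406 (h : Good S) : S 1 4 0 6 = (3/4) * S 1 4 2 6 + (-1/2) * S 1 4 5 6 := by
  linear_combination (-1/4) * h.r7 1 4 + (1/2) * h.r2 1 4 + (3/2) * h.r0 1 4 + (-1/4) * h.r3 1 4 + (-1/4) * h.r10 1 4 + (1/2) * h.r5 1 4 - 1 * h.zb' 1 4 0 - (-1) * h.zc' 1 4 0 - (3/4) * h.zb 1 4 2 - (1/2) * h.zb 1 4 3 - (-3/2) * h.zb 1 4 4 - (-1/4) * h.zb 1 4 5 - (5/4) * h.zb 1 4 6 - (3/4) * h.zc' 1 4 2 - 1 * h.zc' 1 4 3 - (1/4) * h.zc 1 4 5 - (3/2) * h.zc 1 4 6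

theorem p1425 (h : Good S) : S 1 4 2 5 = 0 := by
  linear_combination (-1) * h.r3 1 4 - 1 * h.zc' 1 4 2 - (-1) * h.zc 1 4 5

theorem p1435 (h : Good S) : S 1 4 3 5 = (-1/4) * S 1 4 5 6 := by
  linear_combination (-1/6) * h.r5 1 4 + (-1/3) * h.r0 1 4 + (1/4) * h.r10 1 4 - (-2/3) * h.zb' 1 4 0 - (1/6) * h.zb 1 4 3 - (1/6) * h.zb 1 4 5 - (1/6) * h.zb 1 4 6

theorem p1436 (h : Good S) : S 1 4 3 6 = (-3/4) * S 1 4 5 6 := by
  linear_combination (-1/4) * h.r10 1 4 + (1/2) * h.r5 1 4 + 1 * h.r0 1 4 - 2 * h.zb' 1 4 0 - (-1/2) * h.zb 1 4 3 - (-1/2) * h.zb 1 4 5 - (-1/2) * h.zb 1 4 6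

theorem p1502 (h : Good S) : S 1 5 0 2 = 4 * S 1 5 2 3 := by
  linear_combination 2 * h.r2 1 5 + (-1) * h.r6 1 5

theorem p1503 (h : Good S) : S 1 5 0 3 = (-3) * S 1 5 2 3 := by
  linear_combination 1 * h.r6 1 5 + (-3) * h.r2 1 5

theorem p1504 (h : Good S) : S 1 5 0 4 = 3 * S 1 5 2 3 + (-3/4) * S 1 5 2 6 + 1 * S 1 5 3 4 := by
  linear_combination (1/4) * h.r7 1 5 + (5/2) * h.r2 1 5 + (-3/2) * h.r0 1 5 + (-1) * h.r6 1 5 + (-1/2) * h.r3 1 5 + (-3/2) * h.r4 1 5 - 1 * h.zc' 1 5 0 - (-3/4) * h.zb 1 5 2 - (3/4) * h.zb 1 5 5 - (3/4) * h.zb 1 5 6 - (3/4) * h.zc' 1 5 2 - (-1) * h.zc' 1 5 3 - (-1) * h.zc' 1 5 4 - (-3/4) * h.zc 1 5 6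

theorem p1506 (h : Good S) : S 1 5 0 6 = 3 * S 1 5 2 3 := by
  linear_combination (-1) * h.r6 1 5 + 3 * h.r2 1 5 + (-1/3) * h.r0 1 5 + (1/3) * h.r5 1 5 - (1/3) * h.zb' 1 5 0 - 1 * h.zc' 1 5 0 - (2/3) * h.zb 1 5 3 - (2/3) * h.zb 1 5 5 - (2/3) * h.zb 1 5 6

theorem p1524 (h : Good S) : S 1 5 2 4 = 0 := by
  linear_combination (-1) * h.r3 1 5 - 1 * h.zc' 1 5 2 - (-1) * h.zc' 1 5 4

theorem p1536 (h : Good S) : S 1 5 3 6 = 0 := by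
  linear_combination (1/3) * h.r5 1 5 + (2/3) * h.r0 1 5 - (4/3) * h.zb' 1 5 0 - (-1/3) * h.zb 1 5 3 - (-1/3) * h.zb 1 5 5 - (-1/3) * h.zb 1 5 6 - 1 * h.zc' 1 5 3 - 1 * h.zc 1 5 6

theorem p1546 (h : Good S) : S 1 5 4 6 = 0 := by
  linear_combination (-1) * h.r4 1 5 - (-1) * h.zb 1 5 4 - 1 * h.zb 1 5 6

theorem p1602 (h : Good S) : S 1 6 0 2 = 4 * S 1 6 2 3 := by
  linear_combination 2 * h.r2 1 6 + (-1) * h.r6 1 6

theorem p1603 (h : Good S) : S 1 6 0 3 = (-3) * S 1 6 2 3 := by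
  linear_combination 1 * h.r6 1 6 + (-3) * h.r2 1 6

theorem p1604 (h : Good S) : S 1 6 0 4 = 1 * S 1 6 3 4 + (5/4) * S 1 6 4 5 := by
  linear_combination (1/4) * h.r7 1 6 + (-1/2) * h.r2 1 6 + (-1/2) * h.r0 1 6 + (-5/4) * h.r3 1 6 + (1/4) * h.r8 1 6 - 1 * h.zb' 1 6 0 - (-1) * h.zc' 1 6 0 - (-3/4) * h.zb 1 6 2 - (-1) * h.zb 1 6 3 - (3/2) * h.zb 1 6 4 - (-1/4) * h.zb 1 6 5 - (-7/4) * h.zb 1 6 6 - (3/4) * h.zc' 1 6 2 - 1 * h.zc' 1 6 3 - (-3/2) * h.zc' 1 6 4 - (1/4) * h.zc' 1 6 5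

theorem p1605 (h : Good S) : S 1 6 0 5 = 3 * S 1 6 2 3 := by
  linear_combination (-1) * h.r6 1 6 + 3 * h.r2 1 6 + (-1) * h.r0 1 6 + 1 * h.r1 1 6 - (-1) * h.zb' 1 6 0 - 1 * h.zc' 1 6 0 - 1 * h.zb 1 6 3 - 1 * h.zb 1 6 5 - 1 * h.zb 1 6 6

theorem p1624 (h : Good S) : S 1 6 2 4 = (4/3) * S 1 6 4 5 := by
  linear_combination (-2) * h.r3 1 6 + (1/3) * h.r8 1 6

theorem p1625 (h : Good S) : S 1 6 2 5 = (-1/3) * S 1 6 4 5 := by
  linear_combination (-1/3) * h.r8 1 6 + 1 * h.r3 1 6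

theorem p1635 (h : Good S) : S 1 6 3 5 = 0 := by
  linear_combination 1 * h.r1 1 6 - 1 * h.zc' 1 6 3 - 1 * h.zc' 1 6 5

theorem p2301 (h : Good S) : S 2 3 0 1 = (1/4) * S 2 3 1 5 + (-1/16) * S 2 3 4 6 := by
  linear_combination (1/2) * h.r0 2 3 + (1/4) * h.r5 2 3 + (-1/16) * h.r9 2 3 + (-1/8) * h.r4 2 3 + (-3/4) * h.r1 2 3 - (-1/4) * h.zc' 2 3 1

theorem p2304 (h : Good S) : S 2 3 0 4 = 1 * S 2 3 0 6 := by
  linear_combination (1/4) * h.r7 2 3 + (-1) * h.r0 2 3 + (-1/4) * h.r5 2 3 + (-3/2) * h.r4 2 3 + (1/4) * h.r8 2 3 + (1/2) * h.r1 2 3 - (-1/2) * h.zb' 2 3 0 - (-1/2) * h.zc' 2 3 0 - (-3/4) * h.zb' 2 3 1 - (-3/4) * h.zc' 2 3 1 - (1/2) * h.zb 2 3 3 - (-5/4) * h.zb 2 3 4 - (-5/4) * h.zb 2 3 5 - (3/4) * h.zb 2 3 6 - (-1) * h.zc 2 3 4 - (-1/4) * h.zc 2 3 5 - (3/4) * h.zc 2 3 6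

theorem p2305 (h : Good S) : S 2 3 0 5 = (-1) * S 2 3 0 6 + (-3/4) * S 2 3 1 5 + (3/16) * S 2 3 4 6 := by
  linear_combination (1/4) * h.r5 2 3 + (-1/2) * h.r0 2 3 + (3/16) * h.r9 2 3 + (3/8) * h.r4 2 3 + (1/4) * h.r1 2 3 - 1 * h.zc' 2 3 0 - (3/4) * h.zc' 2 3 1

theorem p2314 (h : Good S) : S 2 3 1 4 = (3/4) * S 2 3 4 6 := by
  linear_combination (1/2) * h.r4 2 3 + (-1/4) * h.r9 2 3

theorem p2316 (h : Good S) : S 2 3 1 6 = (-1/4) * S 2 3 4 6 := by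
  linear_combination (-1/4) * h.r9 2 3 + (-1/2) * h.r4 2 3

theorem p2345 (h : Good S) : S 2 3 4 5 = 0 := by
  linear_combination (1/2) * h.r8 2 3 - (-3/2) * h.zb 2 3 4 - (-3) * h.zb 2 3 5

theorem p2356 (h : Good S) : S 2 3 5 6 = 0 := by
  linear_combination 1 * h.r1 2 3 - 1 * h.zc 2 3 5 - 1 * h.zc 2 3 6

theorem p2401 (h : Good S) : S 2 4 0 1 = (1/4) * S 2 4 1 3 + (1/4) * S 2 4 1 5 := by
  linear_combination (1/2) * h.r0 2 4 + (1/4) * h.r5 2 4 + (-1/4) * h.r4 2 4 + (-3/4) * h.r1 2 4 - (-1/4) * h.zc' 2 4 1 - (1/4) * h.zc 2 4 6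

theorem p2403 (h : Good S) : S 2 4 0 3 = 0 := by
  linear_combination (-1) * h.r2 2 4 - 1 * h.zb' 2 4 0 - (-1) * h.zb 2 4 3

theorem p2405 (h : Good S) : S 2 4 0 5 = (-3/4) * S 2 4 1 5 + (1/2) * S 2 4 5 6 := by
  linear_combination (-3/2) * h.r0 2 4 + (1/2) * h.r2 2 4 + (1/4) * h.r7 2 4 + (-3/4) * h.r4 2 4 + (-1/2) * h.r1 2 4 + (1/4) * h.r10 2 4 - (-1) * h.zb' 2 4 0 - 1 * h.zb 2 4 3 - 1 * h.zc' 2 4 0 - (-3/4) * h.zb' 2 4 1 - (3/4) * h.zc' 2 4 1 - (-1/2) * h.zb 2 4 4 - (1/4) * h.zb 2 4 5 - (3/4) * h.zb 2 4 6 - (-1) * h.zc' 2 4 3 - (-1/2) * h.zc 2 4 5 - (-3/4) * h.zc 2 4 6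

theorem p2406 (h : Good S) : S 2 4 0 6 = (-3/4) * S 2 4 1 3 + (-1/2) * S 2 4 5 6 := by
  linear_combination (-1/4) * h.r7 2 4 + 1 * h.r0 2 4 + (1/2) * h.r2 2 4 + (1/4) * h.r5 2 4 + (3/2) * h.r4 2 4 + (3/4) * h.r1 2 4 + (-1/4) * h.r10 2 4 - (-1) * h.zc' 2 4 0 - (3/4) * h.zb' 2 4 1 - (1/2) * h.zb 2 4 4 - (-1/4) * h.zb 2 4 5 - (-3/4) * h.zb 2 4 6 - 1 * h.zc' 2 4 3 - (1/2) * h.zc 2 4 5

theorem p2416 (h : Good S) : S 2 4 1 6 = 0 := by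
  linear_combination (-1) * h.r4 2 4 - (-1) * h.zc' 2 4 1 - 1 * h.zc 2 4 6

theorem p2435 (h : Good S) : S 2 4 3 5 = (-1/4) * S 2 4 5 6 := by
  linear_combination (-1/2) * h.r1 2 4 + (1/4) * h.r10 2 4

theorem p2436 (h : Good S) : S 2 4 3 6 = (-3/4) * S 2 4 5 6 := by
  linear_combination (-1/4) * h.r10 2 4 + (3/2) * h.r1 2 4

theorem p2501 (h : Good S) : S 2 5 0 1 = (1/4) * S 2 5 1 3 + (-1/16) * S 2 5 4 6 := by
  linear_combination (1/2) * h.r0 2 5 + (1/4) * h.r5 2 5 + (-1/16) * h.r9 2 5 + (-1/8) * h.r4 2 5 + (-3/4) * h.r1 2 5 - (-1/4) * h.zc' 2 5 1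

theorem p2503 (h : Good S) : S 2 5 0 3 = 0 := by
  linear_combination (-1) * h.r2 2 5 - 1 * h.zb' 2 5 0 - (-1) * h.zb 2 5 3

theorem p2504 (h : Good S) : S 2 5 0 4 = 1 * S 2 5 3 4 + (3/16) * S 2 5 4 6 := by
  linear_combination (1/4) * h.r7 2 5 + (-3/2) * h.r0 2 5 + (1/2) * h.r2 2 5 + (-9/8) * h.r4 2 5 + (3/16) * h.r9 2 5 - (-1) * h.zb' 2 5 0 - 1 * h.zc' 2 5 0 - (-3/4) * h.zb' 2 5 1 - (3/4) * h.zc' 2 5 1 - 1 * h.zb 2 5 3 - (-1/2) * h.zb 2 5 4 - (1/4) * h.zb 2 5 5 - (3/4) * h.zb 2 5 6 - (-1) * h.zc' 2 5 3 - (-1/2) * h.zc' 2 5 4 - (-3/4) * h.zc 2 5 6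

theorem p2506 (h : Good S) : S 2 5 0 6 = (-3/4) * S 2 5 1 3 + (3/16) * S 2 5 4 6 := by
  linear_combination (1/4) * h.r5 2 5 + (-1/2) * h.r0 2 5 + 1 * h.r2 2 5 + (3/16) * h.r9 2 5 + (3/8) * h.r4 2 5 + (1/4) * h.r1 2 5 - 1 * h.zc' 2 5 0 - (3/4) * h.zc' 2 5 1 - (-1) * h.zb' 2 5 0 - 1 * h.zb 2 5 3

theorem p2514 (h : Good S) : S 2 5 1 4 = (3/4) * S 2 5 4 6 := by
  linear_combination (1/2) * h.r4 2 5 + (-1/4) * h.r9 2 5

theorem p2516 (h : Good S) : S 2 5 1 6 = (-1/4) * S 2 5 4 6 := by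
  linear_combination (-1/4) * h.r9 2 5 + (-1/2) * h.r4 2 5

theorem p2536 (h : Good S) : S 2 5 3 6 = 0 := by
  linear_combination 1 * h.r1 2 5 - 1 * h.zc' 2 5 3 - 1 * h.zc 2 5 6

theorem p2601 (h : Good S) : S 2 6 0 1 = (1/4) * S 2 6 1 3 + (1/4) * S 2 6 1 5 := by
  linear_combination (1/2) * h.r0 2 6 + (1/4) * h.r5 2 6 + (-3/4) * h.r1 2 6 - (-1/4) * h.zc' 2 6 1

theorem p2603 (h : Good S) : S 2 6 0 3 = 0 := by
  linear_combination (-1) * h.r2 2 6 - 1 * h.zb' 2 6 0 - (-1) * h.zb 2 6 3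

theorem p2604 (h : Good S) : S 2 6 0 4 = (3/4) * S 2 6 1 3 + 1 * S 2 6 3 4 := by
  linear_combination (1/4) * h.r7 2 6 + (-1) * h.r0 2 6 + (-1/2) * h.r2 2 6 + (-1/4) * h.r5 2 6 + (-3/2) * h.r4 2 6 + (3/4) * h.r1 2 6 + (1/2) * h.r3 2 6 - (-1) * h.zc' 2 6 0 - (-3/4) * h.zb' 2 6 1 - (-1) * h.zb 2 6 4 - (-1/4) * h.zb 2 6 5 - (3/4) * h.zb 2 6 6 - 1 * h.zc' 2 6 3 - (1/4) * h.zc' 2 6 5

theorem p2605 (h : Good S) : S 2 6 0 5 = (-3/4) * S 2 6 1 3 + (-3/4) * S 2 6 1 5 := by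
  linear_combination (1/4) * h.r5 2 6 + (-1/2) * h.r0 2 6 + 1 * h.r2 2 6 + (1/4) * h.r1 2 6 - 1 * h.zc' 2 6 0 - (3/4) * h.zc' 2 6 1 - (-1) * h.zb' 2 6 0 - 1 * h.zb 2 6 3

theorem p2614 (h : Good S) : S 2 6 1 4 = 0 := by
  linear_combination 1 * h.r4 2 6 - (-1) * h.zc' 2 6 1 - (-1) * h.zc' 2 6 4

theorem p2635 (h : Good S) : S 2 6 3 5 = 0 := by
  linear_combination 1 * h.r1 2 6 - 1 * h.zc' 2 6 3 - 1 * h.zc' 2 6 5

theorem p2645 (h : Good S) : S 2 6 4 5 = 0 := by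
  linear_combination 1 * h.r3 2 6 - (-1) * h.zb 2 6 4 - (-1) * h.zb 2 6 5

theorem p3401 (h : Good S) : S 3 4 0 1 = (1/4) * S 3 4 1 5 := by
  linear_combination (1/2) * h.r0 3 4 + (1/4) * h.r5 3 4 + (-1/4) * h.r4 3 4 + (-3/4) * h.r1 3 4 - (-1/4) * h.zb' 3 4 1 - (-1/4) * h.zc' 3 4 1 - (1/4) * h.zc 3 4 6

theorem p3402 (h : Good S) : S 3 4 0 2 = 0 := by
  linear_combination (-1) * h.r2 3 4 - 1 * h.zb' 3 4 0 - (-1) * h.zb' 3 4 2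

theorem p3405 (h : Good S) : S 3 4 0 5 = (3/4) * S 3 4 1 2 + (-3/4) * S 3 4 1 5 + (-3/4) * S 3 4 2 6 := by
  linear_combination (-3/2) * h.r0 3 4 + (1/4) * h.r7 3 4 + (-1/2) * h.r2 3 4 + (-3/4) * h.r4 3 4 + (1/4) * h.r3 3 4 + (3/4) * h.r1 3 4 - 1 * h.zb' 3 4 0 - (-1/4) * h.zb 3 4 5 - (3/4) * h.zb 3 4 6 - 1 * h.zc' 3 4 0 - (3/4) * h.zc' 3 4 1 - (-3/4) * h.zc' 3 4 2 - (-1) * h.zb 3 4 4 - (-1/4) * h.zc 3 4 5 - (-3/4) * h.zc 3 4 6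

theorem p3406 (h : Good S) : S 3 4 0 6 = (-3/4) * S 3 4 1 2 + (3/4) * S 3 4 2 6 := by
  linear_combination (-1/4) * h.r7 3 4 + 1 * h.r0 3 4 + (1/2) * h.r2 3 4 + (1/4) * h.r5 3 4 + (3/2) * h.r4 3 4 + (-1/4) * h.r3 3 4 + (-1/2) * h.r1 3 4 - (-1) * h.zc' 3 4 0 - (3/4) * h.zb' 3 4 1 - (3/4) * h.zc' 3 4 2 - 1 * h.zb 3 4 4 - (1/4) * h.zb 3 4 5 - (-3/4) * h.zb 3 4 6 - (1/4) * h.zc 3 4 5

theorem p3416 (h : Good S) : S 3 4 1 6 = 0 := by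
  linear_combination (-1) * h.r4 3 4 - (-1) * h.zc' 3 4 1 - 1 * h.zc 3 4 6

theorem p3425 (h : Good S) : S 3 4 2 5 = 0 := by
  linear_combination (-1) * h.r3 3 4 - 1 * h.zc' 3 4 2 - (-1) * h.zc 3 4 5

theorem p3456 (h : Good S) : S 3 4 5 6 = 0 := by
  linear_combination 1 * h.r1 3 4 - 1 * h.zb 3 4 5 - 1 * h.zb 3 4 6

theorem p3501 (h : Good S) : S 3 5 0 1 = (-1/16) * S 3 5 4 6 := by
  linear_combination (1/2) * h.r0 3 5 + (1/4) * h.r5 3 5 + (-1/16) * h.r9 3 5 + (-1/8) * h.r4 3 5 - (-1/4) * h.zb' 3 5 1 - (-1/4) * h.zc' 3 5 1 - (3/4) * h.zb 3 5 5 - (3/4) * h.zb 3 5 6 - (3/4) * h.zc 3 5 6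

theorem p3502 (h : Good S) : S 3 5 0 2 = 0 := by
  linear_combination (-1) * h.r2 3 5 - 1 * h.zb' 3 5 0 - (-1) * h.zb' 3 5 2

theorem p3504 (h : Good S) : S 3 5 0 4 = (3/4) * S 3 5 1 2 + (-3/4) * S 3 5 2 6 + (3/16) * S 3 5 4 6 := by
  linear_combination (1/4) * h.r7 3 5 + (-3/2) * h.r0 3 5 + (-1/2) * h.r2 3 5 + (-9/8) * h.r4 3 5 + (3/16) * h.r9 3 5 + (-1/6) * h.r8 3 5 - 1 * h.zb' 3 5 0 - 1 * h.zc' 3 5 0 - (3/4) * h.zc' 3 5 1 - (5/4) * h.zc' 3 5 2 - (-1) * h.zb 3 5 4 - (-1) * h.zb 3 5 5 - (-5/6) * h.zc' 3 5 4 - (-3/4) * h.zc 3 5 6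

theorem p3506 (h : Good S) : S 3 5 0 6 = (3/16) * S 3 5 4 6 := by
  linear_combination (1/4) * h.r5 3 5 + (-1/2) * h.r0 3 5 + (3/16) * h.r9 3 5 + (3/8) * h.r4 3 5 - 1 * h.zb' 3 5 0 - 1 * h.zc' 3 5 0 - (3/4) * h.zb' 3 5 1 - (3/4) * h.zc' 3 5 1 - (-1/4) * h.zb 3 5 5 - (-1/4) * h.zb 3 5 6 - (-1/4) * h.zc 3 5 6

theorem p3514 (h : Good S) : S 3 5 1 4 = (3/4) * S 3 5 4 6 := by
  linear_combination (1/2) * h.r4 3 5 + (-1/4) * h.r9 3 5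

theorem p3516 (h : Good S) : S 3 5 1 6 = (-1/4) * S 3 5 4 6 := by
  linear_combination (-1/4) * h.r9 3 5 + (-1/2) * h.r4 3 5

theorem p3524 (h : Good S) : S 3 5 2 4 = 0 := by
  linear_combination (-1/3) * h.r8 3 5 - 2 * h.zc' 3 5 2 - (-2/3) * h.zc' 3 5 4

theorem p3601 (h : Good S) : S 3 6 0 1 = (1/4) * S 3 6 1 5 := by
  linear_combination (1/2) * h.r0 3 6 + (1/4) * h.r5 3 6 - (-1/4) * h.zb' 3 6 1 - (-1/4) * h.zc' 3 6 1 - (3/4) * h.zb 3 6 5 - (3/4) * h.zb 3 6 6 - (3/4) * h.zc' 3 6 5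

theorem p3602 (h : Good S) : S 3 6 0 2 = 0 := by
  linear_combination (-1) * h.r2 3 6 - 1 * h.zb' 3 6 0 - (-1) * h.zb' 3 6 2

theorem p3604 (h : Good S) : S 3 6 0 4 = (3/4) * S 3 6 1 2 + (5/4) * S 3 6 4 5 := by
  linear_combination (1/4) * h.r7 3 6 + (-1) * h.r0 3 6 + (-1/2) * h.r2 3 6 + (-1/4) * h.r5 3 6 + (-3/2) * h.r4 3 6 + (-5/4) * h.r3 3 6 + (1/4) * h.r8 3 6 - (-1) * h.zc' 3 6 0 - (-3/4) * h.zb' 3 6 1 - (3/4) * h.zc' 3 6 2 - (-1) * h.zb 3 6 4 - (-3/4) * h.zb 3 6 5 - (1/4) * h.zb 3 6 6 - (-1/2) * h.zc' 3 6 5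

theorem p3605 (h : Good S) : S 3 6 0 5 = (-3/4) * S 3 6 1 5 := by
  linear_combination (1/4) * h.r5 3 6 + (-1/2) * h.r0 3 6 - 1 * h.zb' 3 6 0 - 1 * h.zc' 3 6 0 - (3/4) * h.zb' 3 6 1 - (3/4) * h.zc' 3 6 1 - (-1/4) * h.zb 3 6 5 - (-1/4) * h.zb 3 6 6 - (-1/4) * h.zc' 3 6 5

theorem p3614 (h : Good S) : S 3 6 1 4 = 0 := by
  linear_combination 1 * h.r4 3 6 - (-1) * h.zc' 3 6 1 - (-1) * h.zc' 3 6 4

theorem p3624 (h : Good S) : S 3 6 2 4 = (4/3) * S 3 6 4 5 := by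
  linear_combination (-2) * h.r3 3 6 + (1/3) * h.r8 3 6

theorem p3625 (h : Good S) : S 3 6 2 5 = (-1/3) * S 3 6 4 5 := by
  linear_combination (-1/3) * h.r8 3 6 + 1 * h.r3 3 6

theorem p4501 (h : Good S) : S 4 5 0 1 = (1/4) * S 4 5 1 3 := by
  linear_combination (1/2) * h.r0 4 5 + (1/4) * h.r5 4 5 + (-1/4) * h.r4 4 5 + (-3/4) * h.r1 4 5 - (-1/4) * h.zc' 4 5 1 - (-1/4) * h.zb' 4 5 1 - (1/4) * h.zb 4 5 6

theorem p4502 (h : Good S) : S 4 5 0 2 = 4 * S 4 5 2 3 := by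
  linear_combination 2 * h.r2 4 5 + (-1) * h.r6 4 5

theorem p4503 (h : Good S) : S 4 5 0 3 = (-3) * S 4 5 2 3 := by
  linear_combination 1 * h.r6 4 5 + (-3) * h.r2 4 5

theorem p4506 (h : Good S) : S 4 5 0 6 = (-3/4) * S 4 5 1 3 + 3 * S 4 5 2 3 := by
  linear_combination (-1) * h.r6 4 5 + 3 * h.r2 4 5 + (1/4) * h.r5 4 5 + (-1/2) * h.r0 4 5 + (3/4) * h.r4 4 5 + (1/4) * h.r1 4 5 - 1 * h.zc' 4 5 0 - (3/4) * h.zc' 4 5 1 - (3/4) * h.zb' 4 5 1 - (-3/4) * h.zb 4 5 6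

theorem p4512 (h : Good S) : S 4 5 1 2 = (-4) * S 4 5 2 3 + 1 * S 4 5 2 6 := by
  linear_combination (-1/3) * h.r7 4 5 + 2 * h.r0 4 5 + (-10/3) * h.r2 4 5 + (4/3) * h.r6 4 5 + 1 * h.r4 4 5 - (-4/3) * h.zb' 4 5 0 - (-4/3) * h.zc' 4 5 0 - (-1) * h.zb' 4 5 1 - (-1) * h.zc' 4 5 1 - (2/3) * h.zb' 4 5 2 - (-1/3) * h.zc' 4 5 2 - (4/3) * h.zb' 4 5 3 - (4/3) * h.zc' 4 5 3 - (2/3) * h.zb 4 5 5 - 1 * h.zb 4 5 6 - 1 * h.zc 4 5 6

theorem p4516 (h : Good S) : S 4 5 1 6 = 0 := by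
  linear_combination (-1) * h.r4 4 5 - (-1) * h.zb' 4 5 1 - 1 * h.zb 4 5 6

theorem p4536 (h : Good S) : S 4 5 3 6 = 0 := by
  linear_combination 1 * h.r1 4 5 - 1 * h.zc' 4 5 3 - 1 * h.zc 4 5 6

theorem p4601 (h : Good S) : S 4 6 0 1 = (1/4) * S 4 6 1 3 + (1/4) * S 4 6 1 5 := by
  linear_combination (1/2) * h.r0 4 6 + (1/4) * h.r5 4 6 + (-3/4) * h.r1 4 6 - (-1/4) * h.zc' 4 6 1

theorem p4602 (h : Good S) : S 4 6 0 2 = 4 * S 4 6 2 3 := by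
  linear_combination 2 * h.r2 4 6 + (-1) * h.r6 4 6

theorem p4603 (h : Good S) : S 4 6 0 3 = (-3) * S 4 6 2 3 := by
  linear_combination 1 * h.r6 4 6 + (-3) * h.r2 4 6

theorem p4605 (h : Good S) : S 4 6 0 5 = (-3/4) * S 4 6 1 3 + (-3/4) * S 4 6 1 5 + 3 * S 4 6 2 3 := by
  linear_combination (-1) * h.r6 4 6 + 3 * h.r2 4 6 + (1/4) * h.r5 4 6 + (-1/2) * h.r0 4 6 + (1/4) * h.r1 4 6 - 1 * h.zc' 4 6 0 - (3/4) * h.zc' 4 6 1

theorem p4612 (h : Good S) : S 4 6 1 2 = (-1) * S 4 6 1 3 := by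
  linear_combination (-1/3) * h.r7 4 6 + (4/3) * h.r0 4 6 + (2/3) * h.r2 4 6 + (1/3) * h.r5 4 6 + (-1/3) * h.r3 4 6 + (-1) * h.r1 4 6 - (-4/3) * h.zb' 4 6 0 - (4/3) * h.zc' 4 6 0 - (-2) * h.zb' 4 6 1 - 2 * h.zc' 4 6 1 - 1 * h.zb' 4 6 2 - (-1) * h.zc' 4 6 2 - (4/3) * h.zb' 4 6 3 - (-4/3) * h.zc' 4 6 3 - (1/3) * h.zb 4 6 5 - 2 * h.zb 4 6 6 - (-1/3) * h.zc' 4 6 5

theorem p4625 (h : Good S) : S 4 6 2 5 = 0 := by
  linear_combination (-1) * h.r3 4 6 - 1 * h.zb' 4 6 2 - (-1) * h.zb 4 6 5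

theorem p4635 (h : Good S) : S 4 6 3 5 = 0 := by
  linear_combination 1 * h.r1 4 6 - 1 * h.zc' 4 6 3 - 1 * h.zc' 4 6 5

theorem p5601 (h : Good S) : S 5 6 0 1 = 1 * S 5 6 2 3 := by
  linear_combination (1/3) * h.r0 5 6 + (1/3) * h.r5 5 6 + (-1/3) * h.r6 5 6 + 1 * h.r2 5 6 - (1/3) * h.zb' 5 6 0 - (1/3) * h.zc' 5 6 0 - (2/3) * h.zb' 5 6 3 - (2/3) * h.zc' 5 6 3 - (2/3) * h.zb 5 6 6

theorem p5602 (h : Good S) : S 5 6 0 2 = 4 * S 5 6 2 3 := by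
  linear_combination 2 * h.r2 5 6 + (-1) * h.r6 5 6

theorem p5603 (h : Good S) : S 5 6 0 3 = (-3) * S 5 6 2 3 := by
  linear_combination 1 * h.r6 5 6 + (-3) * h.r2 5 6

theorem p5604 (h : Good S) : S 5 6 0 4 = (3/4) * S 5 6 1 2 + 3 * S 5 6 2 3 + 1 * S 5 6 3 4 := by
  linear_combination (1/4) * h.r7 5 6 + (-3/2) * h.r0 5 6 + (5/2) * h.r2 5 6 + (-1) * h.r6 5 6 + (-3/2) * h.r4 5 6 + (-1/2) * h.r3 5 6 - 1 * h.zb' 5 6 0 - (3/4) * h.zb' 5 6 1 - (3/4) * h.zc' 5 6 1 - (3/4) * h.zb' 5 6 2 - (3/4) * h.zc' 5 6 2 - (-1) * h.zb' 5 6 3 - (-1) * h.zb' 5 6 4 - (-3/4) * h.zb 5 6 6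

theorem p5613 (h : Good S) : S 5 6 1 3 = 4 * S 5 6 2 3 := by
  linear_combination (-4/3) * h.r6 5 6 + 4 * h.r2 5 6 + (1/3) * h.r5 5 6 + (-2/3) * h.r0 5 6 - (4/3) * h.zb' 5 6 0 - (4/3) * h.zc' 5 6 0 - 1 * h.zb' 5 6 1 - 1 * h.zc' 5 6 1 - (-1/3) * h.zb' 5 6 3 - (-1/3) * h.zc' 5 6 3 - (-1/3) * h.zb 5 6 6

theorem p5614 (h : Good S) : S 5 6 1 4 = 0 := by
  linear_combination 1 * h.r4 5 6 - (-1) * h.zc' 5 6 1 - (-1) * h.zc' 5 6 4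

theorem p5624 (h : Good S) : S 5 6 2 4 = 0 := by
  linear_combination (-1) * h.r3 5 6 - 1 * h.zb' 5 6 2 - (-1) * h.zb' 5 6 4

theorem q0 (h : Good S) : 1 * S 0 3 2 6 + 1 * S 2 3 0 6 = 0 := by
  linear_combination (-1) * (h.cyc 3 0 2 6) + 1 * (h.anti 0 3 2 6) + 1 * (h.anti 2 3 0 6) + 1 * (p3602 h)

theorem q1 (h : Good S) : (-1) * S 2 4 5 6 + 1 * S 4 5 2 6 = 0 := by
  linear_combination 1 * (h.cyc 4 2 5 6) + (-1) * (h.anti 2 4 5 6) + (-1) * (p4625 h)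

theorem q2 (h : Good S) : 1 * S 2 5 3 4 + 1 * S 4 5 2 3 = 0 := by
  linear_combination (-1) * (h.cyc 5 2 3 4) + 1 * (h.anti 2 5 3 4) + 1 * (h.anti 3 5 2 4) + (-1) * (p3524 h) + 1 * (h.anti 4 5 2 3)

theorem q3 (h : Good S) : 1 * S 3 5 2 6 + (-1) * S 5 6 2 3 = 0 := by
  linear_combination (-1) * (h.cyc 5 2 3 6) + 1 * (h.anti 2 5 3 6) + (-1) * (p2536 h) + 1 * (h.anti 3 5 2 6)

theorem q4 (h : Good S) : (-1) * S 3 5 4 6 + 1 * S 5 6 3 4 = 0 := by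
  linear_combination 1 * (h.cyc 5 3 4 6) + (-1) * (h.anti 3 5 4 6) + (-1) * (h.anti 4 5 3 6) + 1 * (p4536 h)

theorem q5 (h : Good S) : 1 * S 1 6 3 4 + 1 * S 4 6 1 3 = 0 := by
  linear_combination (-1) * (h.cyc 6 1 3 4) + 1 * (h.anti 1 6 3 4) + 1 * (h.anti 3 6 1 4) + (-1) * (p3614 h) + 1 * (h.anti 4 6 1 3)

theorem q6 (h : Good S) : 1 * S 0 2 3 4 + (-1) * S 2 3 0 6 = 0 := by
  linear_combination (-1) * (h.cyc 2 0 3 4) + 1 * (h.anti 0 2 3 4) + 1 * (p2304 h) + 1 * (p2403 h)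

theorem q7 (h : Good S) : 1 * S 1 4 2 6 + 1 * S 4 6 1 3 = 0 := by
  linear_combination (-1) * (h.cyc 4 1 2 6) + 1 * (h.anti 1 4 2 6) + 1 * (h.anti 2 4 1 6) + (-1) * (p2416 h) + 1 * (p4612 h)

theorem q8 (h : Good S) : (-1) * S 1 4 5 6 + 1 * S 4 6 1 5 = 0 := by
  linear_combination 1 * (h.cyc 4 1 5 6) + (-1) * (h.anti 1 4 5 6) + (-1) * (p4516 h)

theorem q9 (h : Good S) : 1 * S 2 4 1 5 + (3/4) * S 2 5 4 6 = 0 := by
  linear_combination 1 * (h.cyc 2 1 4 5) + (-1) * (h.anti 1 2 4 5) + 1 * (p1245 h) + (-1) * (p2514 h)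

theorem q10 (h : Good S) : (-1/4) * S 3 5 4 6 + 1 * S 3 6 1 5 = 0 := by
  linear_combination 1 * (h.cyc 3 1 5 6) + (-1) * (h.anti 1 3 5 6) + 1 * (p1356 h) + (-1) * (p3516 h)

theorem q11 (h : Good S) : 1 * S 1 5 2 3 + 1 * S 2 5 1 3 + 1 * S 3 5 1 2 = 0 := by
  linear_combination (-1) * (h.cyc 5 1 2 3) + 1 * (h.anti 1 5 2 3) + 1 * (h.anti 2 5 1 3) + 1 * (h.anti 3 5 1 2)

theorem q12 (h : Good S) : 1 * S 1 6 2 3 + 1 * S 2 6 1 3 + 1 * S 3 6 1 2 = 0 := by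
  linear_combination (-1) * (h.cyc 6 1 2 3) + 1 * (h.anti 1 6 2 3) + 1 * (h.anti 2 6 1 3) + 1 * (h.anti 3 6 1 2)

theorem q13 (h : Good S) : 1 * S 0 2 5 6 + 1 * S 0 5 2 6 + (-1/3) * S 0 6 4 5 = 0 := by
  linear_combination 1 * (h.cyc 0 2 5 6) + (-1) * (p0625 h)

theorem q14 (h : Good S) : 1 * S 1 2 5 6 + 1 * S 1 5 2 6 + (-1/3) * S 1 6 4 5 = 0 := by
  linear_combination 1 * (h.cyc 1 2 5 6) + (-1) * (p1625 h)

theorem q15 (h : Good S) : (-1/3) * S 1 6 4 5 + 1 * S 2 6 1 5 + 1 * S 5 6 1 2 = 0 := by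
  linear_combination (-1) * (h.cyc 6 1 2 5) + 1 * (h.anti 1 6 2 5) + (-1) * (p1625 h) + 1 * (h.anti 2 6 1 5) + 1 * (h.anti 5 6 1 2)

theorem q16 (h : Good S) : 1 * S 0 1 3 4 + (3/4) * S 0 3 4 6 + (-1) * S 0 4 1 5 = 0 := by
  linear_combination 1 * (h.cyc 0 1 3 4) + (-1) * (p0314 h) + (-1) * (p0413 h)

theorem q17 (h : Good S) : 1 * S 0 2 4 6 + 1 * S 0 4 2 6 + (4/3) * S 0 6 4 5 = 0 := by
  linear_combination 1 * (h.cyc 0 2 4 6) + (-1) * (p0624 h)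

theorem q18 (h : Good S) : 1 * S 0 3 4 5 + (-1/4) * S 0 4 5 6 + 1 * S 0 5 3 4 = 0 := by
  linear_combination 1 * (h.cyc 0 3 4 5) + (-1) * (p0435 h)

theorem q19 (h : Good S) : 1 * S 0 3 4 6 + (-3/4) * S 0 4 5 6 + 1 * S 0 6 3 4 = 0 := by
  linear_combination 1 * (h.cyc 0 3 4 6) + (-1) * (p0436 h)

theorem q20 (h : Good S) : 1 * S 1 2 3 4 + (4/3) * S 1 3 4 5 + 1 * S 1 4 2 3 = 0 := by
  linear_combination 1 * (h.cyc 1 2 3 4) + (-1) * (p1324 h)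

theorem q21 (h : Good S) : (-3/4) * S 1 2 5 6 + 1 * S 1 3 2 6 + 1 * S 1 6 2 3 = 0 := by
  linear_combination 1 * (h.cyc 1 2 3 6) + (-1) * (p1236 h)

theorem q22 (h : Good S) : 1 * S 1 3 4 5 + (-1/4) * S 1 4 5 6 + 1 * S 1 5 3 4 = 0 := by
  linear_combination 1 * (h.cyc 1 3 4 5) + (-1) * (p1435 h)

theorem q23 (h : Good S) : 1 * S 2 3 4 6 + (-3/4) * S 2 4 5 6 + 1 * S 2 6 3 4 = 0 := by
  linear_combination 1 * (h.cyc 2 3 4 6) + (-1) * (p2436 h)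

theorem q24 (h : Good S) : 1 * S 3 5 4 6 + 1 * S 3 6 4 5 = 0 := by
  linear_combination 1 * (h.cyc 3 4 5 6) + (-1) * (p3456 h)

theorem q25 (h : Good S) : 1 * S 1 4 5 6 + 1 * S 1 6 4 5 = 0 := by
  linear_combination 1 * (h.cyc 1 4 5 6) + (-1) * (p1546 h)

theorem q26 (h : Good S) : 1 * S 0 3 4 5 + (3/4) * S 2 3 0 6 = 0 := by
  linear_combination (3/4) * (h.cyc 0 2 3 4) + (-3/4) * (p0324 h) + (-3/4) * (p0423 h) + (-3/4) * (q6 h)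

theorem q27 (h : Good S) : 1 * S 0 2 5 6 + (-1) * S 2 3 0 6 = 0 := by
  linear_combination (-4) * (h.cyc 0 2 3 5) + 4 * (p0235 h) + 4 * (p0325 h) + 4 * (p0523 h) + (-4/3) * (q26 h)

theorem q28 (h : Good S) : 1 * S 2 3 0 6 = 0 := by
  linear_combination (-4/7) * (h.cyc 0 1 2 3) + (4/7) * (p0123 h) + (4/7) * (p0213 h) + (4/7) * (p0312 h) + (4/7) * (q0 h) + (-16/21) * (q6 h) + (-20/21) * (q26 h) + (-8/21) * (q27 h)

theorem q29 (h : Good S) : 1 * S 2 3 1 5 + (-1/4) * S 2 3 4 6 = 0 := by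
  linear_combination 4 * (h.cyc 2 0 1 3) + (-4) * (h.anti 0 2 1 3) + 4 * (p0213 h) + (-4) * (h.anti 1 2 0 3) + 4 * (p1203 h) + (-4) * (p2301 h) + (-16/3) * (q6 h) + (-8/3) * (q27 h) + (-8) * (q28 h)

theorem q30 (h : Good S) : 1 * S 4 6 1 3 + (4/3) * S 1 4 5 6 = 0 := by
  linear_combination (-1) * (h.cyc 1 2 4 6) + 1 * (p1246 h) + 1 * (p1624 h) + 1 * (q7 h) + (4/3) * (q25 h)

theorem q31 (h : Good S) : 1 * S 1 4 5 6 = 0 := by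
  linear_combination (12/7) * (h.cyc 1 0 4 6) + (-12/7) * (h.anti 0 1 4 6) + (12/7) * (p0146 h) + (-12/7) * (p1406 h) + (-12/7) * (p1604 h) + (-12/7) * (q5 h) + (-9/7) * (q7 h) + (-15/7) * (q25 h) + 3 * (q30 h)

theorem q32 (h : Good S) : 1 * S 3 4 1 5 + (-1) * S 4 5 1 3 = 0 := by
  linear_combination (-1) * (h.cyc 4 1 3 5) + 1 * (h.anti 1 4 3 5) + (-1) * (p1435 h) + 1 * (h.anti 3 4 1 5) + (1/4) * (q31 h)

theorem q33 (h : Good S) : (1/4) * S 2 4 5 6 + 1 * S 4 5 2 3 = 0 := by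
  linear_combination (-1) * (h.cyc 2 3 4 5) + 1 * (p2345 h) + 1 * (p2435 h) + 1 * (q2 h)

theorem q34 (h : Good S) : 1 * S 1 4 2 3 + 1 * S 2 4 1 3 + 1 * S 3 4 1 2 = 0 := by
  linear_combination (-1) * (h.cyc 4 1 2 3) + 1 * (h.anti 1 4 2 3) + 1 * (h.anti 2 4 1 3) + 1 * (h.anti 3 4 1 2)

theorem q35 (h : Good S) : 1 * S 0 6 1 5 + 3 * S 1 6 2 3 + 1 * S 5 6 2 3 = 0 := by
  linear_combination (-1) * (h.cyc 6 0 1 5) + 1 * (h.anti 0 6 1 5) + 1 * (h.anti 1 6 0 5) + (-1) * (p1605 h) + 1 * (h.anti 5 6 0 1) + (-1) * (p5601 h)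

theorem q36 (h : Good S) : (-1/3) * S 0 1 4 5 + 1 * S 1 2 0 6 + (-4) * S 1 5 2 3 = 0 := by
  linear_combination (-1) * (h.cyc 1 0 2 5) + 1 * (h.anti 0 1 2 5) + (-1) * (p0125 h) + 1 * (p1205 h) + 1 * (p1502 h)

theorem q37 (h : Good S) : (-1/4) * S 0 1 5 6 + 1 * S 1 3 0 6 + 3 * S 1 5 2 3 = 0 := by
  linear_combination (-1) * (h.cyc 1 0 3 5) + 1 * (h.anti 0 1 3 5) + (-1) * (p0135 h) + 1 * (p1305 h) + 1 * (p1503 h)

theorem q38 (h : Good S) : (-1) * S 2 3 4 6 + 1 * S 3 4 2 6 + (-4/3) * S 3 5 4 6 = 0 := by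
  linear_combination 1 * (h.cyc 3 2 4 6) + (-1) * (h.anti 2 3 4 6) + (-1) * (p3624 h) + (-4/3) * (q24 h)

theorem q39 (h : Good S) : 1 * S 2 4 5 6 + 1 * S 2 5 4 6 = 0 := by
  linear_combination 1 * (h.cyc 2 4 5 6) + (-1) * (p2645 h)

theorem q40 (h : Good S) : 1 * S 2 4 5 6 = 0 := by
  linear_combination (4/5) * (h.cyc 4 1 2 5) + (-4/5) * (h.anti 1 4 2 5) + (4/5) * (p1425 h) + (-4/5) * (h.anti 2 4 1 5) + (-4/5) * (p4512 h) + (-4/5) * (q1 h) + (4/5) * (q9 h) + (16/5) * (q33 h) + (-3/5) * (q39 h)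

theorem q41 (h : Good S) : (-1) * S 1 2 5 6 + 1 * S 2 6 1 5 = 0 := by
  linear_combination 1 * (h.cyc 2 1 5 6) + (-1) * (h.anti 1 2 5 6) + (-1) * (p2516 h) + (1/4) * (q39 h) + (-1/4) * (q40 h)

theorem q42 (h : Good S) : 1 * S 0 1 4 5 + 1 * S 0 4 1 5 + (3/4) * S 0 5 4 6 = 0 := by
  linear_combination 1 * (h.cyc 0 1 4 5) + (-1) * (p0514 h)

theorem q43 (h : Good S) : 1 * S 2 5 1 3 + 1 * S 2 6 1 3 + 1 * S 1 2 5 6 = 0 := by
  linear_combination (-4/3) * (h.cyc 2 0 5 6) + (4/3) * (h.anti 0 2 5 6) + (4/3) * (p2506 h) + (4/3) * (p2605 h) + (-4/3) * (q27 h) + (-4/3) * (q28 h) + (1/4) * (q39 h) + (-1/4) * (q40 h) + (-1) * (q41 h)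

theorem q44 (h : Good S) : (-1/3) * S 0 4 5 6 + (-1/4) * S 4 5 1 3 + 1 * S 4 6 2 3 = 0 := by
  linear_combination (1/3) * (h.cyc 4 0 5 6) + (-1/3) * (h.anti 0 4 5 6) + (-1/3) * (p4506 h) + (-1/3) * (p4605 h) + (1/4) * (q8 h) + (1/4) * (q30 h) + (-1/12) * (q31 h) + (-1) * (q33 h) + (1/4) * (q40 h)

theorem q45 (h : Good S) : 1 * S 5 6 2 3 + (1/3) * S 3 5 4 6 = 0 := by
  linear_combination 1 * (h.cyc 3 2 5 6) + (-1) * (h.anti 2 3 5 6) + 1 * (p2356 h) + (-1) * (p3625 h) + (-1) * (q3 h) + (1/3) * (q24 h)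

theorem q46 (h : Good S) : 1 * S 3 5 4 6 = 0 := by
  linear_combination (-12/13) * (h.cyc 5 1 3 6) + (12/13) * (h.anti 1 5 3 6) + (-12/13) * (p1536 h) + (12/13) * (h.anti 3 5 1 6) + (-12/13) * (p3516 h) + (12/13) * (p5613 h) + (48/13) * (q45 h)

theorem q47 (h : Good S) : 1 * S 1 3 4 5 + (-1) * S 4 5 1 3 = 0 := by
  linear_combination (-1) * (h.cyc 3 1 4 5) + 1 * (h.anti 1 3 4 5) + 1 * (p3514 h) + 1 * (q32 h) + (3/4) * (q46 h)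

theorem q48 (h : Good S) : 1 * S 0 5 4 6 + (-12) * S 1 5 2 3 = 0 := by
  linear_combination (-4) * (h.cyc 5 0 1 3) + 4 * (h.anti 0 5 1 3) + (-4) * (p0513 h) + 4 * (h.anti 1 5 0 3) + (-4) * (p1503 h) + 4 * (h.anti 3 5 0 1) + (-4) * (p3501 h) + (1/4) * (q46 h)

theorem q49 (h : Good S) : (-3/4) * S 2 3 4 6 + 1 * S 3 4 1 2 + (-4/3) * S 4 5 1 3 = 0 := by
  linear_combination (-1) * (h.cyc 2 1 3 4) + 1 * (h.anti 1 2 3 4) + 1 * (p2314 h) + (-1) * (q20 h) + 1 * (q34 h) + (4/3) * (q47 h)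

theorem q50 (h : Good S) : 1 * S 0 1 5 6 + (-3) * S 1 6 2 3 + (-3) * S 1 5 2 3 = 0 := by
  linear_combination 1 * (h.cyc 0 1 5 6) + (-1) * (p0516 h) + (-1) * (q35 h) + 1 * (q45 h) + (-1/3) * (q46 h) + (1/4) * (q48 h)

theorem q51 (h : Good S) : 1 * S 0 3 4 6 + 9 * S 1 5 2 3 + (-3) * S 1 6 2 3 = 0 := by
  linear_combination 4 * (h.cyc 0 1 3 5) + (-4) * (p0135 h) + (-4) * (p0315 h) + (-4) * (p0513 h) + (-1) * (q48 h) + 1 * (q50 h)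

theorem q52 (h : Good S) : 1 * S 1 6 2 3 + 1 * S 1 5 2 3 = 0 := by
  linear_combination (1/5) * (h.cyc 1 0 2 6) + (-1/5) * (h.anti 0 1 2 6) + (1/5) * (p0126 h) + (-1/5) * (p1602 h) + (4/15) * (q16 h) + (-1/5) * (q36 h) + (4/15) * (q42 h) + (-1/5) * (q48 h) + (2/15) * (q50 h) + (-1/5) * (q51 h)

theorem q53 (h : Good S) : 1 * S 0 6 4 5 + (9/4) * S 2 6 1 3 + (9/4) * S 1 2 5 6 = 0 := by
  linear_combination (-3) * (h.cyc 5 0 2 6) + 3 * (h.anti 0 5 2 6) + 3 * (h.anti 2 5 0 6) + (-3) * (p2506 h) + 3 * (p5602 h) + (-3) * (q13 h) + 3 * (q27 h) + 3 * (q28 h) + (-9/16) * (q39 h) + (9/16) * (q40 h) + (9/4) * (q43 h) + 12 * (q45 h) + (-4) * (q46 h)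

theorem q54 (h : Good S) : 1 * S 1 4 2 3 + (-1/12) * S 4 5 1 3 + (-1/3) * S 0 1 4 5 + (-3) * S 1 5 2 3 = 0 := by
  linear_combination (1/3) * (h.cyc 4 0 1 3) + (-1/3) * (h.anti 0 4 1 3) + (1/3) * (p0413 h) + (-1/3) * (h.anti 1 4 0 3) + (1/3) * (p1403 h) + (-1/3) * (h.anti 3 4 0 1) + (1/3) * (p3401 h) + (1/12) * (q32 h) + (-1/3) * (q42 h) + (1/4) * (q48 h)

theorem q55 (h : Good S) : (-3) * S 1 2 5 6 + 1 * S 2 3 4 6 + (-4) * S 2 6 1 3 = 0 := by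
  linear_combination 4 * (h.cyc 2 1 3 5) + (-4) * (h.anti 1 2 3 5) + 4 * (p1235 h) + (-4) * (q29 h) + (-4) * (q43 h)

theorem q56 (h : Good S) : 1 * S 0 2 4 6 + (-4/3) * S 0 1 4 5 + (-16) * S 1 5 2 3 + 1 * S 2 6 1 3 + 1 * S 1 2 5 6 = 0 := by
  linear_combination (-4) * (h.cyc 2 0 1 5) + 4 * (h.anti 0 2 1 5) + (-4) * (p0215 h) + 4 * (h.anti 1 2 0 5) + (-4) * (p1205 h) + 4 * (p2501 h) + (-16/3) * (q6 h) + (-8/3) * (q27 h) + (-8) * (q28 h) + 4 * (q36 h) + (-1/4) * (q39 h) + (1/4) * (q40 h) + 1 * (q43 h)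

theorem q57 (h : Good S) : (15/52) * S 1 2 5 6 + 1 * S 0 1 4 5 + (165/13) * S 1 5 2 3 + (-51/52) * S 4 5 1 3 = 0 := by
  linear_combination (-12/13) * (h.cyc 2 0 1 4) + (12/13) * (h.anti 0 2 1 4) + (-12/13) * (p0214 h) + (12/13) * (h.anti 1 2 0 4) + (-12/13) * (p1204 h) + (12/13) * (p2401 h) + (3/13) * (q9 h) + (-12/13) * (q20 h) + (3/13) * (q34 h) + (-12/13) * (q36 h) + (-9/52) * (q39 h) + (9/52) * (q40 h) + (16/13) * (q47 h) + (-3/13) * (q49 h) + (9/13) * (q54 h) + (-9/52) * (q55 h) + (-9/13) * (q56 h)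

theorem q58 (h : Good S) : (-1/4) * S 1 2 5 6 + 1 * S 1 5 2 3 + (-1/3) * S 4 5 1 3 = 0 := by
  linear_combination 1 * (h.cyc 1 2 3 5) + (-1) * (p1235 h) + (-1) * (p1325 h) + (1/3) * (q47 h)

theorem q59 (h : Good S) : 1 * S 1 2 5 6 + (13/15) * S 4 5 1 3 = 0 := by
  linear_combination (4/15) * (h.cyc 1 0 2 4) + (-4/15) * (h.anti 0 1 2 4) + (4/15) * (p0124 h) + (-4/15) * (p1204 h) + (-4/15) * (p1402 h) + (-4/15) * (q20 h) + (-4/15) * (q36 h) + (16/45) * (q47 h) + (-4/5) * (q54 h) + (-52/15) * (q58 h)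

theorem q60 (h : Good S) : 1 * S 0 4 5 6 + (-39/8) * S 2 6 1 3 + (13/2) * S 4 5 1 3 = 0 := by
  linear_combination (-3/2) * (h.cyc 0 1 2 4) + (3/2) * (p0124 h) + (3/2) * (p0214 h) + (3/2) * (p0412 h) + (3/2) * (q17 h) + (3/2) * (q42 h) + (-9/8) * (q48 h) + (-2) * (q53 h) + (-3/8) * (q56 h) + (-39/2) * (q58 h)

theorem q61 (h : Good S) : 1 * S 2 6 1 3 + (-6/5) * S 4 5 1 3 = 0 := by
  linear_combination (-8/7) * (h.cyc 0 1 2 6) + (8/7) * (p0126 h) + (8/7) * (p0216 h) + (8/7) * (p0612 h) + (32/21) * (q16 h) + (-32/21) * (q19 h) + (8/7) * (q35 h) + (32/21) * (q42 h) + (-8/7) * (q45 h) + (8/21) * (q46 h) + (-8/7) * (q48 h) + (16/21) * (q50 h) + (8/21) * (q51 h) + (-40/21) * (q53 h) + (-2/7) * (q56 h) + (-136/7) * (q58 h) + (-2/7) * (q59 h) + (-8/7) * (q60 h)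

theorem q62 (h : Good S) : 1 * S 4 5 1 3 = 0 := by
  linear_combination (-6/13) * (h.cyc 4 0 2 6) + (6/13) * (h.anti 0 4 2 6) + (6/13) * (h.anti 2 4 0 6) + (-6/13) * (p2406 h) + (6/13) * (p4602 h) + (-6/13) * (q17 h) + (9/26) * (q34 h) + (3/13) * (q40 h) + (24/13) * (q44 h) + (-9/26) * (q49 h) + (8/13) * (q53 h) + (-9/26) * (q54 h) + (-27/104) * (q55 h) + (6/13) * (q56 h) + (1/2) * (q57 h) + (-36/13) * (q59 h) + (8/13) * (q60 h) + (3/26) * (q61 h)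

theorem z62 (h : Good S) : S 4 5 1 3 = 0 := by
  linear_combination 1 * (q62 h)

theorem z61 (h : Good S) : S 2 6 1 3 = 0 := by
  linear_combination 1 * (q61 h) + (6/5) * (z62 h)

theorem z60 (h : Good S) : S 0 4 5 6 = 0 := by
  linear_combination 1 * (q60 h) + (39/8) * (z61 h) + (-13/2) * (z62 h)

theorem z59 (h : Good S) : S 1 2 5 6 = 0 := by
  linear_combination 1 * (q59 h) + (-13/15) * (z62 h)

theorem z58 (h : Good S) : S 1 5 2 3 = 0 := by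
  linear_combination 1 * (q58 h) + (1/4) * (z59 h) + (1/3) * (z62 h)

theorem z57 (h : Good S) : S 0 1 4 5 = 0 := by
  linear_combination 1 * (q57 h) + (-15/52) * (z59 h) + (-165/13) * (z58 h) + (51/52) * (z62 h)

theorem z56 (h : Good S) : S 0 2 4 6 = 0 := by
  linear_combination 1 * (q56 h) + (4/3) * (z57 h) + 16 * (z58 h) + (-1) * (z61 h) + (-1) * (z59 h)

theorem z55 (h : Good S) : S 2 3 4 6 = 0 := by
  linear_combination 1 * (q55 h) + 3 * (z59 h) + 4 * (z61 h)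

theorem z54 (h : Good S) : S 1 4 2 3 = 0 := by
  linear_combination 1 * (q54 h) + (1/12) * (z62 h) + (1/3) * (z57 h) + 3 * (z58 h)

theorem z53 (h : Good S) : S 0 6 4 5 = 0 := by
  linear_combination 1 * (q53 h) + (-9/4) * (z61 h) + (-9/4) * (z59 h)

theorem z52 (h : Good S) : S 1 6 2 3 = 0 := by
  linear_combination 1 * (q52 h) + (-1) * (z58 h)

theorem z51 (h : Good S) : S 0 3 4 6 = 0 := by
  linear_combination 1 * (q51 h) + (-9) * (z58 h) + 3 * (z52 h)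

theorem z50 (h : Good S) : S 0 1 5 6 = 0 := by
  linear_combination 1 * (q50 h) + 3 * (z52 h) + 3 * (z58 h)

theorem z49 (h : Good S) : S 3 4 1 2 = 0 := by
  linear_combination 1 * (q49 h) + (3/4) * (z55 h) + (4/3) * (z62 h)

theorem z48 (h : Good S) : S 0 5 4 6 = 0 := by
  linear_combination 1 * (q48 h) + 12 * (z58 h)

theorem z47 (h : Good S) : S 1 3 4 5 = 0 := by
  linear_combination 1 * (q47 h) + 1 * (z62 h)

theorem z46 (h : Good S) : S 3 5 4 6 = 0 := by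
  linear_combination 1 * (q46 h)

theorem z45 (h : Good S) : S 5 6 2 3 = 0 := by
  linear_combination 1 * (q45 h) + (-1/3) * (z46 h)

theorem z44 (h : Good S) : S 4 6 2 3 = 0 := by
  linear_combination 1 * (q44 h) + (1/3) * (z60 h) + (1/4) * (z62 h)

theorem z43 (h : Good S) : S 2 5 1 3 = 0 := by
  linear_combination 1 * (q43 h) + (-1) * (z61 h) + (-1) * (z59 h)

theorem z42 (h : Good S) : S 0 4 1 5 = 0 := by
  linear_combination 1 * (q42 h) + (-1) * (z57 h) + (-3/4) * (z48 h)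

theorem z41 (h : Good S) : S 2 6 1 5 = 0 := by
  linear_combination 1 * (q41 h) + 1 * (z59 h)

theorem z40 (h : Good S) : S 2 4 5 6 = 0 := by
  linear_combination 1 * (q40 h)

theorem z39 (h : Good S) : S 2 5 4 6 = 0 := by
  linear_combination 1 * (q39 h) + (-1) * (z40 h)

theorem z38 (h : Good S) : S 3 4 2 6 = 0 := by
  linear_combination 1 * (q38 h) + 1 * (z55 h) + (4/3) * (z46 h)

theorem z37 (h : Good S) : S 1 3 0 6 = 0 := by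
  linear_combination 1 * (q37 h) + (1/4) * (z50 h) + (-3) * (z58 h)

theorem z36 (h : Good S) : S 1 2 0 6 = 0 := by
  linear_combination 1 * (q36 h) + (1/3) * (z57 h) + 4 * (z58 h)

theorem z35 (h : Good S) : S 0 6 1 5 = 0 := by
  linear_combination 1 * (q35 h) + (-3) * (z52 h) + (-1) * (z45 h)

theorem z34 (h : Good S) : S 2 4 1 3 = 0 := by
  linear_combination 1 * (q34 h) + (-1) * (z54 h) + (-1) * (z49 h)

theorem z33 (h : Good S) : S 4 5 2 3 = 0 := by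
  linear_combination 1 * (q33 h) + (-1/4) * (z40 h)

theorem z32 (h : Good S) : S 3 4 1 5 = 0 := by
  linear_combination 1 * (q32 h) + 1 * (z62 h)

theorem z31 (h : Good S) : S 1 4 5 6 = 0 := by
  linear_combination 1 * (q31 h)

theorem z30 (h : Good S) : S 4 6 1 3 = 0 := by
  linear_combination 1 * (q30 h) + (-4/3) * (z31 h)

theorem z29 (h : Good S) : S 2 3 1 5 = 0 := by
  linear_combination 1 * (q29 h) + (1/4) * (z55 h)

theorem z28 (h : Good S) : S 2 3 0 6 = 0 := by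
  linear_combination 1 * (q28 h)

theorem z27 (h : Good S) : S 0 2 5 6 = 0 := by
  linear_combination 1 * (q27 h) + 1 * (z28 h)

theorem z26 (h : Good S) : S 0 3 4 5 = 0 := by
  linear_combination 1 * (q26 h) + (-3/4) * (z28 h)

theorem z25 (h : Good S) : S 1 6 4 5 = 0 := by
  linear_combination 1 * (q25 h) + (-1) * (z31 h)

theorem z24 (h : Good S) : S 3 6 4 5 = 0 := by
  linear_combination 1 * (q24 h) + (-1) * (z46 h)

theorem z23 (h : Good S) : S 2 6 3 4 = 0 := by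
  linear_combination 1 * (q23 h) + (-1) * (z55 h) + (3/4) * (z40 h)

theorem z22 (h : Good S) : S 1 5 3 4 = 0 := by
  linear_combination 1 * (q22 h) + (-1) * (z47 h) + (1/4) * (z31 h)

theorem z21 (h : Good S) : S 1 3 2 6 = 0 := by
  linear_combination 1 * (q21 h) + (3/4) * (z59 h) + (-1) * (z52 h)

theorem z20 (h : Good S) : S 1 2 3 4 = 0 := by
  linear_combination 1 * (q20 h) + (-4/3) * (z47 h) + (-1) * (z54 h)

theorem z19 (h : Good S) : S 0 6 3 4 = 0 := by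
  linear_combination 1 * (q19 h) + (-1) * (z51 h) + (3/4) * (z60 h)

theorem z18 (h : Good S) : S 0 5 3 4 = 0 := by
  linear_combination 1 * (q18 h) + (-1) * (z26 h) + (1/4) * (z60 h)

theorem z17 (h : Good S) : S 0 4 2 6 = 0 := by
  linear_combination 1 * (q17 h) + (-1) * (z56 h) + (-4/3) * (z53 h)

theorem z16 (h : Good S) : S 0 1 3 4 = 0 := by
  linear_combination 1 * (q16 h) + (-3/4) * (z51 h) + 1 * (z42 h)

theorem z15 (h : Good S) : S 5 6 1 2 = 0 := by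
  linear_combination 1 * (q15 h) + (1/3) * (z25 h) + (-1) * (z41 h)

theorem z14 (h : Good S) : S 1 5 2 6 = 0 := by
  linear_combination 1 * (q14 h) + (-1) * (z59 h) + (1/3) * (z25 h)

theorem z13 (h : Good S) : S 0 5 2 6 = 0 := by
  linear_combination 1 * (q13 h) + (-1) * (z27 h) + (1/3) * (z53 h)

theorem z12 (h : Good S) : S 3 6 1 2 = 0 := by
  linear_combination 1 * (q12 h) + (-1) * (z52 h) + (-1) * (z61 h)

theorem z11 (h : Good S) : S 3 5 1 2 = 0 := by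
  linear_combination 1 * (q11 h) + (-1) * (z58 h) + (-1) * (z43 h)

theorem z10 (h : Good S) : S 3 6 1 5 = 0 := by
  linear_combination 1 * (q10 h) + (1/4) * (z46 h)

theorem z9 (h : Good S) : S 2 4 1 5 = 0 := by
  linear_combination 1 * (q9 h) + (-3/4) * (z39 h)

theorem z8 (h : Good S) : S 4 6 1 5 = 0 := by
  linear_combination 1 * (q8 h) + 1 * (z31 h)

theorem z7 (h : Good S) : S 1 4 2 6 = 0 := by
  linear_combination 1 * (q7 h) + (-1) * (z30 h)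

theorem z6 (h : Good S) : S 0 2 3 4 = 0 := by
  linear_combination 1 * (q6 h) + 1 * (z28 h)

theorem z5 (h : Good S) : S 1 6 3 4 = 0 := by
  linear_combination 1 * (q5 h) + (-1) * (z30 h)

theorem z4 (h : Good S) : S 5 6 3 4 = 0 := by
  linear_combination 1 * (q4 h) + 1 * (z46 h)

theorem z3 (h : Good S) : S 3 5 2 6 = 0 := by
  linear_combination 1 * (q3 h) + 1 * (z45 h)

theorem z2 (h : Good S) : S 2 5 3 4 = 0 := by
  linear_combination 1 * (q2 h) + (-1) * (z33 h)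

theorem z1 (h : Good S) : S 4 5 2 6 = 0 := by
  linear_combination 1 * (q1 h) + 1 * (z40 h)

theorem z0 (h : Good S) : S 0 3 2 6 = 0 := by
  linear_combination 1 * (q0 h) + (-1) * (z28 h)

theorem w0123 (h : Good S) : S 0 1 2 3 = 0 := by
  linear_combination 1 * (p0123 h)

theorem w0124 (h : Good S) : S 0 1 2 4 = 0 := by
  linear_combination 1 * (p0124 h) + (4/3) * (z57 h)

theorem w0125 (h : Good S) : S 0 1 2 5 = 0 := by
  linear_combination 1 * (p0125 h) + (-1/3) * (z57 h)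

theorem w0126 (h : Good S) : S 0 1 2 6 = 0 := by
  linear_combination 1 * (p0126 h) + (4/3) * (z16 h) + (5/3) * (z57 h) + (2/3) * (z50 h)

theorem w0135 (h : Good S) : S 0 1 3 5 = 0 := by
  linear_combination 1 * (p0135 h) + (-1/4) * (z50 h)

theorem w0136 (h : Good S) : S 0 1 3 6 = 0 := by
  linear_combination 1 * (p0136 h) + (-3/4) * (z50 h)

theorem w0146 (h : Good S) : S 0 1 4 6 = 0 := by
  linear_combination 1 * (p0146 h)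

theorem w0213 (h : Good S) : S 0 2 1 3 = 0 := by
  linear_combination 1 * (p0213 h) + (-4/3) * (z6 h) + (-2/3) * (z27 h)

theorem w0214 (h : Good S) : S 0 2 1 4 = 0 := by
  linear_combination 1 * (p0214 h) + (3/4) * (z56 h)

theorem w0215 (h : Good S) : S 0 2 1 5 = 0 := by
  linear_combination 1 * (p0215 h) + (4/3) * (z6 h) + (1/4) * (z56 h) + (2/3) * (z27 h)

theorem w0216 (h : Good S) : S 0 2 1 6 = 0 := by
  linear_combination 1 * (p0216 h) + (-1/4) * (z56 h)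

theorem w0235 (h : Good S) : S 0 2 3 5 = 0 := by
  linear_combination 1 * (p0235 h) + (-1/4) * (z27 h)

theorem w0236 (h : Good S) : S 0 2 3 6 = 0 := by
  linear_combination 1 * (p0236 h) + (-3/4) * (z27 h)

theorem w0245 (h : Good S) : S 0 2 4 5 = 0 := by
  linear_combination 1 * (p0245 h)

theorem w0312 (h : Good S) : S 0 3 1 2 = 0 := by
  linear_combination 1 * (p0312 h) + 1 * (z0 h) + (-5/3) * (z26 h)

theorem w0314 (h : Good S) : S 0 3 1 4 = 0 := by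
  linear_combination 1 * (p0314 h) + (3/4) * (z51 h)

theorem w0315 (h : Good S) : S 0 3 1 5 = 0 := by
  linear_combination 1 * (p0315 h) + (1/4) * (z51 h)

theorem w0316 (h : Good S) : S 0 3 1 6 = 0 := by
  linear_combination 1 * (p0316 h) + (-1/4) * (z51 h)

theorem w0324 (h : Good S) : S 0 3 2 4 = 0 := by
  linear_combination 1 * (p0324 h) + (4/3) * (z26 h)

theorem w0325 (h : Good S) : S 0 3 2 5 = 0 := by
  linear_combination 1 * (p0325 h) + (-1/3) * (z26 h)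

theorem w0356 (h : Good S) : S 0 3 5 6 = 0 := by
  linear_combination 1 * (p0356 h)

theorem w0412 (h : Good S) : S 0 4 1 2 = 0 := by
  linear_combination 1 * (p0412 h) + 1 * (z42 h) + 1 * (z17 h) + (-2/3) * (z60 h)

theorem w0413 (h : Good S) : S 0 4 1 3 = 0 := by
  linear_combination 1 * (p0413 h) + (-1) * (z42 h)

theorem w0416 (h : Good S) : S 0 4 1 6 = 0 := by
  linear_combination 1 * (p0416 h)

theorem w0423 (h : Good S) : S 0 4 2 3 = 0 := by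
  linear_combination 1 * (p0423 h)

theorem w0425 (h : Good S) : S 0 4 2 5 = 0 := by
  linear_combination 1 * (p0425 h)

theorem w0435 (h : Good S) : S 0 4 3 5 = 0 := by
  linear_combination 1 * (p0435 h) + (-1/4) * (z60 h)

theorem w0436 (h : Good S) : S 0 4 3 6 = 0 := by
  linear_combination 1 * (p0436 h) + (-3/4) * (z60 h)

theorem w0512 (h : Good S) : S 0 5 1 2 = 0 := by
  linear_combination 1 * (p0512 h) + 1 * (z13 h) + (-4/3) * (z18 h) + (-1/4) * (z48 h)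

theorem w0513 (h : Good S) : S 0 5 1 3 = 0 := by
  linear_combination 1 * (p0513 h) + (1/4) * (z48 h)

theorem w0514 (h : Good S) : S 0 5 1 4 = 0 := by
  linear_combination 1 * (p0514 h) + (3/4) * (z48 h)

theorem w0516 (h : Good S) : S 0 5 1 6 = 0 := by
  linear_combination 1 * (p0516 h) + (-1/4) * (z48 h)

theorem w0523 (h : Good S) : S 0 5 2 3 = 0 := by
  linear_combination 1 * (p0523 h)

theorem w0524 (h : Good S) : S 0 5 2 4 = 0 := by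
  linear_combination 1 * (p0524 h)

theorem w0536 (h : Good S) : S 0 5 3 6 = 0 := by
  linear_combination 1 * (p0536 h)

theorem w0612 (h : Good S) : S 0 6 1 2 = 0 := by
  linear_combination 1 * (p0612 h) + 1 * (z35 h) + (-4/3) * (z19 h) + (-5/3) * (z53 h)

theorem w0613 (h : Good S) : S 0 6 1 3 = 0 := by
  linear_combination 1 * (p0613 h) + (-1) * (z35 h)

theorem w0614 (h : Good S) : S 0 6 1 4 = 0 := by
  linear_combination 1 * (p0614 h)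

theorem w0623 (h : Good S) : S 0 6 2 3 = 0 := by
  linear_combination 1 * (p0623 h)

theorem w0624 (h : Good S) : S 0 6 2 4 = 0 := by
  linear_combination 1 * (p0624 h) + (4/3) * (z53 h)

theorem w0625 (h : Good S) : S 0 6 2 5 = 0 := by
  linear_combination 1 * (p0625 h) + (-1/3) * (z53 h)

theorem w0635 (h : Good S) : S 0 6 3 5 = 0 := by
  linear_combination 1 * (p0635 h)

theorem w1203 (h : Good S) : S 1 2 0 3 = 0 := by
  linear_combination 1 * (p1203 h)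

theorem w1204 (h : Good S) : S 1 2 0 4 = 0 := by
  linear_combination 1 * (p1204 h) + 1 * (z36 h) + 1 * (z20 h) + (1/2) * (z59 h)

theorem w1205 (h : Good S) : S 1 2 0 5 = 0 := by
  linear_combination 1 * (p1205 h) + (-1) * (z36 h)

theorem w1235 (h : Good S) : S 1 2 3 5 = 0 := by
  linear_combination 1 * (p1235 h) + (-1/4) * (z59 h)

theorem w1236 (h : Good S) : S 1 2 3 6 = 0 := by
  linear_combination 1 * (p1236 h) + (-3/4) * (z59 h)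

theorem w1245 (h : Good S) : S 1 2 4 5 = 0 := by
  linear_combination 1 * (p1245 h)

theorem w1246 (h : Good S) : S 1 2 4 6 = 0 := by
  linear_combination 1 * (p1246 h)

theorem w1302 (h : Good S) : S 1 3 0 2 = 0 := by
  linear_combination 1 * (p1302 h)

theorem w1304 (h : Good S) : S 1 3 0 4 = 0 := by
  linear_combination 1 * (p1304 h) + 1 * (z37 h) + (-3/4) * (z21 h) + (5/4) * (z47 h)

theorem w1305 (h : Good S) : S 1 3 0 5 = 0 := by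
  linear_combination 1 * (p1305 h) + (-1) * (z37 h)

theorem w1324 (h : Good S) : S 1 3 2 4 = 0 := by
  linear_combination 1 * (p1324 h) + (4/3) * (z47 h)

theorem w1325 (h : Good S) : S 1 3 2 5 = 0 := by
  linear_combination 1 * (p1325 h) + (-1/3) * (z47 h)

theorem w1346 (h : Good S) : S 1 3 4 6 = 0 := by
  linear_combination 1 * (p1346 h)

theorem w1356 (h : Good S) : S 1 3 5 6 = 0 := by
  linear_combination 1 * (p1356 h)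

theorem w1402 (h : Good S) : S 1 4 0 2 = 0 := by
  linear_combination 1 * (p1402 h) + 4 * (z54 h)

theorem w1403 (h : Good S) : S 1 4 0 3 = 0 := by
  linear_combination 1 * (p1403 h) + (-3) * (z54 h)

theorem w1405 (h : Good S) : S 1 4 0 5 = 0 := by
  linear_combination 1 * (p1405 h) + 3 * (z54 h) + (-3/4) * (z7 h) + (1/2) * (z31 h)

theorem w1406 (h : Good S) : S 1 4 0 6 = 0 := by
  linear_combination 1 * (p1406 h) + (3/4) * (z7 h) + (-1/2) * (z31 h)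

theorem w1425 (h : Good S) : S 1 4 2 5 = 0 := by
  linear_combination 1 * (p1425 h)

theorem w1435 (h : Good S) : S 1 4 3 5 = 0 := by
  linear_combination 1 * (p1435 h) + (-1/4) * (z31 h)

theorem w1436 (h : Good S) : S 1 4 3 6 = 0 := by
  linear_combination 1 * (p1436 h) + (-3/4) * (z31 h)

theorem w1502 (h : Good S) : S 1 5 0 2 = 0 := by
  linear_combination 1 * (p1502 h) + 4 * (z58 h)

theorem w1503 (h : Good S) : S 1 5 0 3 = 0 := by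
  linear_combination 1 * (p1503 h) + (-3) * (z58 h)

theorem w1504 (h : Good S) : S 1 5 0 4 = 0 := by
  linear_combination 1 * (p1504 h) + 3 * (z58 h) + (-3/4) * (z14 h) + 1 * (z22 h)

theorem w1506 (h : Good S) : S 1 5 0 6 = 0 := by
  linear_combination 1 * (p1506 h) + 3 * (z58 h)

theorem w1524 (h : Good S) : S 1 5 2 4 = 0 := by
  linear_combination 1 * (p1524 h)

theorem w1536 (h : Good S) : S 1 5 3 6 = 0 := by
  linear_combination 1 * (p1536 h)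

theorem w1546 (h : Good S) : S 1 5 4 6 = 0 := by
  linear_combination 1 * (p1546 h)

theorem w1602 (h : Good S) : S 1 6 0 2 = 0 := by
  linear_combination 1 * (p1602 h) + 4 * (z52 h)

theorem w1603 (h : Good S) : S 1 6 0 3 = 0 := by
  linear_combination 1 * (p1603 h) + (-3) * (z52 h)

theorem w1604 (h : Good S) : S 1 6 0 4 = 0 := by
  linear_combination 1 * (p1604 h) + 1 * (z5 h) + (5/4) * (z25 h)

theorem w1605 (h : Good S) : S 1 6 0 5 = 0 := by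
  linear_combination 1 * (p1605 h) + 3 * (z52 h)

theorem w1624 (h : Good S) : S 1 6 2 4 = 0 := by
  linear_combination 1 * (p1624 h) + (4/3) * (z25 h)

theorem w1625 (h : Good S) : S 1 6 2 5 = 0 := by
  linear_combination 1 * (p1625 h) + (-1/3) * (z25 h)

theorem w1635 (h : Good S) : S 1 6 3 5 = 0 := by
  linear_combination 1 * (p1635 h)

theorem w2301 (h : Good S) : S 2 3 0 1 = 0 := by
  linear_combination 1 * (p2301 h) + (1/4) * (z29 h) + (-1/16) * (z55 h)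

theorem w2304 (h : Good S) : S 2 3 0 4 = 0 := by
  linear_combination 1 * (p2304 h) + 1 * (z28 h)

theorem w2305 (h : Good S) : S 2 3 0 5 = 0 := by
  linear_combination 1 * (p2305 h) + (-1) * (z28 h) + (-3/4) * (z29 h) + (3/16) * (z55 h)

theorem w2314 (h : Good S) : S 2 3 1 4 = 0 := by
  linear_combination 1 * (p2314 h) + (3/4) * (z55 h)

theorem w2316 (h : Good S) : S 2 3 1 6 = 0 := by
  linear_combination 1 * (p2316 h) + (-1/4) * (z55 h)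

theorem w2345 (h : Good S) : S 2 3 4 5 = 0 := by
  linear_combination 1 * (p2345 h)

theorem w2356 (h : Good S) : S 2 3 5 6 = 0 := by
  linear_combination 1 * (p2356 h)

theorem w2401 (h : Good S) : S 2 4 0 1 = 0 := by
  linear_combination 1 * (p2401 h) + (1/4) * (z34 h) + (1/4) * (z9 h)

theorem w2403 (h : Good S) : S 2 4 0 3 = 0 := by
  linear_combination 1 * (p2403 h)

theorem w2405 (h : Good S) : S 2 4 0 5 = 0 := by
  linear_combination 1 * (p2405 h) + (-3/4) * (z9 h) + (1/2) * (z40 h)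

theorem w2406 (h : Good S) : S 2 4 0 6 = 0 := by
  linear_combination 1 * (p2406 h) + (-3/4) * (z34 h) + (-1/2) * (z40 h)

theorem w2416 (h : Good S) : S 2 4 1 6 = 0 := by
  linear_combination 1 * (p2416 h)

theorem w2435 (h : Good S) : S 2 4 3 5 = 0 := by
  linear_combination 1 * (p2435 h) + (-1/4) * (z40 h)

theorem w2436 (h : Good S) : S 2 4 3 6 = 0 := by
  linear_combination 1 * (p2436 h) + (-3/4) * (z40 h)

theorem w2501 (h : Good S) : S 2 5 0 1 = 0 := by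
  linear_combination 1 * (p2501 h) + (1/4) * (z43 h) + (-1/16) * (z39 h)

theorem w2503 (h : Good S) : S 2 5 0 3 = 0 := by
  linear_combination 1 * (p2503 h)

theorem w2504 (h : Good S) : S 2 5 0 4 = 0 := by
  linear_combination 1 * (p2504 h) + 1 * (z2 h) + (3/16) * (z39 h)

theorem w2506 (h : Good S) : S 2 5 0 6 = 0 := by
  linear_combination 1 * (p2506 h) + (-3/4) * (z43 h) + (3/16) * (z39 h)

theorem w2514 (h : Good S) : S 2 5 1 4 = 0 := by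
  linear_combination 1 * (p2514 h) + (3/4) * (z39 h)

theorem w2516 (h : Good S) : S 2 5 1 6 = 0 := by
  linear_combination 1 * (p2516 h) + (-1/4) * (z39 h)

theorem w2536 (h : Good S) : S 2 5 3 6 = 0 := by
  linear_combination 1 * (p2536 h)

theorem w2601 (h : Good S) : S 2 6 0 1 = 0 := by
  linear_combination 1 * (p2601 h) + (1/4) * (z61 h) + (1/4) * (z41 h)

theorem w2603 (h : Good S) : S 2 6 0 3 = 0 := by
  linear_combination 1 * (p2603 h)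

theorem w2604 (h : Good S) : S 2 6 0 4 = 0 := by
  linear_combination 1 * (p2604 h) + (3/4) * (z61 h) + 1 * (z23 h)

theorem w2605 (h : Good S) : S 2 6 0 5 = 0 := by
  linear_combination 1 * (p2605 h) + (-3/4) * (z61 h) + (-3/4) * (z41 h)

theorem w2614 (h : Good S) : S 2 6 1 4 = 0 := by
  linear_combination 1 * (p2614 h)

theorem w2635 (h : Good S) : S 2 6 3 5 = 0 := by
  linear_combination 1 * (p2635 h)

theorem w2645 (h : Good S) : S 2 6 4 5 = 0 := by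
  linear_combination 1 * (p2645 h)

theorem w3401 (h : Good S) : S 3 4 0 1 = 0 := by
  linear_combination 1 * (p3401 h) + (1/4) * (z32 h)

theorem w3402 (h : Good S) : S 3 4 0 2 = 0 := by
  linear_combination 1 * (p3402 h)

theorem w3405 (h : Good S) : S 3 4 0 5 = 0 := by
  linear_combination 1 * (p3405 h) + (3/4) * (z49 h) + (-3/4) * (z32 h) + (-3/4) * (z38 h)

theorem w3406 (h : Good S) : S 3 4 0 6 = 0 := by
  linear_combination 1 * (p3406 h) + (-3/4) * (z49 h) + (3/4) * (z38 h)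

theorem w3416 (h : Good S) : S 3 4 1 6 = 0 := by
  linear_combination 1 * (p3416 h)

theorem w3425 (h : Good S) : S 3 4 2 5 = 0 := by
  linear_combination 1 * (p3425 h)

theorem w3456 (h : Good S) : S 3 4 5 6 = 0 := by
  linear_combination 1 * (p3456 h)

theorem w3501 (h : Good S) : S 3 5 0 1 = 0 := by
  linear_combination 1 * (p3501 h) + (-1/16) * (z46 h)

theorem w3502 (h : Good S) : S 3 5 0 2 = 0 := by
  linear_combination 1 * (p3502 h)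

theorem w3504 (h : Good S) : S 3 5 0 4 = 0 := by
  linear_combination 1 * (p3504 h) + (3/4) * (z11 h) + (-3/4) * (z3 h) + (3/16) * (z46 h)

theorem w3506 (h : Good S) : S 3 5 0 6 = 0 := by
  linear_combination 1 * (p3506 h) + (3/16) * (z46 h)

theorem w3514 (h : Good S) : S 3 5 1 4 = 0 := by
  linear_combination 1 * (p3514 h) + (3/4) * (z46 h)

theorem w3516 (h : Good S) : S 3 5 1 6 = 0 := by
  linear_combination 1 * (p3516 h) + (-1/4) * (z46 h)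

theorem w3524 (h : Good S) : S 3 5 2 4 = 0 := by
  linear_combination 1 * (p3524 h)

theorem w3601 (h : Good S) : S 3 6 0 1 = 0 := by
  linear_combination 1 * (p3601 h) + (1/4) * (z10 h)

theorem w3602 (h : Good S) : S 3 6 0 2 = 0 := by
  linear_combination 1 * (p3602 h)

theorem w3604 (h : Good S) : S 3 6 0 4 = 0 := by
  linear_combination 1 * (p3604 h) + (3/4) * (z12 h) + (5/4) * (z24 h)

theorem w3605 (h : Good S) : S 3 6 0 5 = 0 := by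
  linear_combination 1 * (p3605 h) + (-3/4) * (z10 h)

theorem w3614 (h : Good S) : S 3 6 1 4 = 0 := by
  linear_combination 1 * (p3614 h)

theorem w3624 (h : Good S) : S 3 6 2 4 = 0 := by
  linear_combination 1 * (p3624 h) + (4/3) * (z24 h)

theorem w3625 (h : Good S) : S 3 6 2 5 = 0 := by
  linear_combination 1 * (p3625 h) + (-1/3) * (z24 h)

theorem w4501 (h : Good S) : S 4 5 0 1 = 0 := by
  linear_combination 1 * (p4501 h) + (1/4) * (z62 h)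

theorem w4502 (h : Good S) : S 4 5 0 2 = 0 := by
  linear_combination 1 * (p4502 h) + 4 * (z33 h)

theorem w4503 (h : Good S) : S 4 5 0 3 = 0 := by
  linear_combination 1 * (p4503 h) + (-3) * (z33 h)

theorem w4506 (h : Good S) : S 4 5 0 6 = 0 := by
  linear_combination 1 * (p4506 h) + (-3/4) * (z62 h) + 3 * (z33 h)

theorem w4512 (h : Good S) : S 4 5 1 2 = 0 := by
  linear_combination 1 * (p4512 h) + (-4) * (z33 h) + 1 * (z1 h)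

theorem w4516 (h : Good S) : S 4 5 1 6 = 0 := by
  linear_combination 1 * (p4516 h)

theorem w4536 (h : Good S) : S 4 5 3 6 = 0 := by
  linear_combination 1 * (p4536 h)

theorem w4601 (h : Good S) : S 4 6 0 1 = 0 := by
  linear_combination 1 * (p4601 h) + (1/4) * (z30 h) + (1/4) * (z8 h)

theorem w4602 (h : Good S) : S 4 6 0 2 = 0 := by
  linear_combination 1 * (p4602 h) + 4 * (z44 h)

theorem w4603 (h : Good S) : S 4 6 0 3 = 0 := by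
  linear_combination 1 * (p4603 h) + (-3) * (z44 h)

theorem w4605 (h : Good S) : S 4 6 0 5 = 0 := by
  linear_combination 1 * (p4605 h) + (-3/4) * (z30 h) + (-3/4) * (z8 h) + 3 * (z44 h)

theorem w4612 (h : Good S) : S 4 6 1 2 = 0 := by
  linear_combination 1 * (p4612 h) + (-1) * (z30 h)

theorem w4625 (h : Good S) : S 4 6 2 5 = 0 := by
  linear_combination 1 * (p4625 h)

theorem w4635 (h : Good S) : S 4 6 3 5 = 0 := by
  linear_combination 1 * (p4635 h)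

theorem w5601 (h : Good S) : S 5 6 0 1 = 0 := by
  linear_combination 1 * (p5601 h) + 1 * (z45 h)

theorem w5602 (h : Good S) : S 5 6 0 2 = 0 := by
  linear_combination 1 * (p5602 h) + 4 * (z45 h)

theorem w5603 (h : Good S) : S 5 6 0 3 = 0 := by
  linear_combination 1 * (p5603 h) + (-3) * (z45 h)

theorem w5604 (h : Good S) : S 5 6 0 4 = 0 := by
  linear_combination 1 * (p5604 h) + (3/4) * (z15 h) + 3 * (z45 h) + 1 * (z4 h)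

theorem w5613 (h : Good S) : S 5 6 1 3 = 0 := by
  linear_combination 1 * (p5613 h) + 4 * (z45 h)

theorem w5614 (h : Good S) : S 5 6 1 4 = 0 := by
  linear_combination 1 * (p5614 h)

theorem w5624 (h : Good S) : S 5 6 2 4 = 0 := by
  linear_combination 1 * (p5624 h)

end Pool.Agent.KS6_81.GR
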