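import Pool.Agent.KS6_81.GR.Elim

/-!
# The symmetric part of a Koszul cocycle of the octahedral curve vanishes
-/

set_option autoImplicit false

namespace Pool.Agent.KS6_81.GR

variable {k : Type} [Field k] [CharZero k] {S : Fin 7 → Fin 7 → Fin 7 → Fin 7 → k}

/-- A part of the list of the unknowns. -/
def lst0 : List (Fin 7 × Fin 7 × Fin 7 × Fin 7) := [(0, 1, 2, 3), (0, 1, 2, 4), (0, 1, 2, 5), (0, 1, 2, 6), (0, 1, 3, 4), (0, 1, 3, 5), (0, 1, 3, 6), (0, 1, 4, 5), (0, 1, 4, 6), (0, 1, 5, 6), (0, 2, 1, 3), (0, 2, 1, 4), (0, 2, 1, 5), (0, 2, 1, 6), (0, 2, 3, 4), (0, 2, 3, 5), (0, 2, 3, 6), (0, 2, 4, 5), (0, 2, 4, 6), (0, 2, 5, 6), (0, 3, 1, 2), (0, 3, 1, 4), (0, 3, 1, 5), (0, 3, 1, 6), (0, 3, 2, 4), (0, 3, 2, 5), (0, 3, 2, 6), (0, 3, 4, 5), (0, 3, 4, 6), (0, 3, 5, 6)]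

theorem lst0_zero (h : Good S) : ∀ p ∈ lst0, S p.1 p.2.1 p.2.2.1 p.2.2.2 = 0 := by
  rw [lst0]
  refine List.forall_mem_cons.mpr ⟨w0123 h, ?_⟩
  refine List.forall_mem_cons.mpr ⟨w0124 h, ?_⟩
  refine List.forall_mem_cons.mpr ⟨w0125 h, ?_⟩
  refine List.forall_mem_cons.mpr ⟨w0126 h, ?_⟩
  refine List.forall_mem_cons.mpr ⟨z16 h, ?_⟩
  refine List.forall_mem_cons.mpr ⟨w0135 h, ?_⟩
  refine List.forall_mem_cons.mpr ⟨w0136 h, ?_⟩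
  refine List.forall_mem_cons.mpr ⟨z57 h, ?_⟩
  refine List.forall_mem_cons.mpr ⟨w0146 h, ?_⟩
  refine List.forall_mem_cons.mpr ⟨z50 h, ?_⟩
  refine List.forall_mem_cons.mpr ⟨w0213 h, ?_⟩
  refine List.forall_mem_cons.mpr ⟨w0214 h, ?_⟩
  refine List.forall_mem_cons.mpr ⟨w0215 h, ?_⟩
  refine List.forall_mem_cons.mpr ⟨w0216 h, ?_⟩
  refine List.forall_mem_cons.mpr ⟨z6 h, ?_⟩
  refine List.forall_mem_cons.mpr ⟨w0235 h, ?_⟩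
  refine List.forall_mem_cons.mpr ⟨w0236 h, ?_⟩
  refine List.forall_mem_cons.mpr ⟨w0245 h, ?_⟩
  refine List.forall_mem_cons.mpr ⟨z56 h, ?_⟩
  refine List.forall_mem_cons.mpr ⟨z27 h, ?_⟩
  refine List.forall_mem_cons.mpr ⟨w0312 h, ?_⟩
  refine List.forall_mem_cons.mpr ⟨w0314 h, ?_⟩
  refine List.forall_mem_cons.mpr ⟨w0315 h, ?_⟩
  refine List.forall_mem_cons.mpr ⟨w0316 h, ?_⟩
  refine List.forall_mem_cons.mpr ⟨w0324 h, ?_⟩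
  refine List.forall_mem_cons.mpr ⟨w0325 h, ?_⟩
  refine List.forall_mem_cons.mpr ⟨z0 h, ?_⟩
  refine List.forall_mem_cons.mpr ⟨z26 h, ?_⟩
  refine List.forall_mem_cons.mpr ⟨z51 h, ?_⟩
  refine List.forall_mem_cons.mpr ⟨w0356 h, ?_⟩
  intro p hp
  exact absurd hp List.not_mem_nil

/-- A part of the list of the unknowns. -/
def lst1 : List (Fin 7 × Fin 7 × Fin 7 × Fin 7) := [(0, 4, 1, 2), (0, 4, 1, 3), (0, 4, 1, 5), (0, 4, 1, 6), (0, 4, 2, 3), (0, 4, 2, 5), (0, 4, 2, 6), (0, 4, 3, 5), (0, 4, 3, 6), (0, 4, 5, 6), (0, 5, 1, 2), (0, 5, 1, 3), (0, 5, 1, 4), (0, 5, 1, 6), (0, 5, 2, 3), (0, 5, 2, 4), (0, 5, 2, 6), (0, 5, 3, 4), (0, 5, 3, 6), (0, 5, 4, 6), (0, 6, 1, 2), (0, 6, 1, 3), (0, 6, 1, 4), (0, 6, 1, 5), (0, 6, 2, 3), (0, 6, 2, 4), (0, 6, 2, 5), (0, 6, 3, 4), (0, 6, 3, 5), (0, 6, 4, 5)]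

theorem lst1_zero (h : Good S) : ∀ p ∈ lst1, S p.1 p.2.1 p.2.2.1 p.2.2.2 = 0 := by
  rw [lst1]
  refine List.forall_mem_cons.mpr ⟨w0412 h, ?_⟩
  refine List.forall_mem_cons.mpr ⟨w0413 h, ?_⟩
  refine List.forall_mem_cons.mpr ⟨z42 h, ?_⟩
  refine List.forall_mem_cons.mpr ⟨w0416 h, ?_⟩
  refine List.forall_mem_cons.mpr ⟨w0423 h, ?_⟩
  refine List.forall_mem_cons.mpr ⟨w0425 h, ?_⟩
  refine List.forall_mem_cons.mpr ⟨z17 h, ?_⟩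
  refine List.forall_mem_cons.mpr ⟨w0435 h, ?_⟩
  refine List.forall_mem_cons.mpr ⟨w0436 h, ?_⟩
  refine List.forall_mem_cons.mpr ⟨z60 h, ?_⟩
  refine List.forall_mem_cons.mpr ⟨w0512 h, ?_⟩
  refine List.forall_mem_cons.mpr ⟨w0513 h, ?_⟩
  refine List.forall_mem_cons.mpr ⟨w0514 h, ?_⟩
  refine List.forall_mem_cons.mpr ⟨w0516 h, ?_⟩
  refine List.forall_mem_cons.mpr ⟨w0523 h, ?_⟩
  refine List.forall_mem_cons.mpr ⟨w0524 h, ?_⟩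
  refine List.forall_mem_cons.mpr ⟨z13 h, ?_⟩
  refine List.forall_mem_cons.mpr ⟨z18 h, ?_⟩
  refine List.forall_mem_cons.mpr ⟨w0536 h, ?_⟩
  refine List.forall_mem_cons.mpr ⟨z48 h, ?_⟩
  refine List.forall_mem_cons.mpr ⟨w0612 h, ?_⟩
  refine List.forall_mem_cons.mpr ⟨w0613 h, ?_⟩
  refine List.forall_mem_cons.mpr ⟨w0614 h, ?_⟩
  refine List.forall_mem_cons.mpr ⟨z35 h, ?_⟩
  refine List.forall_mem_cons.mpr ⟨w0623 h, ?_⟩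
  refine List.forall_mem_cons.mpr ⟨w0624 h, ?_⟩
  refine List.forall_mem_cons.mpr ⟨w0625 h, ?_⟩
  refine List.forall_mem_cons.mpr ⟨z19 h, ?_⟩
  refine List.forall_mem_cons.mpr ⟨w0635 h, ?_⟩
  refine List.forall_mem_cons.mpr ⟨z53 h, ?_⟩
  intro p hp
  exact absurd hp List.not_mem_nil

/-- A part of the list of the unknowns. -/
def lst2 : List (Fin 7 × Fin 7 × Fin 7 × Fin 7) := [(1, 2, 0, 3), (1, 2, 0, 4), (1, 2, 0, 5), (1, 2, 0, 6), (1, 2, 3, 4), (1, 2, 3, 5), (1, 2, 3, 6), (1, 2, 4, 5), (1, 2, 4, 6), (1, 2, 5, 6), (1, 3, 0, 2), (1, 3, 0, 4), (1, 3, 0, 5), (1, 3, 0, 6), (1, 3, 2, 4), (1, 3, 2, 5), (1, 3, 2, 6), (1, 3, 4, 5), (1, 3, 4, 6), (1, 3, 5, 6), (1, 4, 0, 2), (1, 4, 0, 3), (1, 4, 0, 5), (1, 4, 0, 6), (1, 4, 2, 3), (1, 4, 2, 5), (1, 4, 2, 6), (1, 4, 3, 5), (1, 4, 3, 6), (1, 4, 5, 6)]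

theorem lst2_zero (h : Good S) : ∀ p ∈ lst2, S p.1 p.2.1 p.2.2.1 p.2.2.2 = 0 := by
  rw [lst2]
  refine List.forall_mem_cons.mpr ⟨w1203 h, ?_⟩
  refine List.forall_mem_cons.mpr ⟨w1204 h, ?_⟩
  refine List.forall_mem_cons.mpr ⟨w1205 h, ?_⟩
  refine List.forall_mem_cons.mpr ⟨z36 h, ?_⟩
  refine List.forall_mem_cons.mpr ⟨z20 h, ?_⟩
  refine List.forall_mem_cons.mpr ⟨w1235 h, ?_⟩
  refine List.forall_mem_cons.mpr ⟨w1236 h, ?_⟩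
  refine List.forall_mem_cons.mpr ⟨w1245 h, ?_⟩
  refine List.forall_mem_cons.mpr ⟨w1246 h, ?_⟩
  refine List.forall_mem_cons.mpr ⟨z59 h, ?_⟩
  refine List.forall_mem_cons.mpr ⟨w1302 h, ?_⟩
  refine List.forall_mem_cons.mpr ⟨w1304 h, ?_⟩
  refine List.forall_mem_cons.mpr ⟨w1305 h, ?_⟩
  refine List.forall_mem_cons.mpr ⟨z37 h, ?_⟩
  refine List.forall_mem_cons.mpr ⟨w1324 h, ?_⟩
  refine List.forall_mem_cons.mpr ⟨w1325 h, ?_⟩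
  refine List.forall_mem_cons.mpr ⟨z21 h, ?_⟩
  refine List.forall_mem_cons.mpr ⟨z47 h, ?_⟩
  refine List.forall_mem_cons.mpr ⟨w1346 h, ?_⟩
  refine List.forall_mem_cons.mpr ⟨w1356 h, ?_⟩
  refine List.forall_mem_cons.mpr ⟨w1402 h, ?_⟩
  refine List.forall_mem_cons.mpr ⟨w1403 h, ?_⟩
  refine List.forall_mem_cons.mpr ⟨w1405 h, ?_⟩
  refine List.forall_mem_cons.mpr ⟨w1406 h, ?_⟩
  refine List.forall_mem_cons.mpr ⟨z54 h, ?_⟩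
  refine List.forall_mem_cons.mpr ⟨w1425 h, ?_⟩
  refine List.forall_mem_cons.mpr ⟨z7 h, ?_⟩
  refine List.forall_mem_cons.mpr ⟨w1435 h, ?_⟩
  refine List.forall_mem_cons.mpr ⟨w1436 h, ?_⟩
  refine List.forall_mem_cons.mpr ⟨z31 h, ?_⟩
  intro p hp
  exact absurd hp List.not_mem_nil

/-- A part of the list of the unknowns. -/
def lst3 : List (Fin 7 × Fin 7 × Fin 7 × Fin 7) := [(1, 5, 0, 2), (1, 5, 0, 3), (1, 5, 0, 4), (1, 5, 0, 6), (1, 5, 2, 3), (1, 5, 2, 4), (1, 5, 2, 6), (1, 5, 3, 4), (1, 5, 3, 6), (1, 5, 4, 6), (1, 6, 0, 2), (1, 6, 0, 3), (1, 6, 0, 4), (1, 6, 0, 5), (1, 6, 2, 3), (1, 6, 2, 4), (1, 6, 2, 5), (1, 6, 3, 4), (1, 6, 3, 5), (1, 6, 4, 5), (2, 3, 0, 1), (2, 3, 0, 4), (2, 3, 0, 5), (2, 3, 0, 6), (2, 3, 1, 4), (2, 3, 1, 5), (2, 3, 1, 6), (2, 3, 4, 5), (2, 3, 4, 6), (2, 3, 5, 6)]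

theorem lst3_zero (h : Good S) : ∀ p ∈ lst3, S p.1 p.2.1 p.2.2.1 p.2.2.2 = 0 := by
  rw [lst3]
  refine List.forall_mem_cons.mpr ⟨w1502 h, ?_⟩
  refine List.forall_mem_cons.mpr ⟨w1503 h, ?_⟩
  refine List.forall_mem_cons.mpr ⟨w1504 h, ?_⟩
  refine List.forall_mem_cons.mpr ⟨w1506 h, ?_⟩
  refine List.forall_mem_cons.mpr ⟨z58 h, ?_⟩
  refine List.forall_mem_cons.mpr ⟨w1524 h, ?_⟩
  refine List.forall_mem_cons.mpr ⟨z14 h, ?_⟩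
  refine List.forall_mem_cons.mpr ⟨z22 h, ?_⟩
  refine List.forall_mem_cons.mpr ⟨w1536 h, ?_⟩
  refine List.forall_mem_cons.mpr ⟨w1546 h, ?_⟩
  refine List.forall_mem_cons.mpr ⟨w1602 h, ?_⟩
  refine List.forall_mem_cons.mpr ⟨w1603 h, ?_⟩
  refine List.forall_mem_cons.mpr ⟨w1604 h, ?_⟩
  refine List.forall_mem_cons.mpr ⟨w1605 h, ?_⟩
  refine List.forall_mem_cons.mpr ⟨z52 h, ?_⟩
  refine List.forall_mem_cons.mpr ⟨w1624 h, ?_⟩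
  refine List.forall_mem_cons.mpr ⟨w1625 h, ?_⟩
  refine List.forall_mem_cons.mpr ⟨z5 h, ?_⟩
  refine List.forall_mem_cons.mpr ⟨w1635 h, ?_⟩
  refine List.forall_mem_cons.mpr ⟨z25 h, ?_⟩
  refine List.forall_mem_cons.mpr ⟨w2301 h, ?_⟩
  refine List.forall_mem_cons.mpr ⟨w2304 h, ?_⟩
  refine List.forall_mem_cons.mpr ⟨w2305 h, ?_⟩
  refine List.forall_mem_cons.mpr ⟨z28 h, ?_⟩
  refine List.forall_mem_cons.mpr ⟨w2314 h, ?_⟩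
  refine List.forall_mem_cons.mpr ⟨z29 h, ?_⟩
  refine List.forall_mem_cons.mpr ⟨w2316 h, ?_⟩
  refine List.forall_mem_cons.mpr ⟨w2345 h, ?_⟩
  refine List.forall_mem_cons.mpr ⟨z55 h, ?_⟩
  refine List.forall_mem_cons.mpr ⟨w2356 h, ?_⟩
  intro p hp
  exact absurd hp List.not_mem_nil

/-- A part of the list of the unknowns. -/
def lst4 : List (Fin 7 × Fin 7 × Fin 7 × Fin 7) := [(2, 4, 0, 1), (2, 4, 0, 3), (2, 4, 0, 5), (2, 4, 0, 6), (2, 4, 1, 3), (2, 4, 1, 5), (2, 4, 1, 6), (2, 4, 3, 5), (2, 4, 3, 6), (2, 4, 5, 6), (2, 5, 0, 1), (2, 5, 0, 3), (2, 5, 0, 4), (2, 5, 0, 6), (2, 5, 1, 3), (2, 5, 1, 4), (2, 5, 1, 6), (2, 5, 3, 4), (2, 5, 3, 6), (2, 5, 4, 6), (2, 6, 0, 1), (2, 6, 0, 3), (2, 6, 0, 4), (2, 6, 0, 5), (2, 6, 1, 3), (2, 6, 1, 4), (2, 6, 1, 5), (2, 6, 3, 4), (2, 6, 3, 5), (2, 6, 4, 5)]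

theorem lst4_zero (h : Good S) : ∀ p ∈ lst4, S p.1 p.2.1 p.2.2.1 p.2.2.2 = 0 := by
  rw [lst4]
  refine List.forall_mem_cons.mpr ⟨w2401 h, ?_⟩
  refine List.forall_mem_cons.mpr ⟨w2403 h, ?_⟩
  refine List.forall_mem_cons.mpr ⟨w2405 h, ?_⟩
  refine List.forall_mem_cons.mpr ⟨w2406 h, ?_⟩
  refine List.forall_mem_cons.mpr ⟨z34 h, ?_⟩
  refine List.forall_mem_cons.mpr ⟨z9 h, ?_⟩
  refine List.forall_mem_cons.mpr ⟨w2416 h, ?_⟩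
  refine List.forall_mem_cons.mpr ⟨w2435 h, ?_⟩
  refine List.forall_mem_cons.mpr ⟨w2436 h, ?_⟩
  refine List.forall_mem_cons.mpr ⟨z40 h, ?_⟩
  refine List.forall_mem_cons.mpr ⟨w2501 h, ?_⟩
  refine List.forall_mem_cons.mpr ⟨w2503 h, ?_⟩
  refine List.forall_mem_cons.mpr ⟨w2504 h, ?_⟩
  refine List.forall_mem_cons.mpr ⟨w2506 h, ?_⟩
  refine List.forall_mem_cons.mpr ⟨z43 h, ?_⟩
  refine List.forall_mem_cons.mpr ⟨w2514 h, ?_⟩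
  refine List.forall_mem_cons.mpr ⟨w2516 h, ?_⟩
  refine List.forall_mem_cons.mpr ⟨z2 h, ?_⟩
  refine List.forall_mem_cons.mpr ⟨w2536 h, ?_⟩
  refine List.forall_mem_cons.mpr ⟨z39 h, ?_⟩
  refine List.forall_mem_cons.mpr ⟨w2601 h, ?_⟩
  refine List.forall_mem_cons.mpr ⟨w2603 h, ?_⟩
  refine List.forall_mem_cons.mpr ⟨w2604 h, ?_⟩
  refine List.forall_mem_cons.mpr ⟨w2605 h, ?_⟩
  refine List.forall_mem_cons.mpr ⟨z61 h, ?_⟩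
  refine List.forall_mem_cons.mpr ⟨w2614 h, ?_⟩
  refine List.forall_mem_cons.mpr ⟨z41 h, ?_⟩
  refine List.forall_mem_cons.mpr ⟨z23 h, ?_⟩
  refine List.forall_mem_cons.mpr ⟨w2635 h, ?_⟩
  refine List.forall_mem_cons.mpr ⟨w2645 h, ?_⟩
  intro p hp
  exact absurd hp List.not_mem_nil

/-- A part of the list of the unknowns. -/
def lst5 : List (Fin 7 × Fin 7 × Fin 7 × Fin 7) := [(3, 4, 0, 1), (3, 4, 0, 2), (3, 4, 0, 5), (3, 4, 0, 6), (3, 4, 1, 2), (3, 4, 1, 5), (3, 4, 1, 6), (3, 4, 2, 5), (3, 4, 2, 6), (3, 4, 5, 6), (3, 5, 0, 1), (3, 5, 0, 2), (3, 5, 0, 4), (3, 5, 0, 6), (3, 5, 1, 2), (3, 5, 1, 4), (3, 5, 1, 6), (3, 5, 2, 4), (3, 5, 2, 6), (3, 5, 4, 6), (3, 6, 0, 1), (3, 6, 0, 2), (3, 6, 0, 4), (3, 6, 0, 5), (3, 6, 1, 2), (3, 6, 1, 4), (3, 6, 1, 5), (3, 6, 2, 4), (3, 6, 2, 5), (3, 6, 4, 5)]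

theorem lst5_zero (h : Good S) : ∀ p ∈ lst5, S p.1 p.2.1 p.2.2.1 p.2.2.2 = 0 := by
  rw [lst5]
  refine List.forall_mem_cons.mpr ⟨w3401 h, ?_⟩
  refine List.forall_mem_cons.mpr ⟨w3402 h, ?_⟩
  refine List.forall_mem_cons.mpr ⟨w3405 h, ?_⟩
  refine List.forall_mem_cons.mpr ⟨w3406 h, ?_⟩
  refine List.forall_mem_cons.mpr ⟨z49 h, ?_⟩
  refine List.forall_mem_cons.mpr ⟨z32 h, ?_⟩
  refine List.forall_mem_cons.mpr ⟨w3416 h, ?_⟩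
  refine List.forall_mem_cons.mpr ⟨w3425 h, ?_⟩
  refine List.forall_mem_cons.mpr ⟨z38 h, ?_⟩
  refine List.forall_mem_cons.mpr ⟨w3456 h, ?_⟩
  refine List.forall_mem_cons.mpr ⟨w3501 h, ?_⟩
  refine List.forall_mem_cons.mpr ⟨w3502 h, ?_⟩
  refine List.forall_mem_cons.mpr ⟨w3504 h, ?_⟩
  refine List.forall_mem_cons.mpr ⟨w3506 h, ?_⟩
  refine List.forall_mem_cons.mpr ⟨z11 h, ?_⟩
  refine List.forall_mem_cons.mpr ⟨w3514 h, ?_⟩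
  refine List.forall_mem_cons.mpr ⟨w3516 h, ?_⟩
  refine List.forall_mem_cons.mpr ⟨w3524 h, ?_⟩
  refine List.forall_mem_cons.mpr ⟨z3 h, ?_⟩
  refine List.forall_mem_cons.mpr ⟨z46 h, ?_⟩
  refine List.forall_mem_cons.mpr ⟨w3601 h, ?_⟩
  refine List.forall_mem_cons.mpr ⟨w3602 h, ?_⟩
  refine List.forall_mem_cons.mpr ⟨w3604 h, ?_⟩
  refine List.forall_mem_cons.mpr ⟨w3605 h, ?_⟩
  refine List.forall_mem_cons.mpr ⟨z12 h, ?_⟩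
  refine List.forall_mem_cons.mpr ⟨w3614 h, ?_⟩
  refine List.forall_mem_cons.mpr ⟨z10 h, ?_⟩
  refine List.forall_mem_cons.mpr ⟨w3624 h, ?_⟩
  refine List.forall_mem_cons.mpr ⟨w3625 h, ?_⟩
  refine List.forall_mem_cons.mpr ⟨z24 h, ?_⟩
  intro p hp
  exact absurd hp List.not_mem_nil

/-- A part of the list of the unknowns. -/
def lst6 : List (Fin 7 × Fin 7 × Fin 7 × Fin 7) := [(4, 5, 0, 1), (4, 5, 0, 2), (4, 5, 0, 3), (4, 5, 0, 6), (4, 5, 1, 2), (4, 5, 1, 3), (4, 5, 1, 6), (4, 5, 2, 3), (4, 5, 2, 6), (4, 5, 3, 6), (4, 6, 0, 1), (4, 6, 0, 2), (4, 6, 0, 3), (4, 6, 0, 5), (4, 6, 1, 2), (4, 6, 1, 3), (4, 6, 1, 5), (4, 6, 2, 3), (4, 6, 2, 5), (4, 6, 3, 5), (5, 6, 0, 1), (5, 6, 0, 2), (5, 6, 0, 3), (5, 6, 0, 4), (5, 6, 1, 2), (5, 6, 1, 3), (5, 6, 1, 4), (5, 6, 2, 3), (5, 6, 2, 4), (5, 6, 3, 4)]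

theorem lst6_zero (h : Good S) : ∀ p ∈ lst6, S p.1 p.2.1 p.2.2.1 p.2.2.2 = 0 := by
  rw [lst6]
  refine List.forall_mem_cons.mpr ⟨w4501 h, ?_⟩
  refine List.forall_mem_cons.mpr ⟨w4502 h, ?_⟩
  refine List.forall_mem_cons.mpr ⟨w4503 h, ?_⟩
  refine List.forall_mem_cons.mpr ⟨w4506 h, ?_⟩
  refine List.forall_mem_cons.mpr ⟨w4512 h, ?_⟩
  refine List.forall_mem_cons.mpr ⟨z62 h, ?_⟩
  refine List.forall_mem_cons.mpr ⟨w4516 h, ?_⟩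
  refine List.forall_mem_cons.mpr ⟨z33 h, ?_⟩
  refine List.forall_mem_cons.mpr ⟨z1 h, ?_⟩
  refine List.forall_mem_cons.mpr ⟨w4536 h, ?_⟩
  refine List.forall_mem_cons.mpr ⟨w4601 h, ?_⟩
  refine List.forall_mem_cons.mpr ⟨w4602 h, ?_⟩
  refine List.forall_mem_cons.mpr ⟨w4603 h, ?_⟩
  refine List.forall_mem_cons.mpr ⟨w4605 h, ?_⟩
  refine List.forall_mem_cons.mpr ⟨w4612 h, ?_⟩
  refine List.forall_mem_cons.mpr ⟨z30 h, ?_⟩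
  refine List.forall_mem_cons.mpr ⟨z8 h, ?_⟩
  refine List.forall_mem_cons.mpr ⟨z44 h, ?_⟩
  refine List.forall_mem_cons.mpr ⟨w4625 h, ?_⟩
  refine List.forall_mem_cons.mpr ⟨w4635 h, ?_⟩
  refine List.forall_mem_cons.mpr ⟨w5601 h, ?_⟩
  refine List.forall_mem_cons.mpr ⟨w5602 h, ?_⟩
  refine List.forall_mem_cons.mpr ⟨w5603 h, ?_⟩
  refine List.forall_mem_cons.mpr ⟨w5604 h, ?_⟩
  refine List.forall_mem_cons.mpr ⟨z15 h, ?_⟩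
  refine List.forall_mem_cons.mpr ⟨w5613 h, ?_⟩
  refine List.forall_mem_cons.mpr ⟨w5614 h, ?_⟩
  refine List.forall_mem_cons.mpr ⟨z45 h, ?_⟩
  refine List.forall_mem_cons.mpr ⟨w5624 h, ?_⟩
  refine List.forall_mem_cons.mpr ⟨z4 h, ?_⟩
  intro p hp
  exact absurd hp List.not_mem_nil

/-- The list of the unknowns. -/
def lstAll : List (Fin 7 × Fin 7 × Fin 7 × Fin 7) := lst0 ++ lst1 ++ lst2 ++ lst3 ++ lst4 ++ lst5 ++ lst6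

theorem lstAll_zero (h : Good S) : ∀ p ∈ lstAll, S p.1 p.2.1 p.2.2.1 p.2.2.2 = 0 := by
  intro p hp
  rw [lstAll] at hp
  simp only [List.mem_append] at hp
  rcases hp with (((((hm | hm) | hm) | hm) | hm) | hm) | hm
  · exact lst0_zero h _ hm
  · exact lst1_zero h _ hm
  · exact lst2_zero h _ hm
  · exact lst3_zero h _ hm
  · exact lst4_zero h _ hm
  · exact lst5_zero h _ hm
  · exact lst6_zero h _ hm

theorem mem_lists : ∀ p : Fin 7 × Fin 7 × Fin 7 × Fin 7, (p.1 < p.2.1 ∧ p.2.2.1 < p.2.2.2 ∧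
    p.2.2.1 ≠ p.1 ∧ p.2.2.1 ≠ p.2.1 ∧ p.2.2.2 ≠ p.1 ∧ p.2.2.2 ≠ p.2.1) → p ∈ lstAll := by
  decide +kernel

theorem Good.sorted_zero (h : Good S) (b c a d : Fin 7) (h1 : b < c) (h2 : a < d)
    (h3 : a ≠ b) (h4 : a ≠ c) (h5 : d ≠ b) (h6 : d ≠ c) : S b c a d = 0 :=
  lstAll_zero h _ (mem_lists (b, c, a, d) ⟨h1, h2, h3, h4, h5, h6⟩)

theorem Good.zero (h : Good S) (b c a d : Fin 7) : S b c a d = 0 := by
  have key : ∀ b c a d : Fin 7, b < c → S b c a d = 0 := by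
    intro b c a d h1
    by_cases hab : a = b
    · rw [hab]; exact h.zb b c d
    by_cases hac : a = c
    · rw [hac]; exact h.zc b c d
    by_cases hdb : d = b
    · rw [hdb]; exact h.zb' b c a
    by_cases hdc : d = c
    · rw [hdc]; exact h.zc' b c a
    rcases lt_trichotomy a d with h2 | h2 | h2
    · exact h.sorted_zero b c a d h1 h2 hab hac hdb hdc
    · rw [h2]; exact h.zd b c d
    · rw [h.sym b c d a]
      exact h.sorted_zero b c d a h1 h2 hdb hdc hab hac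
  rcases lt_trichotomy b c with h1 | h1 | h1
  · exact key b c a d h1
  · subst h1
    have := h.anti b b a d
    have h2 : (2 : k) * S b b a d = 0 := by linear_combination this
    exact (mul_eq_zero.mp h2).resolve_left two_ne_zero
  · rw [h.anti c b a d, key c b a d h1, neg_zero]

end Pool.Agent.KS6_81.GR
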