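import Pool.Agent.KS6_81.GR.Dual

/-!
# Geometry of nodal curves with rational components
-/

set_option autoImplicit false

open Module Polynomial

namespace Pool.Agent.KS6_81.GR

variable {k : Type} [Field k] [IsAlgClosed k]

namespace Conf

variable (Γ : Conf k)

theorem inMax_iff {q : Γ.Pt} {a : Γ.Fam} :
    Γ.curve.InMax q a ↔ a ∈ Γ.nodeRing Finset.univ ∧ ev q.2 (a q) = 0 := by
  constructor
  · rintro ⟨ha, hn⟩
    refine ⟨ha, ?_⟩
    rw [ev_eq_zero_iff _ (ha.1 q)]
    by_cases h : a q = 0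
    · rw [h, map_zero]
      exact zero_lt_one
    · apply val_lt_of_inv_not_mem
      intro h'
      exact hn ⟨h, h'⟩
  · rintro ⟨ha, h0⟩
    refine ⟨ha, ?_⟩
    rintro ⟨h1, h2⟩
    have h2' : (a q)⁻¹ ∈ q.2.1 := h2
    have h3 := ev_mul q.2 (ha.1 q) h2'
    rw [mul_inv_cancel₀ h1, ev_one, h0, zero_mul] at h3
    exact one_ne_zero h3

open Classical in
/-- The family `c`, changed at the two branches of a node. -/
noncomputable def modify (e : Γ.E × Bool) (u u' : RatFunc k) (c : Γ.Fam) : Γ.Fam := fun q =>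
  if q = Γ.bp e then u else if q = Γ.bp (Γ.other e) then u' else c q

theorem other_ne (e : Γ.E × Bool) : Γ.bp (Γ.other e) ≠ Γ.bp e := by
  intro h
  have := congrArg Prod.snd (Γ.bp_injective h)
  simp [other] at this

theorem modify_same (e : Γ.E × Bool) (u u' : RatFunc k) (c : Γ.Fam) :
    Γ.modify e u u' c (Γ.bp e) = u := by
  rw [modify, if_pos rfl]

theorem modify_other (e : Γ.E × Bool) (u u' : RatFunc k) (c : Γ.Fam) :
    Γ.modify e u u' c (Γ.bp (Γ.other e)) = u' := by
  rw [modify, if_neg (Γ.other_ne e), if_pos rfl]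

theorem modify_ne (e : Γ.E × Bool) (u u' : RatFunc k) (c : Γ.Fam) {q : Γ.Pt}
    (h1 : q ≠ Γ.bp e) (h2 : q ≠ Γ.bp (Γ.other e)) : Γ.modify e u u' c q = c q := by
  rw [modify, if_neg h1, if_neg h2]

theorem modify_mem {e : Γ.E × Bool} {u u' : RatFunc k} {c : Γ.Fam} (hu : u ∈ (Γ.bp e).2.1)
    (hu' : u' ∈ (Γ.bp (Γ.other e)).2.1)
    (he : ev (Γ.bp e).2 u = ev (Γ.bp (Γ.other e)).2 u')
    (hc : c ∈ Γ.nodeRing Finset.univ) : Γ.modify e u u' c ∈ Γ.nodeRing Finset.univ := by
  refine ⟨fun q => ?_, fun e' he' => ?_⟩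
  · by_cases h1 : q = Γ.bp e
    · subst h1
      rw [modify_same]
      exact hu
    · by_cases h2 : q = Γ.bp (Γ.other e)
      · subst h2
        rw [modify_other]
        exact hu'
      · rw [Γ.modify_ne _ _ _ _ h1 h2]
        exact hc.1 q
  · by_cases h : e' = e.1
    · subst h
      obtain ⟨e0, s⟩ := e
      cases s
      · have h1 := Γ.modify_same (e0, false) u u' c
        have h2 := Γ.modify_other (e0, false) u u' c
        show ev _ (Γ.modify (e0, false) u u' c (Γ.bp (e0, false))) =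
          ev _ (Γ.modify (e0, false) u u' c (Γ.bp (e0, true)))
        rw [h1]
        refine he.trans ?_
        congr 1
        exact h2.symm
      · have h1 := Γ.modify_same (e0, true) u u' c
        have h2 := Γ.modify_other (e0, true) u u' c
        show ev _ (Γ.modify (e0, true) u u' c (Γ.bp (e0, false))) =
          ev _ (Γ.modify (e0, true) u u' c (Γ.bp (e0, true)))
        rw [h1]
        refine Eq.trans ?_ he.symm
        congr 1
    · rw [modify_ne, modify_ne]
      · exact hc.2 e' he'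
      · intro h'
        exact h (congrArg Prod.fst (Γ.bp_injective h'))
      · intro h'
        exact h (congrArg Prod.fst (Γ.bp_injective h'))
      · intro h'
        exact h (congrArg Prod.fst (Γ.bp_injective h'))
      · intro h'
        exact h (congrArg Prod.fst (Γ.bp_injective h'))

theorem ev_glue {a : Γ.Fam} (ha : a ∈ Γ.nodeRing Finset.univ) (e : Γ.E × Bool) :
    ev (Γ.bp e).2 (a (Γ.bp e)) = ev (Γ.bp (Γ.other e)).2 (a (Γ.bp (Γ.other e))) := by
  obtain ⟨e0, s⟩ := e
  cases s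
  · exact ha.2 e0 (Finset.mem_univ _)
  · exact (ha.2 e0 (Finset.mem_univ _)).symm

open Classical in
theorem isPlanar : Γ.curve.IsPlanar := by
  intro q
  by_cases h : ∃ e, Γ.bp e = q
  · obtain ⟨e, rfl⟩ := h
    have ht := Γ.ul_tau e
    have ht' := Γ.ul_tau (Γ.other e)
    have m0 : ∀ q : Γ.Pt, (0 : RatFunc k) ∈ q.2.1 := fun q => q.2.1.zero_mem
    refine ⟨Γ.modify e (Γ.tau e) 0 1, Γ.modify e 0 (Γ.tau (Γ.other e)) 0, ?_, ?_, ?_⟩
    · rw [inMax_iff]
      refine ⟨Γ.modify_mem ht.mem (m0 _) (by rw [ht.ev0, ev_zero]) (one_mem _), ?_⟩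
      rw [modify_same, ht.ev0]
    · rw [inMax_iff]
      refine ⟨Γ.modify_mem (m0 _) ht'.mem (by rw [ht'.ev0, ev_zero]) (zero_mem _), ?_⟩
      rw [modify_same, ev_zero]
    · intro a ha
      obtain ⟨haR, ha⟩ := Γ.inMax_iff.mp ha
      have ha' : ev (Γ.bp (Γ.other e)).2 (a (Γ.bp (Γ.other e))) = 0 := by
        rw [← Γ.ev_glue haR e]
        exact ha
      have hd := ht.div _ (haR.1 _) ha
      have hd' := ht'.div _ (haR.1 _) ha'
      refine ⟨0, Submodule.zero_mem _, Γ.modify e ((Γ.tau e)⁻¹ * a (Γ.bp e))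
        (RatFunc.C (ev (Γ.bp e).2 ((Γ.tau e)⁻¹ * a (Γ.bp e)))) a,
        Γ.modify_mem hd (C_mem_place _ _) (by rw [ev_C]) haR, Γ.modify e
        (RatFunc.C (ev (Γ.bp (Γ.other e)).2 ((Γ.tau (Γ.other e))⁻¹ * a (Γ.bp (Γ.other e)))))
        ((Γ.tau (Γ.other e))⁻¹ * a (Γ.bp (Γ.other e))) 0,
        Γ.modify_mem (C_mem_place _ _) hd' (by rw [ev_C]) (zero_mem _), ?_⟩
      funext q
      simp only [Pi.add_apply, Pi.mul_apply, Pi.zero_apply, zero_add]
      by_cases h1 : q = Γ.bp e
      · subst h1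
        simp only [modify_same]
        have := ht.ne
        field_simp
        simp
      · by_cases h2 : q = Γ.bp (Γ.other e)
        · subst h2
          simp only [modify_other]
          have := ht'.ne
          field_simp
          simp
        · rw [Γ.modify_ne _ _ _ _ h1 h2, Γ.modify_ne _ _ _ _ h1 h2, Γ.modify_ne _ _ _ _ h1 h2,
            Γ.modify_ne _ _ _ _ h1 h2]
          simp
  · obtain ⟨t, ht⟩ := exists_isUnif q.2
    have hbr : ∀ e, Γ.bp e ≠ q := fun e he => h ⟨e, he⟩
    have hmem : ∀ (u : RatFunc k) (c : Γ.Fam), u ∈ q.2.1 → c ∈ Γ.nodeRing Finset.univ →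
        (fun q' => if q' = q then u else c q') ∈ Γ.nodeRing Finset.univ := by
      intro u c hu hc
      refine ⟨fun q' => ?_, fun e he => ?_⟩
      · by_cases h1 : q' = q
        · subst h1
          simp only [if_pos]
          exact hu
        · simp only [if_neg h1]
          exact hc.1 q'
      · simp only [if_neg (hbr _)]
        exact hc.2 e he
    refine ⟨fun q' => if q' = q then t else (1 : Γ.Fam) q', 0, ?_, ?_, ?_⟩
    · rw [inMax_iff]
      refine ⟨hmem t 1 ht.mem (one_mem _), ?_⟩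
      show ev _ (if q = q then t else (1 : Γ.Fam) q) = 0
      rw [if_pos rfl, ht.ev_eq_zero]
    · rw [inMax_iff]
      exact ⟨zero_mem _, ev_zero _⟩
    intro a ha
    obtain ⟨haR, ha⟩ := Γ.inMax_iff.mp ha
    have hd := ht.ul.div _ (haR.1 q) ha
    refine ⟨0, Submodule.zero_mem _, fun q' => if q' = q then t⁻¹ * a q else a q',
      hmem _ _ hd haR, 0, zero_mem _, ?_⟩
    funext q'
    simp only [Pi.add_apply, Pi.mul_apply, Pi.zero_apply, zero_add, mul_zero, add_zero]
    by_cases h1 : q' = q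
    · subst h1
      have := ht.ne
      simp only [if_true]
      field_simp
    · simp only [if_neg h1]
      simp

theorem not_hyperelliptic (hc : 3 ≤ Fintype.card Γ.ι) : ¬ Γ.curve.IsHyperelliptic := by
  rintro ⟨f, hf, _, hsum⟩
  have h1 : ∀ i, 1 ≤ finrank (IntermediateField.adjoin k {f i}) (RatFunc k) := by
    intro i
    have hc : ¬ ∃ c, f i = RatFunc.C c := by
      rintro ⟨c, hc⟩
      apply hf i
      refine ⟨c, ?_⟩
      rw [hc]
      exact algC c
    have h2 := RatFunc.finrank_eq_max_natDegree (f := f i)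
    by_contra h3
    have h4 : finrank (IntermediateField.adjoin k {f i}) (RatFunc k) = 0 := by omega
    rw [h4] at h2
    have h5 : (f i).num.natDegree = 0 ∧ (f i).denom.natDegree = 0 := by omega
    exact hc ((RatFunc.eq_C_iff _).mpr h5)
  have h2 : ∑ i : Γ.ι, 1 ≤ ∑ i, finrank (IntermediateField.adjoin k {f i}) (RatFunc k) :=
    Finset.sum_le_sum fun i _ => h1 i
  rw [Finset.sum_const, Finset.card_univ, smul_eq_mul, mul_one] at h2
  have hsum' : ∑ i, finrank (IntermediateField.adjoin k {f i}) (RatFunc k) = 2 := hsum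
  omega

end Conf

end Pool.Agent.KS6_81.GR
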