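import Pool.Agent.KS6_81.GR.Defs

/-!
# Koszul cocycles in coordinates
-/

set_option autoImplicit false

open Module TensorProduct

namespace Pool.Agent.KS6_81.GR

variable {k : Type} [Field k] {M N : Type} [AddCommGroup M] [Module k M] [AddCommGroup N]
  [Module k N]

theorem koszulD_ιMulti (n : ℕ) (v : Fin (n + 1) → M) :
    koszulD (k := k) n (exteriorPower.ιMulti k (n + 1) v) =
      ∑ i : Fin (n + 1), (-1 : ℤ) ^ (i : ℕ) •
        ((exteriorPower.ιMulti k n (i.removeNth v)) ⊗ₜ[k] v i) := by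
  rw [koszulD, exteriorPower.alternatingMapLinearEquiv_apply_ιMulti,
    AlternatingMap.alternatizeUncurryFin_apply]
  rfl

theorem koszulMap_tmul (n : ℕ) (μ : M →ₗ[k] M →ₗ[k] N) (v : Fin (n + 1) → M) (m : M) :
    koszulMap n μ ((exteriorPower.ιMulti k (n + 1) v) ⊗ₜ[k] m) =
      ∑ i : Fin (n + 1), (-1 : ℤ) ^ (i : ℕ) •
        ((exteriorPower.ιMulti k n (i.removeNth v)) ⊗ₜ[k] μ (v i) m) := by
  have h : ∀ z : (⋀[k]^n M) ⊗[k] M,
      (LinearMap.lTensor (⋀[k]^n M) (TensorProduct.lift μ))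
        ((TensorProduct.assoc k (⋀[k]^n M) M M) (z ⊗ₜ[k] m)) =
      ((LinearMap.lTensor (⋀[k]^n M) (TensorProduct.lift μ)) ∘ₗ
        (TensorProduct.assoc k (⋀[k]^n M) M M).toLinearMap ∘ₗ
          ((TensorProduct.mk k _ M).flip m)) z := fun z => rfl
  rw [koszulMap]
  simp only [LinearMap.coe_comp, Function.comp_apply, LinearMap.rTensor_tmul,
    LinearEquiv.coe_coe]
  rw [h, koszulD_ιMulti, map_sum]
  refine Finset.sum_congr rfl fun i _ => ?_
  rw [map_zsmul]
  rfl

variable {n : ℕ}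

/-- `b_a ∧ b_c ∧ b_d` -/
noncomputable def w3 (b : Fin n → M) (a c d : Fin n) : ⋀[k]^3 M :=
  exteriorPower.ιMulti k 3 ![b a, b c, b d]

/-- `b_a ∧ b_c` -/
noncomputable def w2 (b : Fin n → M) (a c : Fin n) : ⋀[k]^2 M :=
  exteriorPower.ιMulti k 2 ![b a, b c]

theorem w3_swap01 (b : Fin n → M) (a c d : Fin n) :
    w3 (k := k) b c a d = (-1 : k) • w3 (k := k) b a c d := by
  have := (exteriorPower.ιMulti k 3 (M := M)).map_swap ![b a, b c, b d]
    (show (0 : Fin 3) ≠ 1 by decide)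
  have h2 : w3 (k := k) b c a d = - w3 (k := k) b a c d := by
    rw [w3, w3, ← this]
    congr 1
    funext i
    fin_cases i <;> rfl
  rw [h2]
  exact (neg_one_smul k _).symm

theorem w3_swap12 (b : Fin n → M) (a c d : Fin n) :
    w3 (k := k) b a d c = (-1 : k) • w3 (k := k) b a c d := by
  have := (exteriorPower.ιMulti k 3 (M := M)).map_swap ![b a, b c, b d]
    (show (1 : Fin 3) ≠ 2 by decide)
  have h2 : w3 (k := k) b a d c = - w3 (k := k) b a c d := by
    rw [w3, w3, ← this]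
    congr 1
    funext i
    fin_cases i <;> rfl
  rw [h2]
  exact (neg_one_smul k _).symm

theorem zsmul_tmul_eq {P Q : Type} [AddCommGroup P] [Module k P] [AddCommGroup Q] [Module k Q]
    (z : ℤ) (x : P) (y : Q) : z • (x ⊗ₜ[k] y) = (z : k) • (x ⊗ₜ[k] y) :=
  (Int.cast_smul_eq_zsmul k z _).symm

theorem koszulMap_w3 (μ : M →ₗ[k] M →ₗ[k] N) (b : Fin n → M) (a c d : Fin n) (m : M) :
    koszulMap 2 μ ((w3 (k := k) b a c d) ⊗ₜ[k] m) =
      (w2 b c d) ⊗ₜ[k] μ (b a) m + (-1 : k) • ((w2 b a d) ⊗ₜ[k] μ (b c) m) +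
        (w2 b a c) ⊗ₜ[k] μ (b d) m := by
  rw [w3, koszulMap_tmul, Fin.sum_univ_three]
  have h0 : (0 : Fin 3).removeNth ![b a, b c, b d] = ![b c, b d] := by
    funext i
    fin_cases i <;> rfl
  have h1 : (1 : Fin 3).removeNth ![b a, b c, b d] = ![b a, b d] := by
    funext i
    fin_cases i <;> rfl
  have h2 : (2 : Fin 3).removeNth ![b a, b c, b d] = ![b a, b c] := by
    funext i
    fin_cases i <;> rfl
  rw [h0, h1, h2, zsmul_tmul_eq, zsmul_tmul_eq, zsmul_tmul_eq]
  simp only [w2]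
  simp

theorem koszulD_w4 (b : Fin n → M) (a c d e : Fin n) :
    koszulD (k := k) 3 (exteriorPower.ιMulti k 4 ![b a, b c, b d, b e]) =
      (w3 b c d e) ⊗ₜ[k] b a + (-1 : k) • ((w3 b a d e) ⊗ₜ[k] b c) + (w3 b a c e) ⊗ₜ[k] b d
        + (-1 : k) • ((w3 b a c d) ⊗ₜ[k] b e) := by
  rw [koszulD_ιMulti, Fin.sum_univ_four]
  have h0 : (0 : Fin 4).removeNth ![b a, b c, b d, b e] = ![b c, b d, b e] := by
    funext i
    fin_cases i <;> rfl
  have h1 : (1 : Fin 4).removeNth ![b a, b c, b d, b e] = ![b a, b d, b e] := by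
    funext i
    fin_cases i <;> rfl
  have h2 : (2 : Fin 4).removeNth ![b a, b c, b d, b e] = ![b a, b c, b e] := by
    funext i
    fin_cases i <;> rfl
  have h3 : (3 : Fin 4).removeNth ![b a, b c, b d, b e] = ![b a, b c, b d] := by
    funext i
    fin_cases i <;> rfl
  rw [h0, h1, h2, h3, zsmul_tmul_eq, zsmul_tmul_eq, zsmul_tmul_eq, zsmul_tmul_eq]
  simp only [w3]
  simp [pow_succ]

/-- The indices. -/
abbrev I4 (n : ℕ) : Type := Fin n × Fin n × Fin n × Fin n

/-- The element with the coordinates `t`. -/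
noncomputable def el (b : Fin n → M) (t : I4 n → k) : (⋀[k]^3 M) ⊗[k] M :=
  ∑ p : I4 n, t p • ((w3 b p.1 p.2.1 p.2.2.1) ⊗ₜ[k] b p.2.2.2)

theorem el_add (b : Fin n → M) (t s : I4 n → k) : el b (t + s) = el b t + el b s := by
  simp [el, add_smul, Finset.sum_add_distrib]

theorem el_smul (b : Fin n → M) (c : k) (t : I4 n → k) : el b (c • t) = c • el b t := by
  simp [el, Finset.smul_sum, mul_smul]

/-- exchange of the first two indices -/
def e01 (n : ℕ) : I4 n ≃ I4 n where
  toFun p := (p.2.1, p.1, p.2.2.1, p.2.2.2)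
  invFun p := (p.2.1, p.1, p.2.2.1, p.2.2.2)
  left_inv _ := rfl
  right_inv _ := rfl

/-- exchange of the second and the third index -/
def e12 (n : ℕ) : I4 n ≃ I4 n where
  toFun p := (p.1, p.2.2.1, p.2.1, p.2.2.2)
  invFun p := (p.1, p.2.2.1, p.2.1, p.2.2.2)
  left_inv _ := rfl
  right_inv _ := rfl

/-- exchange of the third and the fourth index -/
def e23 (n : ℕ) : I4 n ≃ I4 n where
  toFun p := (p.1, p.2.1, p.2.2.2, p.2.2.1)
  invFun p := (p.1, p.2.1, p.2.2.2, p.2.2.1)
  left_inv _ := rfl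
  right_inv _ := rfl

/-- A sum with permuted indices. -/
theorem sum_perm {G : Type} [AddCommMonoid G] [Module k G] (e : I4 n ≃ I4 n) (f g : I4 n → G)
    (c : k) (h : ∀ p, f (e p) = c • g p) : ∑ p, f p = c • ∑ p, g p := by
  rw [← Equiv.sum_comp e, Finset.smul_sum]
  exact Finset.sum_congr rfl fun p _ => h p

theorem el_e01 (b : Fin n → M) (t : I4 n → k) : el b (t ∘ e01 n) = (-1 : k) • el b t := by
  rw [el, el]
  refine sum_perm (e01 n) _ _ _ fun p => ?_
  simp only [Function.comp_apply, e01, Equiv.coe_fn_mk]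
  rw [w3_swap01, ← TensorProduct.smul_tmul', smul_comm]

theorem el_e12 (b : Fin n → M) (t : I4 n → k) : el b (t ∘ e12 n) = (-1 : k) • el b t := by
  rw [el, el]
  refine sum_perm (e12 n) _ _ _ fun p => ?_
  simp only [Function.comp_apply, e12, Equiv.coe_fn_mk]
  rw [w3_swap12, ← TensorProduct.smul_tmul', smul_comm]

theorem exists_el (b : Basis (Fin n) k M) (x : (⋀[k]^3 M) ⊗[k] M) :
    ∃ t : I4 n → k, x = el b t := by
  have key : ∀ y : ⋀[k]^3 M, ∀ j : Fin n,
      y ⊗ₜ[k] b j ∈ Submodule.span k (Set.range fun p : I4 n =>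
        ((w3 b p.1 p.2.1 p.2.2.1) ⊗ₜ[k] b p.2.2.2)) := by
    intro y j
    have hy : y ∈ Submodule.span k (exteriorPower.ιMulti k 3 ''
        {a : Fin 3 → M | Set.range a ⊆ Set.range b}) := by
      rw [exteriorPower.ιMulti_span_of_span k 3 M b.span_eq]
      trivial
    induction hy using Submodule.span_induction with
    | mem y hy =>
      obtain ⟨v, hv, rfl⟩ := hy
      obtain ⟨i0, h0⟩ := hv ⟨0, rfl⟩
      obtain ⟨i1, h1⟩ := hv ⟨1, rfl⟩
      obtain ⟨i2, h2⟩ := hv ⟨2, rfl⟩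
      refine Submodule.subset_span ⟨(i0, i1, i2, j), ?_⟩
      simp only [w3, h0, h1, h2]
      congr 2
      funext i
      fin_cases i <;> rfl
    | zero => rw [TensorProduct.zero_tmul]; exact Submodule.zero_mem _
    | add y z _ _ hy hz => rw [TensorProduct.add_tmul]; exact Submodule.add_mem _ hy hz
    | smul c y _ hy => rw [← TensorProduct.smul_tmul']; exact Submodule.smul_mem _ _ hy
  have hx : x ∈ Submodule.span k (Set.range fun p : I4 n =>
        ((w3 b p.1 p.2.1 p.2.2.1) ⊗ₜ[k] b p.2.2.2)) := by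
    induction x using TensorProduct.induction_on with
    | zero => exact Submodule.zero_mem _
    | add x y hx hy => exact Submodule.add_mem _ hx hy
    | tmul y m =>
      rw [← b.sum_repr m, TensorProduct.tmul_sum]
      refine Submodule.sum_mem _ fun j _ => ?_
      rw [TensorProduct.tmul_smul]
      exact Submodule.smul_mem _ _ (key y j)
  rw [Submodule.mem_span_range_iff_exists_fun] at hx
  obtain ⟨t, ht⟩ := hx
  exact ⟨t, ht.symm⟩

theorem exists_alt (b : Basis (Fin n) k M) [CharZero k] (x : (⋀[k]^3 M) ⊗[k] M) :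
    ∃ t : I4 n → k, (∀ a c d j, t (c, a, d, j) = - t (a, c, d, j)) ∧
      (∀ a c d j, t (a, d, c, j) = - t (a, c, d, j)) ∧ x = el b t := by
  obtain ⟨t, rfl⟩ := exists_el b x
  refine ⟨(1 / 6 : k) • (t + (-1 : k) • (t ∘ e01 n) + (-1 : k) • (t ∘ e12 n) +
    (-1 : k) • (((t ∘ e01 n) ∘ e12 n) ∘ e01 n) +
    (t ∘ e01 n) ∘ e12 n + (t ∘ e12 n) ∘ e01 n), ?_, ?_, ?_⟩
  · intro a c d j
    simp only [Pi.smul_apply, Pi.add_apply, Function.comp_apply, e01, e12,
      Equiv.coe_fn_mk, smul_eq_mul]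
    ring
  · intro a c d j
    simp only [Pi.smul_apply, Pi.add_apply, Function.comp_apply, e01, e12,
      Equiv.coe_fn_mk, smul_eq_mul]
    ring
  · rw [el_smul]
    simp only [el_add, el_smul, el_e01, el_e12]
    match_scalars
    norm_num

/-- The functional on `⋀² M` given by two coordinates. -/
noncomputable def psi (b : Basis (Fin n) k M) (c d : Fin n) : (⋀[k]^2 M) →ₗ[k] k :=
  exteriorPower.alternatingMapLinearEquiv
    ((Matrix.detRowAlternating (n := Fin 2) (R := k)).compLinearMap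
      (LinearMap.pi ![b.coord c, b.coord d]))

theorem psi_w2 (b : Basis (Fin n) k M) (c d c' d' : Fin n) :
    psi b c d (w2 b c' d') =
      (if c' = c then 1 else 0) * (if d' = d then 1 else 0) -
        (if c' = d then 1 else 0) * (if d' = c then 1 else 0) := by
  rw [psi, w2, exteriorPower.alternatingMapLinearEquiv_apply_ιMulti,
    AlternatingMap.compLinearMap_apply]
  change Matrix.det (Matrix.of fun (i j : Fin 2) =>
    (LinearMap.pi ![b.coord c, b.coord d]) (![b c', b d'] i) j) = _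
  rw [Matrix.det_fin_two]
  simp [Finsupp.single_apply]

theorem koszul_criterion [CharZero k] (b : Basis (Fin n) k M) (μ : M →ₗ[k] M →ₗ[k] N)
    (H : ∀ t : I4 n → k, (∀ a c d j, t (c, a, d, j) = - t (a, c, d, j)) →
      (∀ a c d j, t (a, d, c, j) = - t (a, c, d, j)) →
      (∀ c d, ∑ a, ∑ j, t (a, c, d, j) • μ (b a) (b j) = 0) →
      ∀ a c d j, t (a, c, j, d) = - t (a, c, d, j)) :
    LinearMap.ker (koszulMap 2 μ) ≤ LinearMap.range (koszulD (k := k) (M := M) 3) := by
  intro x hx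
  obtain ⟨t, h1, h2, rfl⟩ := exists_alt b x
  rw [LinearMap.mem_ker] at hx
  -- the kernel condition in coordinates
  have h3 : ∑ p : I4 n, t p • ((w2 (k := k) b p.2.1 p.2.2.1) ⊗ₜ[k] μ (b p.1) (b p.2.2.2)) =
      0 := by
    have e1 : koszulMap 2 μ (el b t) =
        (3 : k) • ∑ p : I4 n, t p • ((w2 (k := k) b p.2.1 p.2.2.1) ⊗ₜ[k] μ (b p.1) (b p.2.2.2)) := by
      rw [el, map_sum]
      simp only [map_smul, koszulMap_w3, smul_add, Finset.sum_add_distrib]
      have e2 : ∑ p : I4 n, t p • (-1 : k) • ((w2 (k := k) b p.1 p.2.2.1) ⊗ₜ[k] μ (b p.2.1) (b p.2.2.2)) =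
          (1 : k) • ∑ p : I4 n, t p •
            ((w2 (k := k) b p.2.1 p.2.2.1) ⊗ₜ[k] μ (b p.1) (b p.2.2.2)) := by
        refine sum_perm (e01 n) _ _ _ fun p => ?_
        simp only [e01, Equiv.coe_fn_mk]
        rw [h1, smul_smul, smul_smul]
        congr 1
        ring
      have e3 : ∑ p : I4 n, t p • ((w2 (k := k) b p.1 p.2.1) ⊗ₜ[k] μ (b p.2.2.1) (b p.2.2.2)) =
          (1 : k) • ∑ p : I4 n, t p •
            ((w2 (k := k) b p.2.1 p.2.2.1) ⊗ₜ[k] μ (b p.1) (b p.2.2.2)) := by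
        refine sum_perm ((e01 n).trans (e12 n)) _ _ _ fun p => ?_
        simp only [e01, e12, Equiv.coe_fn_mk, Equiv.trans_apply]
        rw [h2, h1, neg_neg, one_smul]
      rw [e2, e3]
      match_scalars
      norm_num
    rw [e1] at hx
    exact (smul_eq_zero.mp hx).resolve_left (by norm_num)
  have h4 : ∀ c d, ∑ a, ∑ j, t (a, c, d, j) • μ (b a) (b j) = 0 := by
    intro c d
    have e1 := congrArg ((TensorProduct.lid k N).toLinearMap ∘ₗ
      (LinearMap.rTensor (M := N) (psi b c d))) h3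
    rw [map_sum, map_zero] at e1
    simp only [LinearMap.coe_comp, Function.comp_apply, map_smul, LinearMap.rTensor_tmul,
      LinearEquiv.coe_coe, TensorProduct.lid_tmul, psi_w2] at e1
    rw [Fintype.sum_prod_type] at e1
    simp only [Fintype.sum_prod_type] at e1
    have e2 : ∀ a : Fin n, ∑ c' : Fin n, ∑ d' : Fin n, ∑ j : Fin n, t (a, c', d', j) •
        (((if c' = c then (1 : k) else 0) * (if d' = d then 1 else 0) -
          (if c' = d then 1 else 0) * (if d' = c then 1 else 0)) • μ (b a) (b j)) =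
        (2 : k) • ∑ j, t (a, c, d, j) • μ (b a) (b j) := by
      intro a
      have e3 : ∀ c' d' j : Fin n, t (a, c', d', j) •
        (((if c' = c then (1 : k) else 0) * (if d' = d then 1 else 0) -
          (if c' = d then 1 else 0) * (if d' = c then 1 else 0)) • μ (b a) (b j)) =
          (if c' = c then (if d' = d then t (a, c', d', j) • μ (b a) (b j) else 0) else 0) -
          (if c' = d then (if d' = c then t (a, c', d', j) • μ (b a) (b j) else 0) else 0) := by
        intro c' d' j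
        split_ifs <;> simp
      simp only [e3, Finset.sum_sub_distrib]
      have e4 : ∀ c d : Fin n, ∑ c' : Fin n, ∑ d' : Fin n, ∑ j : Fin n,
          (if c' = c then (if d' = d then t (a, c', d', j) • μ (b a) (b j) else 0) else 0) =
          ∑ j, t (a, c, d, j) • μ (b a) (b j) := by
        intro c d
        rw [Finset.sum_eq_single c, Finset.sum_eq_single d]
        · simp
        · intro d' _ hd'
          simp [hd']
        · simp
        · intro c' _ hc'
          simp [hc']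
        · simp
      rw [e4, e4]
      have e5 : ∑ j, t (a, d, c, j) • μ (b a) (b j) =
          - ∑ j, t (a, c, d, j) • μ (b a) (b j) := by
        rw [← Finset.sum_neg_distrib]
        refine Finset.sum_congr rfl fun j _ => ?_
        rw [h2, neg_smul]
      rw [e5, sub_neg_eq_add, two_smul]
    simp only [e2] at e1
    rw [← Finset.smul_sum] at e1
    exact (smul_eq_zero.mp e1).resolve_left (by norm_num)
  have h5 := H t h1 h2 h4
  refine ⟨(-1 / 4 : k) • ∑ p : I4 n, t p •
    exteriorPower.ιMulti k 4 ![b p.1, b p.2.1, b p.2.2.1, b p.2.2.2], ?_⟩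
  rw [map_smul, map_sum]
  simp only [map_smul, koszulD_w4, smul_add, Finset.sum_add_distrib]
  have f1 : ∑ p : I4 n, t p • ((w3 (k := k) b p.2.1 p.2.2.1 p.2.2.2) ⊗ₜ[k] b p.1) =
      (-1 : k) • el b t := by
    rw [el]
    refine sum_perm ((e23 n).trans ((e12 n).trans (e01 n))) _ _ _ fun p => ?_
    simp only [e01, e12, e23, Equiv.coe_fn_mk, Equiv.trans_apply]
    rw [h1, h2, h5, smul_smul]
    congr 1
    ring
  have f2 : ∑ p : I4 n, t p • (-1 : k) • ((w3 (k := k) b p.1 p.2.2.1 p.2.2.2) ⊗ₜ[k] b p.2.1) =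
      (-1 : k) • el b t := by
    rw [el]
    refine sum_perm ((e23 n).trans (e12 n)) _ _ _ fun p => ?_
    simp only [e12, e23, Equiv.coe_fn_mk, Equiv.trans_apply]
    rw [h2, h5, smul_smul, smul_smul]
    congr 1
    ring
  have f3 : ∑ p : I4 n, t p • ((w3 (k := k) b p.1 p.2.1 p.2.2.2) ⊗ₜ[k] b p.2.2.1) =
      (-1 : k) • el b t := by
    rw [el]
    refine sum_perm (e23 n) _ _ _ fun p => ?_
    simp only [e23, Equiv.coe_fn_mk, Equiv.trans_apply]
    rw [h5, smul_smul]
    congr 1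
    ring
  have f4 : ∑ p : I4 n, t p • (-1 : k) • ((w3 (k := k) b p.1 p.2.1 p.2.2.1) ⊗ₜ[k] b p.2.2.2) =
      (-1 : k) • el b t := by
    rw [el, Finset.smul_sum]
    refine Finset.sum_congr rfl fun p _ => ?_
    rw [smul_comm]
  rw [f1, f2, f3, f4]
  match_scalars
  norm_num

end Pool.Agent.KS6_81.GR
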