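import Pool.Agent.KS6_81.GR.Defs

/-!
# The places of the rational function field
-/

set_option autoImplicit false

open Module Polynomial

namespace Pool.Agent.KS6_81.GR

variable {k : Type} [Field k]

/-- The embedding of the polynomials. -/
noncomputable abbrev phi (k : Type) [Field k] : k[X] →+* RatFunc k := algebraMap k[X] (RatFunc k)

theorem phi_ne {q : k[X]} (h : q ≠ 0) : phi k q ≠ 0 := RatFunc.algebraMap_ne_zero h

/-- The local ring of the line at `a`. -/
noncomputable def finRing (a : k) : ValuationSubring (RatFunc k) where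
  carrier := {f | ∃ p q : k[X], q.eval a ≠ 0 ∧ f * phi k q = phi k p}
  mul_mem' := by
    rintro f g ⟨p, q, hq, hf⟩ ⟨p', q', hq', hg⟩
    refine ⟨p * p', q * q', by simp [hq, hq'], ?_⟩
    rw [map_mul, map_mul, ← hf, ← hg]
    ring
  one_mem' := ⟨1, 1, by simp, by simp⟩
  add_mem' := by
    rintro f g ⟨p, q, hq, hf⟩ ⟨p', q', hq', hg⟩
    refine ⟨p * q' + p' * q, q * q', by simp [hq, hq'], ?_⟩
    rw [map_mul, map_add, map_mul, map_mul, ← hf, ← hg]
    ring
  zero_mem' := ⟨0, 1, by simp, by simp⟩
  neg_mem' := by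
    rintro f ⟨p, q, hq, hf⟩
    refine ⟨-p, q, hq, ?_⟩
    rw [map_neg, ← hf]
    ring
  mem_or_inv_mem' := by
    intro f
    by_cases hf : f = 0
    · left
      exact ⟨0, 1, by simp, by simp [hf]⟩
    by_cases h : f.denom.eval a = 0
    · right
      refine ⟨f.denom, f.num, ?_, ?_⟩
      · intro h'
        obtain ⟨u, v, huv⟩ := f.isCoprime_num_denom
        have := congrArg (Polynomial.eval a) huv
        simp [h, h'] at this
      · have hn : phi k f.num ≠ 0 := phi_ne (RatFunc.num_ne_zero hf)
        have hd : phi k f.denom ≠ 0 := phi_ne f.denom_ne_zero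
        have := RatFunc.num_div_denom f
        nth_rewrite 1 [← this]
        field_simp
    · left
      refine ⟨f.num, f.denom, h, ?_⟩
      have hd : phi k f.denom ≠ 0 := phi_ne f.denom_ne_zero
      have := RatFunc.num_div_denom f
      nth_rewrite 1 [← this]
      field_simp

theorem mem_finRing {a : k} {f : RatFunc k} :
    f ∈ finRing a ↔ ∃ p q : k[X], q.eval a ≠ 0 ∧ f * phi k q = phi k p := Iff.rfl

/-- The local ring of the line at infinity. -/
noncomputable def infRing : ValuationSubring (RatFunc k) where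
  carrier := {f | ∃ p q : k[X], q ≠ 0 ∧ p.degree ≤ q.degree ∧ f * phi k q = phi k p}
  mul_mem' := by
    rintro f g ⟨p, q, hq, hd, hf⟩ ⟨p', q', hq', hd', hg⟩
    refine ⟨p * p', q * q', mul_ne_zero hq hq', ?_, ?_⟩
    · rw [degree_mul, degree_mul]
      exact add_le_add hd hd'
    rw [map_mul, map_mul, ← hf, ← hg]
    ring
  one_mem' := ⟨1, 1, by simp, le_rfl, by simp⟩
  add_mem' := by
    rintro f g ⟨p, q, hq, hd, hf⟩ ⟨p', q', hq', hd', hg⟩
    refine ⟨p * q' + p' * q, q * q', mul_ne_zero hq hq', ?_, ?_⟩
    · refine (degree_add_le _ _).trans (max_le ?_ ?_)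
      · rw [degree_mul, degree_mul]
        exact add_le_add hd le_rfl
      · rw [degree_mul, degree_mul, add_comm]
        exact add_le_add le_rfl hd'
    rw [map_mul, map_add, map_mul, map_mul, ← hf, ← hg]
    ring
  zero_mem' := ⟨0, 1, by simp, by simp, by simp⟩
  neg_mem' := by
    rintro f ⟨p, q, hq, hd, hf⟩
    refine ⟨-p, q, hq, by simpa using hd, ?_⟩
    rw [map_neg, ← hf]
    ring
  mem_or_inv_mem' := by
    intro f
    by_cases hf : f = 0
    · left
      exact ⟨0, 1, by simp, by simp, by simp [hf]⟩
    rcases le_total f.num.degree f.denom.degree with h | h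
    · left
      refine ⟨f.num, f.denom, f.denom_ne_zero, h, ?_⟩
      have hd : phi k f.denom ≠ 0 := phi_ne f.denom_ne_zero
      have := RatFunc.num_div_denom f
      nth_rewrite 1 [← this]
      field_simp
    · right
      refine ⟨f.denom, f.num, RatFunc.num_ne_zero hf, h, ?_⟩
      have hn : phi k f.num ≠ 0 := phi_ne (RatFunc.num_ne_zero hf)
      have hd : phi k f.denom ≠ 0 := phi_ne f.denom_ne_zero
      have := RatFunc.num_div_denom f
      nth_rewrite 1 [← this]
      field_simp

theorem mem_infRing {f : RatFunc k} :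
    f ∈ (infRing : ValuationSubring (RatFunc k)) ↔
      ∃ p q : k[X], q ≠ 0 ∧ p.degree ≤ q.degree ∧ f * phi k q = phi k p := Iff.rfl

/-- The local rings of the points of the line. -/
noncomputable def ptRing : Option k → ValuationSubring (RatFunc k)
  | none => infRing
  | some a => finRing a

/-- The standard uniformizers. -/
noncomputable def ptUnif : Option k → RatFunc k
  | none => RatFunc.X⁻¹
  | some a => RatFunc.X - RatFunc.C a

theorem phi_X : phi k X = RatFunc.X := RatFunc.algebraMap_X

theorem phi_C (a : k) : phi k (C a) = RatFunc.C a := RatFunc.algebraMap_C a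

theorem algC (a : k) : algebraMap k (RatFunc k) a = RatFunc.C a := by
  rw [RatFunc.algebraMap_eq_C]

theorem X_ne : (RatFunc.X : RatFunc k) ≠ 0 := RatFunc.X_ne_zero

theorem XC_ne (a : k) : (RatFunc.X : RatFunc k) - RatFunc.C a ≠ 0 := by
  rw [← phi_X, ← phi_C, ← map_sub]
  exact phi_ne (X_sub_C_ne_zero a)

theorem ptUnif_ne (P : Option k) : ptUnif P ≠ 0 := by
  cases P with
  | none => exact inv_ne_zero X_ne
  | some a => exact XC_ne a

theorem C_mem (P : Option k) (c : k) : RatFunc.C c ∈ ptRing P := by
  cases P with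
  | none =>
    refine ⟨C c, 1, by simp, ?_, by simp [phi_C]⟩
    rw [degree_one]
    exact degree_C_le
  | some a => exact ⟨C c, 1, by simp, by simp [phi_C]⟩

theorem expand (P : Option k) (f : RatFunc k) (hf : f ∈ ptRing P) :
    ∃ c : k, ∃ g ∈ ptRing P, f = RatFunc.C c + ptUnif P * g := by
  cases P with
  | none =>
    obtain ⟨p, q, hq, hd, h⟩ := hf
    have hqq : phi k q ≠ 0 := phi_ne hq
    have hX := X_ne (k := k)
    set c : k := p.coeff q.natDegree / q.leadingCoeff with hc
    have hlc : q.leadingCoeff ≠ 0 := leadingCoeff_ne_zero.mpr hq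
    refine ⟨c, RatFunc.X * (f - RatFunc.C c), ⟨X * (p - C c * q), q, hq, ?_, ?_⟩, ?_⟩
    · have h1 : (p - C c * q).degree < q.degree := by
        rw [degree_eq_natDegree hq, degree_lt_iff_coeff_zero]
        intro m hm
        rcases Nat.lt_or_ge q.natDegree m with h' | h'
        · have : p.coeff m = 0 := coeff_eq_zero_of_degree_lt
            (lt_of_le_of_lt hd (by rw [degree_eq_natDegree hq]; exact_mod_cast h'))
          rw [coeff_sub, coeff_C_mul, this, coeff_eq_zero_of_natDegree_lt h']
          simp
        · have : m = q.natDegree := le_antisymm h' (by exact_mod_cast hm)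
          subst this
          rw [coeff_sub, coeff_C_mul, coeff_natDegree, hc]
          field_simp
          simp
      by_cases h0 : p - C c * q = 0
      · rw [h0, mul_zero, degree_zero]
        exact bot_le
      · rw [degree_mul, degree_X, degree_eq_natDegree h0, degree_eq_natDegree hq]
        rw [degree_eq_natDegree h0, degree_eq_natDegree hq] at h1
        have h2 : (p - C c * q).natDegree < q.natDegree := by exact_mod_cast h1
        have h3 : 1 + (p - C c * q).natDegree ≤ q.natDegree := by omega
        exact_mod_cast h3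
    · rw [map_mul, map_sub, map_mul, phi_X, phi_C, ← h]
      ring
    · simp only [ptUnif]
      field_simp
      ring
  | some a =>
    obtain ⟨p, q, hq, h⟩ := hf
    have hq0 : q ≠ 0 := by
      rintro rfl
      simp at hq
    have hqq : phi k q ≠ 0 := phi_ne hq0
    set c : k := p.eval a / q.eval a with hc
    have hr : (X - C a) ∣ (p - C c * q) := by
      rw [dvd_iff_isRoot, IsRoot.def, eval_sub, eval_mul, eval_C, hc]
      field_simp
      simp
    obtain ⟨r, hr⟩ := hr
    refine ⟨c, phi k r / phi k q, ⟨r, q, hq, by field_simp⟩, ?_⟩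
    have h2 := congrArg (phi k) hr
    rw [map_sub, map_mul, map_mul, map_sub, phi_C, phi_C, phi_X, ← h] at h2
    simp only [ptUnif]
    field_simp
    linear_combination h2

theorem unif_mem (P : Option k) : ptUnif P ∈ ptRing P := by
  cases P with
  | none =>
    have := X_ne (k := k)
    exact ⟨1, X, X_ne_zero, by rw [degree_one, degree_X]; exact zero_le_one, by
      simp only [ptUnif, phi_X, map_one]
      field_simp⟩
  | some a => exact ⟨X - C a, 1, by simp, by simp [ptUnif, phi_X, phi_C]⟩

theorem unif_inv_not_mem (P : Option k) : (ptUnif P)⁻¹ ∉ ptRing P := by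
  cases P with
  | none =>
    rintro ⟨p, q, hq, hd, h⟩
    simp only [ptUnif, inv_inv, ← phi_X, ← map_mul] at h
    have := RatFunc.algebraMap_injective k h
    rw [← this, degree_mul, degree_X, degree_eq_natDegree hq] at hd
    have : 1 + q.natDegree ≤ q.natDegree := by exact_mod_cast hd
    omega
  | some a =>
    rintro ⟨p, q, hq, h⟩
    simp only [ptUnif, ← phi_X, ← phi_C, ← map_sub] at h
    have hne : phi k (X - C a) ≠ 0 := phi_ne (X_sub_C_ne_zero a)
    have h2 : phi k q = phi k ((X - C a) * p) := by
      rw [map_mul, ← h]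
      field_simp
    have := RatFunc.algebraMap_injective k h2
    rw [this] at hq
    simp at hq

theorem unif_inv_mem (P Q : Option k) (h : Q ≠ P) : (ptUnif P)⁻¹ ∈ ptRing Q := by
  cases P with
  | none =>
    cases Q with
    | none => exact absurd rfl h
    | some b =>
      refine ⟨X, 1, by simp, ?_⟩
      simp [ptUnif, phi_X]
  | some a =>
    have hne := XC_ne a
    cases Q with
    | none =>
      refine ⟨1, X - C a, X_sub_C_ne_zero a, ?_, ?_⟩
      · rw [degree_one, degree_X_sub_C]
        exact zero_le_one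
      · simp only [ptUnif, phi_X, phi_C, map_sub, map_one]
        field_simp
    | some b =>
      refine ⟨1, X - C a, ?_, ?_⟩
      · simp only [eval_sub, eval_X, eval_C]
        intro h'
        exact h (by rw [sub_eq_zero.mp h'])
      · simp only [ptUnif, phi_X, phi_C, map_sub, map_one]
        field_simp

theorem pole_order (P : Option k) (f : RatFunc k) : ∃ n : ℕ, ptUnif P ^ n * f ∈ ptRing P := by
  have hd : phi k f.denom ≠ 0 := phi_ne f.denom_ne_zero
  have hf : f * phi k f.denom = phi k f.num := by
    have := RatFunc.num_div_denom f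
    nth_rewrite 1 [← this]
    field_simp
  cases P with
  | none =>
    have hX := X_ne (k := k)
    refine ⟨f.num.natDegree, f.num, X ^ f.num.natDegree * f.denom,
      mul_ne_zero (pow_ne_zero _ X_ne_zero) f.denom_ne_zero, ?_, ?_⟩
    · rw [degree_mul, degree_X_pow]
      refine degree_le_natDegree.trans ?_
      rw [degree_eq_natDegree f.denom_ne_zero]
      exact_mod_cast Nat.le_add_right _ _
    · rw [← hf, map_mul, map_pow, phi_X]
      simp only [ptUnif, inv_pow]
      field_simp
  | some a =>
    obtain ⟨q, hq, hq'⟩ := Polynomial.exists_eq_pow_rootMultiplicity_mul_and_not_dvd f.denom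
      f.denom_ne_zero a
    refine ⟨f.denom.rootMultiplicity a, f.num, q, ?_, ?_⟩
    · intro h
      exact hq' (dvd_iff_isRoot.mpr h)
    · rw [← hf]
      conv_rhs => rw [hq]
      rw [map_mul, map_pow, map_sub, phi_X, phi_C]
      simp only [ptUnif]
      ring

theorem finite_poles (f : RatFunc k) : {P : Option k | f ∉ ptRing P}.Finite := by
  have hd : phi k f.denom ≠ 0 := phi_ne f.denom_ne_zero
  have hf : f * phi k f.denom = phi k f.num := by
    have := RatFunc.num_div_denom f
    nth_rewrite 1 [← this]
    field_simp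
  classical
  refine ((Set.finite_singleton (none : Option k)).union
    ((f.denom.roots.toFinset.finite_toSet).image some)).subset ?_
  intro P hP
  cases P with
  | none => left; rfl
  | some a =>
    right
    refine ⟨a, ?_, rfl⟩
    simp only [Finset.mem_coe, Multiset.mem_toFinset]
    rw [mem_roots f.denom_ne_zero, IsRoot.def]
    by_contra h
    exact hP ⟨f.num, f.denom, h, hf⟩

/-- `f` is in the local ring at `a` iff the denominator does not vanish at `a`. -/
theorem denom_ne_of_mem {a : k} {f : RatFunc k} (h : f ∈ finRing a) : f.denom.eval a ≠ 0 := by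
  obtain ⟨p, q, hq, hf⟩ := h
  have hq0 : q ≠ 0 := by
    rintro rfl
    simp at hq
  have hdvd : f.denom ∣ q := by
    rw [RatFunc.denom_dvd hq0]
    exact ⟨p, by rw [← hf]; field_simp [phi_ne hq0]⟩
  intro h0
  obtain ⟨r, hr⟩ := hdvd
  rw [hr] at hq
  simp [h0] at hq

theorem poly_of_fin [IsAlgClosed k] (f : RatFunc k) (h : ∀ a : k, f ∈ finRing a) :
    ∃ p : k[X], f = phi k p := by
  have h1 : f.denom.degree = 0 := by
    by_contra h0
    obtain ⟨a, ha⟩ := IsAlgClosed.exists_root f.denom h0
    exact denom_ne_of_mem (h a) ha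
  have h2 : f.denom = 1 := by
    have hm := RatFunc.monic_denom f
    have := natDegree_eq_of_degree_eq_some h1
    exact hm.natDegree_eq_zero.mp this
  refine ⟨f.num, ?_⟩
  have := RatFunc.num_div_denom f
  rw [h2, map_one, div_one] at this
  exact this.symm

theorem const_of_integral [IsAlgClosed k] (f : RatFunc k) (h : ∀ P : Option k, f ∈ ptRing P) :
    ∃ c : k, f = RatFunc.C c := by
  obtain ⟨p, rfl⟩ := poly_of_fin f (fun a => h (some a))
  obtain ⟨p', q, hq, hd, he⟩ := h none
  rw [← map_mul] at he
  have := RatFunc.algebraMap_injective k he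
  rw [← this] at hd
  refine ⟨p.coeff 0, ?_⟩
  have h2 : p.degree ≤ 0 := by
    by_cases hp : p = 0
    · simp [hp]
    rw [degree_mul, degree_eq_natDegree hp, degree_eq_natDegree hq] at hd
    have : p.natDegree + q.natDegree ≤ q.natDegree := by exact_mod_cast hd
    rw [degree_eq_natDegree hp]
    have h3 : p.natDegree = 0 := by omega
    rw [h3]
    exact le_rfl
  rw [← phi_C]
  exact congrArg (phi k) (eq_C_of_degree_le_zero h2)


theorem ptRing_ne_top (P : Option k) : ptRing P ≠ ⊤ := by
  intro h
  apply unif_inv_not_mem P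
  rw [h]
  trivial

theorem val_lt_of_inv_not_mem {K : Type} [Field K] (V : ValuationSubring K) {x : K}
    (h : x⁻¹ ∉ V) : V.valuation x < 1 := by
  have hx : x ∈ V := (V.mem_or_inv_mem _).resolve_right h
  refine lt_of_le_of_ne ((V.valuation_le_one_iff _).mpr hx) ?_
  intro h4
  apply h
  rw [← V.valuation_le_one_iff, map_inv₀, h4, inv_one]

theorem val_C_eq_one (V : ValuationSubring (RatFunc k)) (hk : ∀ c : k, RatFunc.C c ∈ V)
    {c : k} (hc : c ≠ 0) : V.valuation (RatFunc.C c) = 1 := by
  by_contra h
  have h1 : V.valuation (RatFunc.C c) < 1 :=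
    lt_of_le_of_ne ((V.valuation_le_one_iff _).mpr (hk c)) h
  have h2 : V.valuation (RatFunc.C c⁻¹) ≤ 1 := (V.valuation_le_one_iff _).mpr (hk _)
  have h3 := mul_lt_one_of_lt_of_le h1 h2
  rw [← map_mul, ← map_mul, mul_inv_cancel₀ hc, map_one, map_one] at h3
  exact lt_irrefl _ h3

theorem eq_of_le_ptRing (P : Option k) (V : ValuationSubring (RatFunc k)) (h : ptRing P ≤ V)
    (hπ : (ptUnif P)⁻¹ ∉ V) : ptRing P = V := by
  refine le_antisymm h ?_
  intro f hf
  by_contra hcon
  have hinv : f⁻¹ ∈ ptRing P := ((ptRing P).mem_or_inv_mem _).resolve_left hcon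
  obtain ⟨c, g, hg, he⟩ := expand P _ hinv
  have hc : c = 0 := by
    by_contra hc
    have h1 : (ptRing P).valuation f⁻¹ < 1 :=
      val_lt_of_inv_not_mem _ (by rwa [inv_inv])
    have h2 : (ptRing P).valuation (RatFunc.C c) < 1 := by
      have : RatFunc.C c = f⁻¹ - ptUnif P * g := by rw [he]; ring
      rw [this]
      refine lt_of_le_of_lt (Valuation.map_sub _ _ _) (max_lt h1 ?_)
      rw [map_mul]
      exact mul_lt_one_of_lt_of_le (val_lt_of_inv_not_mem _ (unif_inv_not_mem P))
        ((ptRing P).valuation_le_one_iff _ |>.mpr hg)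
    rw [val_C_eq_one _ (C_mem P) hc] at h2
    exact lt_irrefl _ h2
  rw [hc, map_zero, zero_add] at he
  have h1 : V.valuation f⁻¹ < 1 := by
    rw [he, map_mul]
    exact mul_lt_one_of_lt_of_le (val_lt_of_inv_not_mem _ hπ)
      (V.valuation_le_one_iff _ |>.mpr (h hg))
  have h2 : V.valuation f ≤ 1 := (V.valuation_le_one_iff _).mpr hf
  have h3 := mul_lt_one_of_lt_of_le h1 h2
  have hf0 : f ≠ 0 := by
    rintro rfl
    exact hcon (ptRing P).zero_mem
  rw [← map_mul, inv_mul_cancel₀ hf0, map_one] at h3
  exact lt_irrefl _ h3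

/-- The place of the point `P`. -/
noncomputable def pl (P : Option k) : Place k (RatFunc k) :=
  ⟨ptRing P, ptRing_ne_top P, fun c => by rw [algC]; exact C_mem P c⟩

theorem pl_injective : Function.Injective (pl (k := k)) := by
  intro P Q h
  by_contra hne
  have h1 := unif_inv_mem P Q (fun h' => hne h'.symm)
  have h2 : ptRing P = ptRing Q := congrArg Place.V h
  rw [← h2] at h1
  exact unif_inv_not_mem P h1

/-- All places are places of points. -/
theorem pl_surjective [IsAlgClosed k] : Function.Surjective (pl (k := k)) := by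
  rintro ⟨V, hV, hk⟩
  have hC : ∀ c : k, RatFunc.C c ∈ V := fun c => by rw [← algC]; exact hk c
  have hCu : ∀ c : k, c ≠ 0 → (RatFunc.C c : RatFunc k)⁻¹ ∈ V := fun c _ => by
    rw [← map_inv₀]
    exact hC _
  by_cases hX : (RatFunc.X : RatFunc k) ∈ V
  · have hpoly : ∀ p : k[X], phi k p ∈ V := by
      intro p
      induction p using Polynomial.induction_on' with
      | add p q hp hq => rw [map_add]; exact V.add_mem _ _ hp hq
      | monomial n a =>
        rw [← C_mul_X_pow_eq_monomial, map_mul, map_pow, phi_X, phi_C]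
        exact V.mul_mem _ _ (hC a) (pow_mem hX n)
    -- some nonzero polynomial is not a unit
    have h1 : ∃ p : k[X], p ≠ 0 ∧ (phi k p)⁻¹ ∉ V := by
      by_contra hcon
      push Not at hcon
      apply hV
      ext f
      refine ⟨fun _ => trivial, fun _ => ?_⟩
      have := RatFunc.num_div_denom f
      rw [← this, div_eq_mul_inv]
      exact V.mul_mem _ _ (hpoly _) (hcon _ f.denom_ne_zero)
    obtain ⟨p, hp, hpV⟩ := h1
    have h2 : ∃ a : k, ((RatFunc.X : RatFunc k) - RatFunc.C a)⁻¹ ∉ V := by
      by_contra hcon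
      push Not at hcon
      apply hpV
      have hsplit := IsAlgClosed.splits p
      have key : ∀ s : Multiset k, (phi k (s.map (fun a => X - C a)).prod)⁻¹ ∈ V := by
        intro s
        induction s using Multiset.induction_on with
        | empty => simp [V.one_mem]
        | cons a s ih =>
          rw [Multiset.map_cons, Multiset.prod_cons, map_mul, mul_inv, map_sub, phi_X, phi_C]
          exact V.mul_mem _ _ (hcon a) ih
      rw [hsplit.eq_prod_roots, map_mul, mul_inv, phi_C]
      exact V.mul_mem _ _ (hCu _ (leadingCoeff_ne_zero.mpr hp)) (key _)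
    obtain ⟨a, ha⟩ := h2
    refine ⟨some a, ?_⟩
    apply Place.ext
    refine eq_of_le_ptRing (some a) V ?_ ha
    rintro f ⟨p, q, hq, hf⟩
    -- q is a unit of V
    have hq0 : q ≠ 0 := by
      rintro rfl
      simp at hq
    have hqu : (phi k q)⁻¹ ∈ V := by
      by_contra hcon
      have hr : (X - C a) ∣ (q - C (q.eval a)) := by
        rw [dvd_iff_isRoot, IsRoot.def, eval_sub, eval_C, sub_self]
      obtain ⟨r, hr⟩ := hr
      have h3 : V.valuation (phi k q) < 1 := by
        have : V.valuation (phi k q) ≤ 1 := (V.valuation_le_one_iff _).mpr (hpoly q)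
        refine lt_of_le_of_ne this ?_
        intro h4
        apply hcon
        rw [← V.valuation_le_one_iff, map_inv₀, h4, inv_one]
      have h4 : V.valuation ((RatFunc.X : RatFunc k) - RatFunc.C a) < 1 := by
        have : V.valuation ((RatFunc.X : RatFunc k) - RatFunc.C a) ≤ 1 :=
          (V.valuation_le_one_iff _).mpr (by
            have := hpoly (X - C a)
            rwa [map_sub, phi_X, phi_C] at this)
        refine lt_of_le_of_ne this ?_
        intro h5
        apply ha
        rw [← V.valuation_le_one_iff, map_inv₀, h5, inv_one]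
      have h5 : V.valuation (RatFunc.C (q.eval a) : RatFunc k) < 1 := by
        have h6 : (RatFunc.C (q.eval a) : RatFunc k) =
            phi k q - ((RatFunc.X : RatFunc k) - RatFunc.C a) * phi k r := by
          have := congrArg (phi k) hr
          rw [map_sub, map_mul, map_sub, phi_C, phi_C, phi_X] at this
          rw [← this]
          ring
        rw [h6]
        refine lt_of_le_of_lt (Valuation.map_sub _ _ _) (max_lt h3 ?_)
        rw [map_mul]
        exact mul_lt_one_of_lt_of_le h4 ((V.valuation_le_one_iff _).mpr (hpoly r))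
      have h6 : V.valuation (RatFunc.C (q.eval a) : RatFunc k)⁻¹ ≤ 1 :=
        (V.valuation_le_one_iff _).mpr (hCu _ hq)
      have h7 : V.valuation (RatFunc.C (q.eval a) : RatFunc k) *
          V.valuation (RatFunc.C (q.eval a) : RatFunc k)⁻¹ = 1 := by
        rw [← map_mul, mul_inv_cancel₀, map_one]
        intro h8
        apply hq
        have := (map_eq_zero (RatFunc.C : k →+* RatFunc k)).mp h8
        exact this
      have h8 := mul_lt_one_of_lt_of_le h5 h6
      rw [h7] at h8
      exact lt_irrefl _ h8
    have : f = phi k p * (phi k q)⁻¹ := by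
      rw [← hf]
      have := phi_ne hq0
      field_simp
    rw [this]
    exact V.mul_mem _ _ (hpoly p) hqu
  · -- the place at infinity
    refine ⟨none, ?_⟩
    apply Place.ext
    refine eq_of_le_ptRing none V ?_ (by simpa [ptUnif] using hX)
    have hXi : (RatFunc.X : RatFunc k)⁻¹ ∈ V := (V.mem_or_inv_mem _).resolve_left hX
    have hlt : V.valuation (RatFunc.X : RatFunc k)⁻¹ < 1 := by
      refine lt_of_le_of_ne ((V.valuation_le_one_iff _).mpr hXi) ?_
      intro h
      apply hX
      rw [← V.valuation_le_one_iff]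
      rw [map_inv₀] at h
      rw [← inv_inv (V.valuation RatFunc.X), h, inv_one]
    -- `p / X ^ n` is in V for `natDegree p ≤ n`
    have hpn : ∀ (n : ℕ) (p : k[X]), p.natDegree ≤ n →
        phi k p * (RatFunc.X⁻¹) ^ n ∈ V := by
      intro n
      induction n with
      | zero =>
        intro p hp
        have := eq_C_of_natDegree_le_zero hp
        rw [this, phi_C, pow_zero, mul_one]
        exact hC _
      | succ n ih =>
        intro p hp
        have hdecomp := Polynomial.divX_mul_X_add p
        have h1 : phi k p * (RatFunc.X⁻¹) ^ (n + 1) =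
            phi k p.divX * (RatFunc.X⁻¹) ^ n +
              RatFunc.C (p.coeff 0) * (RatFunc.X⁻¹) ^ (n + 1) := by
          conv_lhs => rw [← hdecomp]
          rw [map_add, map_mul, phi_X, phi_C, pow_succ]
          have := X_ne (k := k)
          field_simp
        rw [h1]
        refine V.add_mem _ _ (ih _ ?_) (V.mul_mem _ _ (hC _) (pow_mem hXi _))
        rw [natDegree_divX_eq_natDegree_tsub_one]
        omega
    rintro f ⟨p, q, hq, hd, hf⟩
    have hu : (phi k q * (RatFunc.X⁻¹) ^ q.natDegree)⁻¹ ∈ V := by
      by_contra hcon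
      have hlc : q.leadingCoeff ≠ 0 := leadingCoeff_ne_zero.mpr hq
      have h3 : V.valuation (phi k q * (RatFunc.X⁻¹) ^ q.natDegree) < 1 := by
        refine lt_of_le_of_ne ((V.valuation_le_one_iff _).mpr (hpn _ q le_rfl)) ?_
        intro h4
        apply hcon
        rw [← V.valuation_le_one_iff, map_inv₀, h4, inv_one]
      -- the leading coefficient
      have h5 : V.valuation (RatFunc.C q.leadingCoeff : RatFunc k) < 1 := by
        have h6 : (RatFunc.C q.leadingCoeff : RatFunc k) =
            phi k q * (RatFunc.X⁻¹) ^ q.natDegree -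
              phi k (q.eraseLead) * (RatFunc.X⁻¹) ^ q.natDegree := by
          have := Polynomial.eraseLead_add_C_mul_X_pow q
          have h7 := congrArg (phi k) this
          rw [map_add, map_mul, map_pow, phi_X, phi_C] at h7
          have hX' := X_ne (k := k)
          rw [← h7, inv_pow]
          field_simp
          ring
        rw [h6]
        refine lt_of_le_of_lt (Valuation.map_sub _ _ _) (max_lt h3 ?_)
        by_cases h0 : q.natDegree = 0
        · have : q.eraseLead = 0 := by
            rw [eq_C_of_natDegree_eq_zero h0]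
            exact eraseLead_C _
          rw [this]
          simp
        · obtain ⟨m, hm⟩ := Nat.exists_eq_succ_of_ne_zero h0
          rw [hm, pow_succ, ← mul_assoc, map_mul]
          rw [mul_comm]
          refine mul_lt_one_of_lt_of_le hlt ((V.valuation_le_one_iff _).mpr (hpn m _ ?_))
          have := Polynomial.eraseLead_natDegree_le q
          omega
      have h6 : V.valuation (RatFunc.C q.leadingCoeff : RatFunc k)⁻¹ ≤ 1 :=
        (V.valuation_le_one_iff _).mpr (hCu _ hlc)
      have h7 : V.valuation (RatFunc.C q.leadingCoeff : RatFunc k) *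
          V.valuation (RatFunc.C q.leadingCoeff : RatFunc k)⁻¹ = 1 := by
        rw [← map_mul, mul_inv_cancel₀, map_one]
        intro h8
        apply hlc
        exact (map_eq_zero (RatFunc.C : k →+* RatFunc k)).mp h8
      have h8 := mul_lt_one_of_lt_of_le h5 h6
      rw [h7] at h8
      exact lt_irrefl _ h8
    have hpd : p.natDegree ≤ q.natDegree := natDegree_le_natDegree hd
    have : f = (phi k p * (RatFunc.X⁻¹) ^ q.natDegree) *
        (phi k q * (RatFunc.X⁻¹) ^ q.natDegree)⁻¹ := by
      rw [← hf]
      have h1 := phi_ne hq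
      have h2 := X_ne (k := k)
      field_simp
    rw [this]
    exact V.mul_mem _ _ (hpn _ _ hpd) hu


/-- `t` is a uniformizer at the place `q`, with no zero at the other places. -/
structure IsUnif (q : Place k (RatFunc k)) (t : RatFunc k) : Prop where
  ne : t ≠ 0
  mem : t ∈ q.1
  inv_not_mem : t⁻¹ ∉ q.1
  inv_mem : ∀ q' : Place k (RatFunc k), q' ≠ q → t⁻¹ ∈ q'.1
  expand : ∀ f ∈ q.1, ∃ c : k, ∃ g ∈ q.1, f = RatFunc.C c + t * g
  pole : ∀ f, ∃ n : ℕ, t ^ n * f ∈ q.1

theorem isUnif_pl [IsAlgClosed k] (P : Option k) : IsUnif (pl P) (ptUnif P) where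
  ne := ptUnif_ne P
  mem := unif_mem P
  inv_not_mem := unif_inv_not_mem P
  inv_mem := by
    intro q' hq'
    obtain ⟨Q, rfl⟩ := pl_surjective q'
    exact unif_inv_mem P Q (fun h => hq' (by rw [h]))
  expand := expand P
  pole := pole_order P

theorem exists_isUnif [IsAlgClosed k] (q : Place k (RatFunc k)) : ∃ t, IsUnif q t := by
  obtain ⟨P, rfl⟩ := pl_surjective q
  exact ⟨_, isUnif_pl P⟩

theorem C_mem_place (q : Place k (RatFunc k)) (c : k) : RatFunc.C c ∈ q.1 := by
  rw [← algC]
  exact q.3 c

section ev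

variable (q : Place k (RatFunc k))

theorem val_C (q : Place k (RatFunc k)) {c : k} (hc : c ≠ 0) : q.1.valuation (RatFunc.C c) = 1 :=
  val_C_eq_one _ (C_mem_place q) hc

theorem res_unique {f : RatFunc k} {c c' : k} (h : q.1.valuation (f - RatFunc.C c) < 1)
    (h' : q.1.valuation (f - RatFunc.C c') < 1) : c = c' := by
  by_contra hne
  have h1 : q.1.valuation (RatFunc.C (c - c')) < 1 := by
    have : RatFunc.C (c - c') = (f - RatFunc.C c') - (f - RatFunc.C c) := by
      rw [map_sub]; ring
    rw [this]
    exact lt_of_le_of_lt (Valuation.map_sub _ _ _) (max_lt h' h)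
  rw [val_C q (sub_ne_zero.mpr hne)] at h1
  exact lt_irrefl _ h1

open Classical in
/-- The value of `f` at the place `q` (for `f` which is integral at `q`). -/
noncomputable def ev (f : RatFunc k) : k :=
  if h : ∃ c : k, q.1.valuation (f - RatFunc.C c) < 1 then h.choose else 0

theorem ev_eq {f : RatFunc k} {c : k} (h : q.1.valuation (f - RatFunc.C c) < 1) : ev q f = c := by
  have h' : ∃ c : k, q.1.valuation (f - RatFunc.C c) < 1 := ⟨c, h⟩
  rw [ev, dif_pos h']
  exact res_unique q h'.choose_spec h

theorem IsUnif.val_lt {q : Place k (RatFunc k)} {t : RatFunc k} (ht : IsUnif q t) :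
    q.1.valuation t < 1 := val_lt_of_inv_not_mem _ ht.inv_not_mem

theorem ev_spec [IsAlgClosed k] {f : RatFunc k} (h : f ∈ q.1) :
    q.1.valuation (f - RatFunc.C (ev q f)) < 1 := by
  obtain ⟨t, ht⟩ := exists_isUnif q
  obtain ⟨c, g, hg, he⟩ := ht.expand f h
  have h1 : q.1.valuation (f - RatFunc.C c) < 1 := by
    rw [he, add_sub_cancel_left, map_mul]
    exact mul_lt_one_of_lt_of_le ht.val_lt ((q.1.valuation_le_one_iff _).mpr hg)
  rw [ev_eq q h1]
  exact h1

theorem ev_C (c : k) : ev q (RatFunc.C c) = c := ev_eq q (by simp)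

theorem ev_zero : ev q (0 : RatFunc k) = 0 := by
  have := ev_C q (0 : k)
  rwa [map_zero] at this

theorem ev_one : ev q (1 : RatFunc k) = 1 := by
  have := ev_C q (1 : k)
  rwa [map_one] at this

theorem ev_add [IsAlgClosed k] {f g : RatFunc k} (hf : f ∈ q.1) (hg : g ∈ q.1) :
    ev q (f + g) = ev q f + ev q g := by
  apply ev_eq
  have : f + g - RatFunc.C (ev q f + ev q g) =
      (f - RatFunc.C (ev q f)) + (g - RatFunc.C (ev q g)) := by rw [map_add]; ring
  rw [this]
  exact lt_of_le_of_lt (Valuation.map_add _ _ _) (max_lt (ev_spec q hf) (ev_spec q hg))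

theorem ev_neg [IsAlgClosed k] {f : RatFunc k} (hf : f ∈ q.1) : ev q (-f) = -ev q f := by
  apply ev_eq
  have : -f - RatFunc.C (-ev q f) = -(f - RatFunc.C (ev q f)) := by rw [map_neg]; ring
  rw [this, Valuation.map_neg]
  exact ev_spec q hf

theorem ev_sub [IsAlgClosed k] {f g : RatFunc k} (hf : f ∈ q.1) (hg : g ∈ q.1) :
    ev q (f - g) = ev q f - ev q g := by
  rw [sub_eq_add_neg, ev_add q hf (q.1.neg_mem _ hg), ev_neg q hg, ← sub_eq_add_neg]

theorem ev_mul [IsAlgClosed k] {f g : RatFunc k} (hf : f ∈ q.1) (hg : g ∈ q.1) :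
    ev q (f * g) = ev q f * ev q g := by
  apply ev_eq
  have : f * g - RatFunc.C (ev q f * ev q g) =
      (f - RatFunc.C (ev q f)) * g + RatFunc.C (ev q f) * (g - RatFunc.C (ev q g)) := by
    rw [map_mul]; ring
  rw [this]
  refine lt_of_le_of_lt (Valuation.map_add _ _ _) (max_lt ?_ ?_)
  · rw [map_mul]
    exact mul_lt_one_of_lt_of_le (ev_spec q hf) ((q.1.valuation_le_one_iff _).mpr hg)
  · rw [mul_comm, map_mul]
    exact mul_lt_one_of_lt_of_le (ev_spec q hg)
      ((q.1.valuation_le_one_iff _).mpr (C_mem_place q _))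

theorem smul_eq (c : k) (f : RatFunc k) : c • f = RatFunc.C c * f := by
  rw [Algebra.smul_def, algC]

theorem smul_mem_place {c : k} {f : RatFunc k} (hf : f ∈ q.1) : c • f ∈ q.1 := by
  rw [smul_eq]
  exact q.1.mul_mem _ _ (C_mem_place q c) hf

theorem ev_smul [IsAlgClosed k] (c : k) {f : RatFunc k} (hf : f ∈ q.1) :
    ev q (c • f) = c * ev q f := by
  rw [smul_eq, ev_mul q (C_mem_place q c) hf, ev_C]

theorem ev_eq_zero_iff [IsAlgClosed k] {f : RatFunc k} (hf : f ∈ q.1) :
    ev q f = 0 ↔ q.1.valuation f < 1 := by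
  constructor
  · intro h
    have := ev_spec q hf
    rw [h] at this
    simpa using this
  · intro h
    apply ev_eq
    simpa using h

theorem IsUnif.ev_eq_zero [IsAlgClosed k] {q : Place k (RatFunc k)} {t : RatFunc k}
    (ht : IsUnif q t) : ev q t = 0 := (ev_eq_zero_iff q ht.mem).mpr ht.val_lt

/-- An integral element with the value zero is divisible by the uniformizer. -/
theorem IsUnif.div_mem [IsAlgClosed k] {q : Place k (RatFunc k)} {t : RatFunc k}
    (ht : IsUnif q t) {f : RatFunc k} (hf : f ∈ q.1) (h0 : ev q f = 0) : f * t⁻¹ ∈ q.1 := by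
  obtain ⟨c, g, hg, he⟩ := ht.expand f hf
  have hc : c = 0 := by
    have h1 : q.1.valuation (f - RatFunc.C c) < 1 := by
      rw [he, add_sub_cancel_left, map_mul]
      exact mul_lt_one_of_lt_of_le ht.val_lt ((q.1.valuation_le_one_iff _).mpr hg)
    rw [← ev_eq q h1, h0]
  rw [he, hc, map_zero, zero_add, mul_comm t, mul_assoc, mul_inv_cancel₀ ht.ne, mul_one]
  exact hg

/-- The inverse of a non integral element is integral with the value zero. -/
theorem inv_mem_of_not_mem {f : RatFunc k} (hf : f ∉ q.1) : f⁻¹ ∈ q.1 :=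
  (q.1.mem_or_inv_mem _).resolve_left hf

/-- `c / f` is integral if `f / c` is not in the maximal ideal -/
theorem IsUnif.quot_mem [IsAlgClosed k] {q : Place k (RatFunc k)} {t : RatFunc k}
    (ht : IsUnif q t) {f : RatFunc k} (hf : f ∉ q.1) : t⁻¹ * f⁻¹ ∈ q.1 := by
  have h1 := inv_mem_of_not_mem q hf
  rw [mul_comm]
  refine ht.div_mem h1 ((ev_eq_zero_iff q h1).mpr (val_lt_of_inv_not_mem _ ?_))
  rwa [inv_inv]

end ev

/-- Strong approximation at one place. -/
theorem approx_one [IsAlgClosed k] (q : Place k (RatFunc k)) (g : RatFunc k) :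
    ∃ f : RatFunc k, (∀ q' : Place k (RatFunc k), q' ≠ q → f ∈ q'.1) ∧ g - f ∈ q.1 := by
  obtain ⟨t, ht⟩ := exists_isUnif q
  obtain ⟨n, hn⟩ := ht.pole g
  induction n generalizing g with
  | zero =>
    refine ⟨0, fun q' _ => q'.1.zero_mem, ?_⟩
    simpa using hn
  | succ n ih =>
    obtain ⟨c, h, hh, he⟩ := ht.expand _ hn
    obtain ⟨f, hf, hgf⟩ := ih (g - RatFunc.C c * (t⁻¹) ^ (n + 1)) (by
      have : t ^ n * (g - RatFunc.C c * (t⁻¹) ^ (n + 1)) = h := by
        have h1 : t ^ (n + 1) * g = RatFunc.C c + t * h := he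
        have ht0 := ht.ne
        rw [pow_succ] at h1
        rw [inv_pow, pow_succ]
        field_simp
        linear_combination h1
      rw [this]
      exact hh)
    refine ⟨f + RatFunc.C c * (t⁻¹) ^ (n + 1), ?_, ?_⟩
    · intro q' hq'
      exact q'.1.add_mem _ _ (hf q' hq')
        (q'.1.mul_mem _ _ (C_mem_place q' c) (pow_mem (ht.inv_mem q' hq') _))
    · have : g - (f + RatFunc.C c * (t⁻¹) ^ (n + 1)) = g - RatFunc.C c * (t⁻¹) ^ (n + 1) - f := by
        ring
      rw [this]
      exact hgf

/-- Strong approximation. -/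
theorem approx [IsAlgClosed k] (a : Place k (RatFunc k) → RatFunc k)
    (ha : {q : Place k (RatFunc k) | a q ∉ q.1}.Finite) :
    ∃ f : RatFunc k, ∀ q : Place k (RatFunc k), a q - f ∈ q.1 := by
  classical
  choose F hF hF' using fun q : Place k (RatFunc k) => approx_one q (a q)
  refine ⟨∑ q ∈ ha.toFinset, F q, ?_⟩
  intro q
  by_cases hq : q ∈ ha.toFinset
  · rw [← Finset.add_sum_erase _ _ hq, ← sub_sub]
    refine sub_mem (hF' q) (sum_mem ?_)
    intro q' hq'
    exact hF q' q (Finset.ne_of_mem_erase hq').symm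
  · have h1 : a q ∈ q.1 := by
      by_contra h
      exact hq (ha.mem_toFinset.mpr h)
    refine sub_mem h1 (sum_mem ?_)
    intro q' hq'
    refine hF q' q ?_
    rintro rfl
    exact hq hq'

/-- Everywhere integral functions are constant. -/
theorem const_of_mem [IsAlgClosed k] (f : RatFunc k) (h : ∀ q : Place k (RatFunc k), f ∈ q.1) :
    ∃ c : k, f = RatFunc.C c :=
  const_of_integral f (fun P => h (pl P))

theorem finite_not_mem [IsAlgClosed k] (f : RatFunc k) :
    {q : Place k (RatFunc k) | f ∉ q.1}.Finite := by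
  refine ((finite_poles f).image pl).subset ?_
  intro q hq
  obtain ⟨P, rfl⟩ := pl_surjective q
  exact ⟨P, hq, rfl⟩

end Pool.Agent.KS6_81.GR
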