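import Pool.Agent.KS6_81.GR.Sect

/-!
# The octahedral curve
-/

set_option autoImplicit false

open Module Polynomial

namespace Pool.Agent.KS6_81.GR

/-- The components joined by the nodes. -/
def ov (e : Fin 12 × Bool) : Fin 6 :=
  if e.2 then ![1, 2, 4, 5, 2, 3, 5, 3, 4, 4, 5, 5] e.1 else ![0, 0, 0, 0, 1, 1, 1, 2, 2, 3, 3, 4] e.1

/-- The coordinates of the branches. -/
def op (e : Fin 12 × Bool) : ℤ :=
  if e.2 then ![1, 2, -1, 2, 0, -1, 0, 2, 1, 2, -1, 1] e.1
  else ![2, 0, 1, -1, 2, -1, 0, 1, -1, 1, 0, 0] e.1

theorem ov_op_inj : ∀ e e' : Fin 12 × Bool, ov e = ov e' → op e = op e' → e = e' := by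
  decide +kernel

variable (k : Type) [Field k] [CharZero k]

/-- The octahedral configuration. -/
abbrev octa : Conf k where
  ι := Fin 6
  E := Fin 12
  v := ov
  p := fun e => ((op e : ℤ) : k)
  inj := fun e e' h h' => ov_op_inj e e' h (Int.cast_injective h')

/-- number of the branches on the components in `B` -/
def nbr (B : Finset (Fin 6)) : ℕ := (Finset.univ.filter fun e : Fin 12 × Bool => ov e ∈ B).card

/-- number of the nodes in `S` between components in `B` -/
def ninn (B : Finset (Fin 6)) (S : Finset (Fin 12)) : ℕ :=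
  (S.filter fun e => ov (e, false) ∈ B ∧ ov (e, true) ∈ B).card

theorem cuts : ∀ B : Finset (Fin 6), B.Nonempty → Bᶜ.Nonempty →
    4 + 2 * ninn B Finset.univ ≤ nbr B := by
  decide +kernel

/-- The nodes which are not on the component `0`. -/
def S0 : Finset (Fin 12) := Finset.univ.filter fun e => ov (e, false) ≠ 0 ∧ ov (e, true) ≠ 0

theorem card_S0 : ninn Finset.univ S0 = 8 := by decide +kernel

theorem ninn_univ : ninn Finset.univ Finset.univ = 12 := by decide +kernel

theorem nbr_univ : nbr Finset.univ = 24 := by decide +kernel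

theorem ninn_single : ∀ i : Fin 6, ∀ S : Finset (Fin 12), ninn {i} S = 0 := by
  intro i S
  have h : ∀ e : Fin 12, ¬ (ov (e, false) ∈ ({i} : Finset (Fin 6)) ∧ ov (e, true) ∈
      ({i} : Finset (Fin 6))) := by
    revert i
    decide +kernel
  rw [ninn, Finset.card_eq_zero, Finset.filter_eq_empty_iff]
  intro e _
  exact h e

theorem nbr_single : ∀ i : Fin 6, nbr {i} = 4 := by decide +kernel

variable [IsAlgClosed k]

theorem octa_chi_can (B : Finset (Fin 6)) : (octa k).curve.chi B (octa k).can =
    -(B.card : ℤ) + nbr B - ninn B Finset.univ := (octa k).chi_can B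

theorem octa_chi_str (B : Finset (Fin 6)) (S : Finset (Fin 12)) :
    (octa k).curve.chi B ((octa k).str S) = (B.card : ℤ) - ninn B S := (octa k).chi_str B S

theorem octa_chi_structure (B : Finset (Fin 6)) :
    (octa k).curve.chi B (octa k).curve.structureSheaf = (B.card : ℤ) - ninn B Finset.univ :=
  (octa k).chi_structure B

theorem octa_pa : (octa k).curve.pa Finset.univ = 7 := by
  have h := octa_chi_structure k Finset.univ
  rw [ninn_univ] at h
  show 1 - (octa k).curve.chi Finset.univ (octa k).curve.structureSheaf = 7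
  rw [h]
  simp

theorem octa_fourConnected : (octa k).curve.IsFourConnected (octa k).can := by
  intro B hB hB'
  have h := cuts B hB hB'
  have h1 := octa_chi_structure k B
  have h2 := octa_chi_can k B
  show 4 ≤ ((octa k).curve.chi B (octa k).can - (octa k).curve.chi B (octa k).curve.structureSheaf) -
    (2 * (1 - (octa k).curve.chi B (octa k).curve.structureSheaf) - 2)
  rw [h1, h2]
  have h' : (4 : ℤ) + 2 * (ninn B Finset.univ : ℤ) ≤ nbr B := by exact_mod_cast h
  linarith

theorem octa_not_hyperelliptic : ¬ (octa k).curve.IsHyperelliptic :=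
  (octa k).not_hyperelliptic (by simp)

theorem octa_planar : (octa k).curve.IsPlanar := (octa k).isPlanar

theorem octa_connected : (octa k).curve.IsConnected := by
  intro f hf
  have hf' : ∀ q : (octa k).Pt, f q.1 ∈ q.2.1 := fun q => hf.1 q
  have h1 : ∀ i, ∃ c : k, f i = RatFunc.C c := by
    intro i
    apply const_of_mem
    intro q
    exact hf' ⟨i, q⟩
  choose c hc using h1
  have h2 : ∀ e : Fin 12, c (ov (e, false)) = c (ov (e, true)) := by
    intro e
    have h3 := hf.2 e (Finset.mem_univ e)
    have h4 : ∀ b : Fin 12 × Bool, ev ((octa k).bp b).2 (f (ov b)) = c (ov b) := by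
      intro b
      rw [hc, ev_C]
    have h5 : ev ((octa k).bp (e, false)).2 (f (ov (e, false))) =
        ev ((octa k).bp (e, true)).2 (f (ov (e, true))) := h3
    rwa [h4, h4] at h5
  refine ⟨c 0, fun i => ?_⟩
  rw [show algebraMap k (RatFunc k) (c 0) = RatFunc.C (c 0) from algC _, hc]
  congr 1
  have e0 : c 0 = c 1 := h2 0
  have e1 : c 0 = c 2 := h2 1
  have e2 : c 0 = c 4 := h2 2
  have e3 : c 0 = c 5 := h2 3
  have e5 : c 1 = c 3 := h2 5
  fin_cases i
  · rfl
  · exact e0.symm
  · exact e1.symm
  · exact (e0.trans e5).symm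
  · exact e2.symm
  · exact e3.symm


theorem lat_integral_one (Γ : Conf k) {S : Finset Γ.E} {a : Γ.Fam} (ha : a ∈ Γ.str S)
    (q : Γ.Pt) : a q ∈ q.2.1 := by
  have := Conf.lat_integral ha q
  rwa [Pi.one_apply, inv_one, one_mul] at this

theorem mem_str (Γ : Conf k) {S : Finset Γ.E} {a : Γ.Fam} :
    a ∈ Γ.str S ↔ a ∈ Γ.nodeRing S := by
  constructor
  · intro ha
    refine ⟨fun q => ?_, fun e he => ?_⟩
    · have := lat_integral_one k Γ ha q
      exact this
    · have := ha.2.2 e he
      rwa [Pi.one_apply, Pi.one_apply, inv_one, one_mul, one_mul] at this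
  · intro ha
    refine ⟨fun q hq => absurd (Finset.mem_univ _) hq, fun q _ => ?_, fun e he => ?_⟩
    · rw [Pi.one_apply, inv_one, one_mul]
      exact ha.1 q
    · rw [Pi.one_apply, Pi.one_apply, inv_one, one_mul, one_mul]
      exact ha.2 e he

theorem isSheaf_str (Γ : Conf k) (S : Finset Γ.E) : Γ.curve.IsSheaf (Γ.str S) := by
  refine ⟨fun r hr a ha => ?_, ?_⟩
  · rw [mem_str] at ha ⊢
    refine (Γ.nodeRing S).mul_mem ?_ ha
    exact ⟨hr.1, fun e _ => hr.2 e (Finset.mem_univ e)⟩
  · obtain ⟨u, hu0, hu1, hu2⟩ := Γ.nodeRing_open S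
    have hu : ∀ q, u q ∈ q.2.1 := by
      intro q
      have := (hu2 1 fun q => q.2.1.one_mem).1 q
      rwa [mul_one] at this
    refine ⟨u, ⟨hu0, hu1⟩, fun a ha => ?_, fun a ha q => ?_⟩
    · rw [mem_str]
      exact hu2 a ha
    · exact q.2.1.mul_mem _ _ (hu q) (lat_integral_one k Γ ha q)


/-- The sections which are constant on the component `0` and on the union of the others. -/
noncomputable def twoConst (c : Fin 2 → k) : (octa k).Fam :=
  fun q => if q.1 = (0 : Fin 6) then RatFunc.C (c 0) else RatFunc.C (c 1)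

theorem twoConst_mem (c : Fin 2 → k) :
    twoConst k c ∈ (octa k).curve.H0 Finset.univ ((octa k).str S0) := by
  rw [Conf.mem_H0, mem_str]
  refine ⟨⟨fun i => if i = (0 : Fin 6) then RatFunc.C (c 0) else RatFunc.C (c 1), fun _ => rfl⟩,
    fun q => ?_, fun e he => ?_⟩
  · show (if q.1 = (0 : Fin 6) then _ else _) ∈ q.2.1
    split_ifs
    · exact C_mem_place _ _
    · exact C_mem_place _ _
  · have h1 := (Finset.mem_filter.mp he).2
    show ev _ (if ov (e, false) = (0 : Fin 6) then _ else _) =
      ev _ (if ov (e, true) = (0 : Fin 6) then _ else _)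
    rw [if_neg h1.1, if_neg h1.2, ev_C, ev_C]

theorem octa_h0 : 2 ≤ (octa k).curve.h0 Finset.univ ((octa k).str S0) := by
  have h1 := (octa k).chi_one Finset.univ ((octa k).inner Finset.univ S0)
    ((octa k).inner_spec Finset.univ S0)
  have h2 := (octa k).map_cut_sheaf Finset.univ (w := 1) (fun _ => one_ne_zero) S0
  have h3 : FiniteDimensional k ((octa k).curve.H0 Finset.univ ((octa k).str S0)) := by
    have := h1.fin0
    rw [← h2] at this
    exact this
  let Φ : (Fin 2 → k) →ₗ[k] ((octa k).curve.H0 Finset.univ ((octa k).str S0)) :=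
    { toFun := fun c => ⟨twoConst k c, twoConst_mem k c⟩
      map_add' := by
        intro c d
        apply Subtype.ext
        funext q
        show (if q.1 = (0 : Fin 6) then RatFunc.C (c 0 + d 0) else RatFunc.C (c 1 + d 1)) =
          (if q.1 = (0 : Fin 6) then RatFunc.C (c 0) else RatFunc.C (c 1)) +
          (if q.1 = (0 : Fin 6) then RatFunc.C (d 0) else RatFunc.C (d 1))
        split_ifs <;> rw [map_add]
      map_smul' := by
        intro r c
        apply Subtype.ext
        funext q
        show (if q.1 = (0 : Fin 6) then RatFunc.C (r * c 0) else RatFunc.C (r * c 1)) =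
          r • (if q.1 = (0 : Fin 6) then (RatFunc.C (c 0) : RatFunc k) else RatFunc.C (c 1))
        split_ifs <;> rw [smul_eq, map_mul] }
  have hinj : Function.Injective Φ := by
    intro c d h
    have h4 : ∀ q, twoConst k c q = twoConst k d q := fun q =>
      congrFun (congrArg Subtype.val h) q
    have h5 := h4 ⟨(0 : Fin 6), inf k⟩
    have h6 := h4 ⟨(1 : Fin 6), inf k⟩
    have e1 : (RatFunc.C (c 0) : RatFunc k) = RatFunc.C (d 0) := by
      simpa [twoConst] using h5
    have e2 : (RatFunc.C (c 1) : RatFunc k) = RatFunc.C (d 1) := by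
      simpa [twoConst] using h6
    funext i
    fin_cases i
    · exact RatFunc.C_injective e1
    · exact RatFunc.C_injective e2
  have h7 := LinearMap.finrank_le_finrank_of_injective hinj
  rw [Module.finrank_fintype_fun_eq_card, Fintype.card_fin] at h7
  show (2 : ℤ) ≤ (finrank k ((octa k).curve.H0 Finset.univ ((octa k).str S0)) : ℤ)
  exact_mod_cast h7

theorem octa_chi_F : (octa k).curve.chi Finset.univ ((octa k).str S0) = -2 := by
  rw [octa_chi_str, card_S0]
  simp

theorem octa_admissible : (octa k).curve.IsAdmissible (octa k).can ((octa k).str S0) := by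
  refine ⟨isSheaf_str k _ _, fun i => ?_, octa_h0 k, ?_⟩
  · have h1 : (octa k).curve.chi {i} ((octa k).str S0) = 1 := by
      have := octa_chi_str k {i} S0
      rw [ninn_single i S0] at this
      simpa using this
    have h2 : (octa k).curve.chi {i} (octa k).curve.structureSheaf = 1 := by
      have := octa_chi_structure k {i}
      rw [ninn_single i] at this
      simpa using this
    have h3 : (octa k).curve.chi {i} (octa k).can = 3 := by
      have := octa_chi_can k {i}
      rw [ninn_single i, nbr_single i] at this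
      simpa using this
    refine ⟨?_, ?_⟩
    · show 0 ≤ (octa k).curve.chi {i} ((octa k).str S0) -
        (octa k).curve.chi {i} (octa k).curve.structureSheaf
      rw [h1, h2]
      norm_num
    · show (octa k).curve.chi {i} ((octa k).str S0) -
        (octa k).curve.chi {i} (octa k).curve.structureSheaf ≤
        (octa k).curve.chi {i} (octa k).can - (octa k).curve.chi {i} (octa k).curve.structureSheaf
      rw [h1, h2, h3]
      norm_num
  · have h1 := octa_chi_F k
    have h2 := octa_h0 k
    have h3 : (octa k).curve.chi Finset.univ ((octa k).str S0) =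
      (octa k).curve.h0 Finset.univ ((octa k).str S0) -
      (octa k).curve.h1 Finset.univ ((octa k).str S0) := rfl
    linarith

theorem octa_cliffOf : (octa k).curve.cliffOf ((octa k).str S0) ≤ 2 := by
  have h1 := octa_chi_F k
  have h2 := octa_h0 k
  have h3 := octa_chi_structure k Finset.univ
  rw [ninn_univ] at h3
  show ((octa k).curve.chi Finset.univ ((octa k).str S0) -
    (octa k).curve.chi Finset.univ (octa k).curve.structureSheaf) -
    2 * (octa k).curve.h0 Finset.univ ((octa k).str S0) + 2 ≤ 2
  rw [h1, h3]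
  simp only [Finset.card_univ, Fintype.card_fin]
  push_cast
  linarith

theorem octa_cliff : (octa k).curve.cliff (octa k).can ≤ 2 := by
  rw [Curve.cliff]
  by_cases hb : BddBelow {c | ∃ U, (octa k).curve.IsAdmissible (octa k).can U ∧
      c = (octa k).curve.cliffOf U}
  · exact (csInf_le hb ⟨_, octa_admissible k, rfl⟩).trans (octa_cliffOf k)
  · rw [Int.csInf_of_not_bddBelow hb]
    norm_num

end Pool.Agent.KS6_81.GR
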