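import Pool.Agent.KS6_81.GR.Octa
import Pool.Agent.KS6_81.GR.Koszul

/-!
# The canonical sections of the octahedral curve
-/

set_option autoImplicit false

open Module Polynomial

namespace Pool.Agent.KS6_81.GR

/-- The values of the basis of the flows at the nodes. -/
def fl (e : Fin 12) (m : Fin 7) : ℤ :=
  (![![1, 0, 0, 0, 0, 0, 0], ![-1, -1, 0, 1, 0, 1, 1], ![0, 1, 0, 0, 0, 0, 0],
    ![0, 0, 0, -1, 0, -1, -1], ![1, 0, -1, -1, 0, 0, 0], ![0, 0, 1, 0, 0, 0, 0],
    ![0, 0, 0, 1, 0, 0, 0], ![0, 0, -1, 0, 1, 1, 0], ![0, -1, 0, 0, -1, 0, 1],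
    ![0, 0, 0, 0, 1, 0, 0], ![0, 0, 0, 0, 0, 1, 0], ![0, 0, 0, 0, 0, 0, 1]] :
      Fin 12 → Fin 7 → ℤ) e m

/-- The values of the basis at infinity. -/
def rho (i : Fin 6) (m : Fin 7) : ℤ :=
  (![![2, 1, 0, 1, 0, 1, 1], ![1, 0, -3, -2, 0, 0, 0], ![2, 3, -1, -2, 2, -1, -3],
    ![0, 0, 3, 0, -1, -2, 0], ![0, 2, 0, 0, -1, 0, -1], ![0, 0, 0, 2, 0, 3, 1]] :
      Fin 6 → Fin 7 → ℤ) i m

/-- The chords. -/
def ch (m : Fin 7) : Fin 12 := (![0, 2, 5, 6, 9, 10, 11] : Fin 7 → Fin 12) m

/-- The sign of a branch. -/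
def sgz (e : Fin 12 × Bool) : ℤ := if e.2 then -1 else 1

theorem fl_flow : ∀ i : Fin 6, ∀ m : Fin 7,
    ∑ e ∈ Finset.univ.filter (fun e : Fin 12 × Bool => ov e ∈ ({i} : Finset (Fin 6))),
      sgz e * fl e.1 m = 0 := by
  decide +kernel

theorem fl_rho : ∀ i : Fin 6, ∀ m : Fin 7,
    ∑ e ∈ Finset.univ.filter (fun e : Fin 12 × Bool => ov e ∈ ({i} : Finset (Fin 6))),
      sgz e * fl e.1 m * op e = rho i m := by
  decide +kernel

theorem fl_ch : ∀ j m : Fin 7, fl (ch j) m = if m = j then 1 else 0 := by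
  decide +kernel

variable {k : Type} [Field k] [CharZero k] [IsAlgClosed k]

theorem sg_octa (e : Fin 12 × Bool) : (octa k).sg e = ((sgz e : ℤ) : k) := by
  rw [Conf.sg, sgz]
  split_ifs <;> simp

theorem isFlow_fl (m : Fin 7) : (octa k).IsFlow (fun e : Fin 12 => ((fl e m : ℤ) : k)) := by
  intro i
  have h := congrArg (Int.cast : ℤ → k) (fl_flow i m)
  rw [Int.cast_sum, Int.cast_zero] at h
  rw [← h]
  refine Finset.sum_congr rfl fun e _ => ?_
  rw [sg_octa]
  push_cast
  rfl

theorem isFlow_comb (x : Fin 7 → k) :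
    (octa k).IsFlow (fun e : Fin 12 => ∑ m, ((fl e m : ℤ) : k) * x m) := by
  intro i
  have h : ∀ e ∈ (octa k).branches {i}, (octa k).sg e * ∑ m, ((fl e.1 m : ℤ) : k) * x m =
      ∑ m, (octa k).sg e * ((fl e.1 m : ℤ) : k) * x m := by
    intro e _
    rw [Finset.mul_sum]
    exact Finset.sum_congr rfl fun m _ => by ring
  show ∑ e ∈ (octa k).branches {i}, (octa k).sg e * ∑ m, ((fl e.1 m : ℤ) : k) * x m = 0
  rw [Finset.sum_congr rfl h, Finset.sum_comm]
  refine Finset.sum_eq_zero fun m _ => ?_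
  rw [← Finset.sum_mul]
  have h2 := isFlow_fl (k := k) m i
  rw [h2, zero_mul]

theorem br_sum0 (F : Fin 12 × Bool → k) :
    ∑ e ∈ Finset.univ.filter (fun e : Fin 12 × Bool => ov e ∈ ({0} : Finset (Fin 6))), F e =
      F (0, false) + F (1, false) + F (2, false) + F (3, false) := by
  have h : Finset.univ.filter (fun e : Fin 12 × Bool => ov e ∈ ({0} : Finset (Fin 6))) =
      ({(0, false), (1, false), (2, false), (3, false)} : Finset (Fin 12 × Bool)) := by decide +kernel
  rw [h, Finset.sum_insert (by decide), Finset.sum_insert (by decide),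
    Finset.sum_insert (by decide), Finset.sum_singleton]
  ring

theorem br_sum1 (F : Fin 12 × Bool → k) :
    ∑ e ∈ Finset.univ.filter (fun e : Fin 12 × Bool => ov e ∈ ({1} : Finset (Fin 6))), F e =
      F (0, true) + F (4, false) + F (5, false) + F (6, false) := by
  have h : Finset.univ.filter (fun e : Fin 12 × Bool => ov e ∈ ({1} : Finset (Fin 6))) =
      ({(0, true), (4, false), (5, false), (6, false)} : Finset (Fin 12 × Bool)) := by decide +kernel
  rw [h, Finset.sum_insert (by decide), Finset.sum_insert (by decide),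
    Finset.sum_insert (by decide), Finset.sum_singleton]
  ring

theorem br_sum2 (F : Fin 12 × Bool → k) :
    ∑ e ∈ Finset.univ.filter (fun e : Fin 12 × Bool => ov e ∈ ({2} : Finset (Fin 6))), F e =
      F (1, true) + F (4, true) + F (7, false) + F (8, false) := by
  have h : Finset.univ.filter (fun e : Fin 12 × Bool => ov e ∈ ({2} : Finset (Fin 6))) =
      ({(1, true), (4, true), (7, false), (8, false)} : Finset (Fin 12 × Bool)) := by decide +kernel
  rw [h, Finset.sum_insert (by decide), Finset.sum_insert (by decide),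
    Finset.sum_insert (by decide), Finset.sum_singleton]
  ring

theorem br_sum3 (F : Fin 12 × Bool → k) :
    ∑ e ∈ Finset.univ.filter (fun e : Fin 12 × Bool => ov e ∈ ({3} : Finset (Fin 6))), F e =
      F (5, true) + F (7, true) + F (9, false) + F (10, false) := by
  have h : Finset.univ.filter (fun e : Fin 12 × Bool => ov e ∈ ({3} : Finset (Fin 6))) =
      ({(5, true), (7, true), (9, false), (10, false)} : Finset (Fin 12 × Bool)) := by decide +kernel
  rw [h, Finset.sum_insert (by decide), Finset.sum_insert (by decide),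
    Finset.sum_insert (by decide), Finset.sum_singleton]
  ring

theorem br_sum4 (F : Fin 12 × Bool → k) :
    ∑ e ∈ Finset.univ.filter (fun e : Fin 12 × Bool => ov e ∈ ({4} : Finset (Fin 6))), F e =
      F (2, true) + F (8, true) + F (9, true) + F (11, false) := by
  have h : Finset.univ.filter (fun e : Fin 12 × Bool => ov e ∈ ({4} : Finset (Fin 6))) =
      ({(2, true), (8, true), (9, true), (11, false)} : Finset (Fin 12 × Bool)) := by decide +kernel
  rw [h, Finset.sum_insert (by decide), Finset.sum_insert (by decide),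
    Finset.sum_insert (by decide), Finset.sum_singleton]
  ring

theorem flow_eqs {r : Fin 12 → k} (hr : (octa k).IsFlow r) :
    r 0 + r 1 + r 2 + r 3 = 0 ∧ -r 0 + r 4 + r 5 + r 6 = 0 ∧ -r 1 - r 4 + r 7 + r 8 = 0 ∧
      -r 5 - r 7 + r 9 + r 10 = 0 ∧ -r 2 - r 8 - r 9 + r 11 = 0 := by
  have k0 : _ = (0 : k) := (br_sum0 (fun e => (octa k).sg e * r e.1)).symm.trans (hr 0)
  have k1 : _ = (0 : k) := (br_sum1 (fun e => (octa k).sg e * r e.1)).symm.trans (hr 1)
  have k2 : _ = (0 : k) := (br_sum2 (fun e => (octa k).sg e * r e.1)).symm.trans (hr 2)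
  have k3 : _ = (0 : k) := (br_sum3 (fun e => (octa k).sg e * r e.1)).symm.trans (hr 3)
  have k4 : _ = (0 : k) := (br_sum4 (fun e => (octa k).sg e * r e.1)).symm.trans (hr 4)
  simp only [Conf.sg, Bool.false_eq_true, if_false, if_true] at k0 k1 k2 k3 k4
  refine ⟨?_, ?_, ?_, ?_, ?_⟩
  · linear_combination k0
  · linear_combination k1
  · linear_combination k2
  · linear_combination k3
  · linear_combination k4

theorem flow_det {r : Fin 12 → k} (hr : (octa k).IsFlow r) (h0 : ∀ j, r (ch j) = 0) :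
    ∀ e, r e = 0 := by
  obtain ⟨k0, k1, k2, k3, k4⟩ := flow_eqs hr
  have a0 : r 0 = 0 := h0 0
  have a1 : r 2 = 0 := h0 1
  have a2 : r 5 = 0 := h0 2
  have a3 : r 6 = 0 := h0 3
  have a4 : r 9 = 0 := h0 4
  have a5 : r 10 = 0 := h0 5
  have a6 : r 11 = 0 := h0 6
  have b4 : r 4 = 0 := by linear_combination k1 + a0 - a2 - a3
  have b7 : r 7 = 0 := by linear_combination -k3 - a2 + a4 + a5
  have b8 : r 8 = 0 := by linear_combination -k4 - a1 - a4 + a6
  have b1 : r 1 = 0 := by linear_combination -k2 - b4 + b7 + b8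
  have b3 : r 3 = 0 := by linear_combination k0 - a0 - b1 - a1
  intro e
  fin_cases e <;> assumption

/-- Sections of the canonical sheaf. -/
abbrev Om (k : Type) [Field k] [CharZero k] [IsAlgClosed k] : Type :=
  (octa k).curve.H0 Finset.univ (octa k).can

theorem om_mem (m : Om k) : (m : (octa k).Fam) ∈ (octa k).can :=
  ((octa k).mem_H0.mp m.2).2

/-- The residues at the chords. -/
noncomputable def chordMap (k : Type) [Field k] [CharZero k] [IsAlgClosed k] :
    Om k →ₗ[k] (Fin 7 → k) where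
  toFun m j := ev ((octa k).bp (ch j, false)).2
    (((octa k).wcan ((octa k).bp (ch j, false)))⁻¹ *
      (m : (octa k).Fam) ((octa k).bp (ch j, false)))
  map_add' a b := by
    funext j
    simp only [Submodule.coe_add, Pi.add_apply, mul_add]
    rw [ev_add _ (Conf.lat_integral (om_mem a) _) (Conf.lat_integral (om_mem b) _)]
  map_smul' c a := by
    funext j
    simp only [Submodule.coe_smul, Pi.smul_apply, mul_smul_comm, RingHom.id_apply, smul_eq_mul]
    rw [ev_smul _ _ (Conf.lat_integral (om_mem a) _)]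

theorem chordMap_sec {r : Fin 12 → k} (hr : (octa k).IsFlow r) (j : Fin 7) :
    chordMap k ⟨(octa k).sec r, (octa k).sec_mem hr⟩ j = r (ch j) :=
  ((octa k).wsec_bp r (ch j, false)).2

theorem chordMap_bij : Function.Bijective (chordMap k) := by
  constructor
  · rw [← LinearMap.ker_eq_bot, LinearMap.ker_eq_bot']
    intro m hm
    obtain ⟨r, hr, hmr, hre⟩ := (octa k).eq_sec m.2
    have h0 : ∀ j, r (ch j) = 0 := by
      intro j
      rw [hre]
      exact congrFun hm j
    have h1 := flow_det hr h0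
    apply Subtype.ext
    rw [hmr]
    funext q
    show (octa k).secf r q.1 = 0
    rw [Conf.secf]
    refine Finset.sum_eq_zero fun e _ => ?_
    rw [h1 e.1, map_zero, zero_mul]
  · intro x
    refine ⟨⟨(octa k).sec _, (octa k).sec_mem (isFlow_comb x)⟩, ?_⟩
    funext j
    rw [chordMap_sec (isFlow_comb x)]
    simp only [fl_ch]
    simp

/-- The basis of the canonical sections. -/
noncomputable def omBasis (k : Type) [Field k] [CharZero k] [IsAlgClosed k] :
    Basis (Fin 7) k (Om k) :=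
  Basis.ofEquivFun (LinearEquiv.ofBijective (chordMap k) chordMap_bij)

theorem omBasis_apply (m : Fin 7) :
    omBasis k m = ⟨(octa k).sec (fun e : Fin 12 => ((fl e m : ℤ) : k)),
      (octa k).sec_mem (isFlow_fl m)⟩ := by
  apply (LinearEquiv.ofBijective (chordMap k) chordMap_bij).injective
  rw [omBasis, Basis.coe_ofEquivFun, LinearEquiv.apply_symm_apply]
  funext j
  show _ = chordMap k _ j
  rw [chordMap_sec (isFlow_fl m)]
  simp only [fl_ch]
  rw [Pi.single_apply]
  by_cases h : j = m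
  · subst h; simp
  · rw [if_neg h, if_neg (fun h' => h h'.symm)]
    simp

/-- The value at the point `q` of the basis is `P`. -/
def IsVal (q : (octa k).Pt) (P : Fin 7 → k) : Prop :=
  ∀ m, ev q.2 (((octa k).wcan q)⁻¹ * (omBasis k m : (octa k).Fam) q) = P m

theorem isVal_node (e : Fin 12) : IsVal ((octa k).bp (e, false))
    (fun m => ((fl e m : ℤ) : k)) := by
  intro m
  rw [omBasis_apply]
  exact ((octa k).wsec_bp (fun e : Fin 12 => ((fl e m : ℤ) : k)) (e, false)).2

theorem isVal_inf (i : Fin 6) : IsVal (k := k) ⟨i, inf k⟩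
    (fun m => ((rho i m : ℤ) : k)) := by
  intro m
  rw [omBasis_apply, Conf.wcan_inf, inv_inv]
  refine ((octa k).XX_secf (isFlow_fl m) i).2.trans ?_
  have h := congrArg (Int.cast : ℤ → k) (fl_rho i m)
  show _ = ((rho i m : ℤ) : k)
  rw [← h, Int.cast_sum]
  refine Finset.sum_congr rfl fun e _ => ?_
  rw [sg_octa]
  push_cast
  rfl

/-- The quadratic relations of a Koszul cocycle. -/
theorem quad {q : (octa k).Pt} {P : Fin 7 → k} (hP : IsVal q P) (t : Fin 7 → Fin 7 → k)
    (h : ∑ a, ∑ j, t a j • mulOn ((octa k).curve.H0 Finset.univ (octa k).can)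
      (omBasis k a) (omBasis k j) = 0) : ∑ a, ∑ j, t a j * (P a * P j) = 0 := by
  have hint : ∀ m, ((octa k).wcan q)⁻¹ * (omBasis k m : (octa k).Fam) q ∈ q.2.1 :=
    fun m => Conf.lat_integral (om_mem _) q
  have h1 := congrFun h q
  have h2 : ∑ a, ∑ j, t a j • ((omBasis k a : (octa k).Fam) q * (omBasis k j : (octa k).Fam) q) =
      0 := by
    refine Eq.trans ?_ h1
    simp only [Finset.sum_apply, Pi.smul_apply]
    rfl
  have h3 : ∑ a, ∑ j, t a j • ((((octa k).wcan q)⁻¹ * (omBasis k a : (octa k).Fam) q) *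
      (((octa k).wcan q)⁻¹ * (omBasis k j : (octa k).Fam) q)) = 0 := by
    have : ∀ a j, t a j • ((((octa k).wcan q)⁻¹ * (omBasis k a : (octa k).Fam) q) *
      (((octa k).wcan q)⁻¹ * (omBasis k j : (octa k).Fam) q)) =
      (((octa k).wcan q)⁻¹ * ((octa k).wcan q)⁻¹) *
      (t a j • ((omBasis k a : (octa k).Fam) q * (omBasis k j : (octa k).Fam) q)) := by
      intro a j
      rw [smul_eq, smul_eq]
      ring
    simp only [this, ← Finset.mul_sum]
    rw [h2, mul_zero]
  have h4 := congrArg (ev q.2) h3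
  rw [ev_zero, ev_sum _ _ _ fun a _ => sum_mem fun j _ =>
    smul_mem_place _ (q.2.1.mul_mem _ _ (hint a) (hint j))] at h4
  rw [← h4]
  refine Finset.sum_congr rfl fun a _ => ?_
  rw [ev_sum _ _ _ fun j _ => smul_mem_place _ (q.2.1.mul_mem _ _ (hint a) (hint j))]
  refine Finset.sum_congr rfl fun j _ => ?_
  rw [ev_smul _ _ (q.2.1.mul_mem _ _ (hint a) (hint j)), ev_mul _ (hint a) (hint j), hP, hP]

end Pool.Agent.KS6_81.GR
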