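import Pool.Agent.KS6_81.GR.Line

/-!
# A Weil differential of the rational function field
-/

set_option autoImplicit false

open Module Polynomial

namespace Pool.Agent.KS6_81.GR

variable {k : Type} [Field k]

/-- The families of rational functions over the places of the line. -/
abbrev LFam (k : Type) [Field k] : Type := Place k (RatFunc k) → RatFunc k

/-- The place at infinity. -/
noncomputable abbrev inf (k : Type) [Field k] : Place k (RatFunc k) := pl none

/-- The families which are integral at the finite places and have a double zero at infinity. -/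
noncomputable def nullFam (k : Type) [Field k] : Submodule k (LFam k) where
  carrier := {a | (∀ q, q ≠ inf k → a q ∈ q.1) ∧ RatFunc.X ^ 2 * a (inf k) ∈ (inf k).1}
  zero_mem' := ⟨fun q _ => q.1.zero_mem, by simpa using (inf k).1.zero_mem⟩
  add_mem' := by
    rintro a b ⟨ha, ha'⟩ ⟨hb, hb'⟩
    refine ⟨fun q hq => q.1.add_mem _ _ (ha q hq) (hb q hq), ?_⟩
    rw [Pi.add_apply, mul_add]
    exact (inf k).1.add_mem _ _ ha' hb'
  smul_mem' := by
    rintro c a ⟨ha, ha'⟩
    refine ⟨fun q hq => smul_mem_place q (ha q hq), ?_⟩
    rw [Pi.smul_apply, mul_smul_comm]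
    exact smul_mem_place _ ha'

/-- The constant families. -/
noncomputable def constFam (k : Type) [Field k] : Submodule k (LFam k) where
  carrier := {a | ∃ f, ∀ q, a q = f}
  zero_mem' := ⟨0, fun _ => rfl⟩
  add_mem' := by
    rintro a b ⟨f, hf⟩ ⟨g, hg⟩
    exact ⟨f + g, fun q => by rw [Pi.add_apply, hf, hg]⟩
  smul_mem' := by
    rintro c a ⟨f, hf⟩
    exact ⟨c • f, fun q => by rw [Pi.smul_apply, hf]⟩

/-- The family with the element `g` at the place `q` and `0` elsewhere. -/
noncomputable def single (q : Place k (RatFunc k)) (g : RatFunc k) : LFam k :=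
  open Classical in Pi.single q g

theorem single_same (q : Place k (RatFunc k)) (g : RatFunc k) : single q g q = g := by
  classical
  simp [single]

theorem single_ne {q q' : Place k (RatFunc k)} (g : RatFunc k) (h : q' ≠ q) :
    single q g q' = 0 := by
  classical
  simp [single, h]

theorem single_inf_not_mem [IsAlgClosed k] :
    single (inf k) RatFunc.X⁻¹ ∉ constFam k ⊔ nullFam k := by
  intro h
  obtain ⟨a, ⟨f, hf⟩, b, ⟨hb, hb'⟩, hab⟩ := Submodule.mem_sup.mp h
  have h1 : ∀ q, q ≠ inf k → f ∈ q.1 := by
    intro q hq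
    have := congrFun hab q
    rw [single_ne _ hq, Pi.add_apply, hf] at this
    rw [eq_neg_of_add_eq_zero_left this]
    exact q.1.neg_mem _ (hb q hq)
  obtain ⟨p, hp⟩ := poly_of_fin f (fun a => h1 (pl (some a)) (fun h => by
    have := pl_injective h
    simp at this))
  have h2 : b (inf k) = RatFunc.X⁻¹ - f := by
    have := congrFun hab (inf k)
    rw [single_same, Pi.add_apply, hf] at this
    rw [← this]
    ring
  rw [h2, hp] at hb'
  have hX := X_ne (k := k)
  have h3 : (RatFunc.X ^ 2 * (RatFunc.X⁻¹ - phi k p) : RatFunc k) = phi k (X - X ^ 2 * p) := by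
    rw [map_sub, map_mul, map_pow, phi_X]
    field_simp
  rw [h3] at hb'
  obtain ⟨p', q, hq, hd, he⟩ := hb'
  rw [← map_mul] at he
  have h4 := RatFunc.algebraMap_injective k he
  have h5 : (X - X ^ 2 * p : k[X]).degree ≤ 0 := by
    by_cases h0 : (X - X ^ 2 * p : k[X]) = 0
    · simp [h0]
    rw [← h4, degree_mul, degree_eq_natDegree h0, degree_eq_natDegree hq] at hd
    have : (X - X ^ 2 * p : k[X]).natDegree + q.natDegree ≤ q.natDegree := by exact_mod_cast hd
    rw [degree_eq_natDegree h0]
    have h3 : (X - X ^ 2 * p : k[X]).natDegree = 0 := by omega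
    rw [h3]
    exact le_rfl
  have h6 : (X - X ^ 2 * p : k[X]).coeff 1 = 0 := by
    apply coeff_eq_zero_of_degree_lt
    exact lt_of_le_of_lt h5 (by norm_num)
  have h7 : (X ^ 2 * p : k[X]).coeff 1 = 0 := by
    rw [Polynomial.coeff_X_pow_mul']
    simp
  rw [coeff_sub, h7, coeff_X_one] at h6
  simp at h6

/-- There is a Weil differential of the line with a double pole at infinity. -/
theorem exists_residue [IsAlgClosed k] : ∃ μ : LFam k →ₗ[k] k, (∀ a ∈ constFam k, μ a = 0) ∧
    (∀ a ∈ nullFam k, μ a = 0) ∧ μ (single (inf k) RatFunc.X⁻¹) = 1 := by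
  obtain ⟨μ, hμ1, hμ2⟩ := Submodule.exists_dual_map_eq_bot_of_notMem
    (single_inf_not_mem (k := k)) inferInstance
  have h : ∀ a ∈ constFam k ⊔ nullFam k, μ a = 0 := by
    intro a ha
    have : μ a ∈ Submodule.map μ (constFam k ⊔ nullFam k) := ⟨a, ha, rfl⟩
    rw [hμ2] at this
    simpa using this
  refine ⟨(μ (single (inf k) RatFunc.X⁻¹))⁻¹ • μ, ?_, ?_, ?_⟩
  · intro a ha
    rw [LinearMap.smul_apply, h a (Submodule.mem_sup_left ha), smul_zero]
  · intro a ha
    rw [LinearMap.smul_apply, h a (Submodule.mem_sup_right ha), smul_zero]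
  · rw [LinearMap.smul_apply, smul_eq_mul, inv_mul_cancel₀ hμ1]

/-- The chosen Weil differential. -/
noncomputable def residue (k : Type) [Field k] [IsAlgClosed k] : LFam k →ₗ[k] k :=
  exists_residue.choose

theorem residue_const [IsAlgClosed k] (a : LFam k) (f : RatFunc k) (h : ∀ q, a q = f) :
    residue k a = 0 := exists_residue.choose_spec.1 a ⟨f, h⟩

theorem residue_null [IsAlgClosed k] (a : LFam k) (h : a ∈ nullFam k) :
    residue k a = 0 := exists_residue.choose_spec.2.1 a h

theorem residue_inf [IsAlgClosed k] : residue k (single (inf k) RatFunc.X⁻¹) = 1 :=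
  exists_residue.choose_spec.2.2

theorem residue_congr [IsAlgClosed k] {a b : LFam k} (h : a - b ∈ nullFam k) :
    residue k a = residue k b := by
  have := residue_null _ h
  rw [map_sub, sub_eq_zero] at this
  exact this

theorem pl_some_ne (c : k) : pl (some c) ≠ inf k := by
  intro h
  have := pl_injective h
  simp at this

theorem residue_fin [IsAlgClosed k] (c : k) :
    residue k (single (pl (some c)) (RatFunc.X - RatFunc.C c)⁻¹) = -1 := by
  have h0 := residue_const (fun _ : Place k (RatFunc k) => (RatFunc.X - RatFunc.C c : RatFunc k)⁻¹)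
    _ (fun _ => rfl)
  have h1 : residue k (fun _ : Place k (RatFunc k) => (RatFunc.X - RatFunc.C c : RatFunc k)⁻¹) =
      residue k (single (pl (some c)) (RatFunc.X - RatFunc.C c)⁻¹ +
        single (inf k) RatFunc.X⁻¹) := by
    apply residue_congr
    constructor
    · intro q hq
      rw [Pi.sub_apply, Pi.add_apply, single_ne _ hq, add_zero]
      by_cases h : q = pl (some c)
      · subst h
        rw [single_same, sub_self]
        exact ValuationSubring.zero_mem _
      · rw [single_ne _ h, sub_zero]
        exact (isUnif_pl (some c)).inv_mem q h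
    · rw [Pi.sub_apply, Pi.add_apply, single_same, single_ne _ (pl_some_ne c).symm, zero_add]
      refine ⟨C c * X, X - C c, X_sub_C_ne_zero c, ?_, ?_⟩
      · rw [degree_X_sub_C]
        refine (degree_C_mul_X_le c)
      · rw [map_mul, map_sub, phi_X, phi_C]
        have h2 := X_ne (k := k)
        have h3 := XC_ne c
        field_simp
        ring
  rw [h1, map_add, residue_inf] at h0
  exact eq_neg_of_add_eq_zero_left h0

theorem single_add (q : Place k (RatFunc k)) (f g : RatFunc k) :
    single q (f + g) = single q f + single q g := by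
  classical
  simp [single, Pi.single_add]

theorem single_smul (q : Place k (RatFunc k)) (c : k) (g : RatFunc k) :
    single q (c • g) = c • single q g := by
  classical
  simp [single, Pi.single_smul]

theorem single_null {q : Place k (RatFunc k)} (hq : q ≠ inf k) {g : RatFunc k} (hg : g ∈ q.1) :
    single q g ∈ nullFam k := by
  constructor
  · intro q' _
    by_cases h : q' = q
    · subst h
      rw [single_same]
      exact hg
    · rw [single_ne _ h]
      exact q'.1.zero_mem
  · rw [single_ne _ hq.symm, mul_zero]
    exact (inf k).1.zero_mem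

/-- The residue at a simple pole. -/
theorem residue_simple [IsAlgClosed k] (c : k) {h : RatFunc k} (hh : h ∈ (pl (some c)).1) :
    residue k (single (pl (some c)) (h * (RatFunc.X - RatFunc.C c)⁻¹)) =
      -ev (pl (some c)) h := by
  have ht := isUnif_pl (some c)
  set t : RatFunc k := RatFunc.X - RatFunc.C c with htd
  have h1 : h * t⁻¹ = (ev (pl (some c)) h) • t⁻¹ +
      (h - RatFunc.C (ev (pl (some c)) h)) * t⁻¹ := by
    rw [smul_eq]
    ring
  have h2 : (h - RatFunc.C (ev (pl (some c)) h)) * t⁻¹ ∈ (pl (some c)).1 := by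
    apply ht.div_mem
    · exact sub_mem hh (C_mem_place _ _)
    · rw [ev_sub _ hh (C_mem_place _ _), ev_C, sub_self]
  rw [h1, single_add, single_smul, map_add, map_smul, residue_fin,
    residue_null _ (single_null (pl_some_ne c) h2)]
  simp

end Pool.Agent.KS6_81.GR
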