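import Pool.Agent.KS6_81.GR.Geom

/-!
# Sections of the canonical sheaf of a nodal curve with rational components
-/

set_option autoImplicit false

open Module Polynomial

namespace Pool.Agent.KS6_81.GR

variable {k : Type} [Field k] [IsAlgClosed k]

theorem ev_sum {α : Type} (q : Place k (RatFunc k)) (s : Finset α) (f : α → RatFunc k)
    (h : ∀ i ∈ s, f i ∈ q.1) : ev q (∑ i ∈ s, f i) = ∑ i ∈ s, ev q (f i) := by
  classical
  induction s using Finset.induction_on with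
  | empty => rw [Finset.sum_empty, Finset.sum_empty, ev_zero]
  | insert a s ha ih =>
    rw [Finset.sum_insert ha, Finset.sum_insert ha,
      ev_add q (h a (Finset.mem_insert_self a s))
        (sum_mem fun i hi => h i (Finset.mem_insert_of_mem hi)),
      ih fun i hi => h i (Finset.mem_insert_of_mem hi)]

namespace Conf

variable (Γ : Conf k)

/-- The sign of a branch. -/
def sg (e : Γ.E × Bool) : k := if e.2 then -1 else 1

theorem sg_sq (e : Γ.E × Bool) : Γ.sg e * Γ.sg e = 1 := by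
  rw [sg]
  split_ifs <;> ring

theorem tau_eq (e : Γ.E × Bool) :
    Γ.tau e = RatFunc.C (Γ.sg e) * (RatFunc.X - RatFunc.C (Γ.p e)) := by
  rw [tau, sg]
  split_ifs
  · rw [map_neg, map_one]; ring
  · rw [map_one]; ring

theorem tau_inv_eq (e : Γ.E × Bool) :
    (Γ.tau e)⁻¹ = RatFunc.C (Γ.sg e) * (RatFunc.X - RatFunc.C (Γ.p e))⁻¹ := by
  rw [tau_eq, mul_inv]
  congr 1
  apply inv_eq_of_mul_eq_one_left
  rw [← map_mul, sg_sq, map_one]

theorem tau_inv_mem (e : Γ.E × Bool) {q : Place k (RatFunc k)} (h : q ≠ (Γ.bp e).2) :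
    (Γ.tau e)⁻¹ ∈ q.1 := by
  rw [tau_inv_eq]
  exact q.1.mul_mem _ _ (C_mem_place q _) ((isUnif_pl (some (Γ.p e))).inv_mem q h)

/-- The rational function with the residues `r` on the component `i`. -/
noncomputable def secf (r : Γ.E → k) (i : Γ.ι) : RatFunc k :=
  ∑ e ∈ Γ.branches {i}, RatFunc.C (r e.1) * (Γ.tau e)⁻¹

theorem mem_branches_single {i : Γ.ι} {e : Γ.E × Bool} : e ∈ Γ.branches {i} ↔ Γ.v e = i := by
  rw [branches, Finset.mem_filter, Finset.mem_singleton]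
  exact ⟨fun h => h.2, fun h => ⟨Finset.mem_univ _, h⟩⟩

theorem bp_snd_ne {q : Γ.Pt} {e : Γ.E × Bool} (h1 : Γ.v e = q.1) (h2 : Γ.bp e ≠ q) :
    q.2 ≠ (Γ.bp e).2 := by
  intro h
  apply h2
  obtain ⟨i, q'⟩ := q
  have h1' : Γ.v e = i := h1
  subst h1'
  have h' : q' = (Γ.bp e).2 := h
  subst h'
  rfl

theorem secf_mem (r : Γ.E → k) {q : Γ.Pt} (h : ¬ ∃ e, Γ.bp e = q) :
    Γ.secf r q.1 ∈ q.2.1 := by
  refine sum_mem fun e he => ?_
  refine q.2.1.mul_mem _ _ (C_mem_place _ _) (Γ.tau_inv_mem e ?_)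
  exact Γ.bp_snd_ne (Γ.mem_branches_single.mp he) fun h' => h ⟨e, h'⟩

theorem secf_bp (r : Γ.E → k) (e0 : Γ.E × Bool) :
    Γ.tau e0 * Γ.secf r (Γ.v e0) ∈ (Γ.bp e0).2.1 ∧
      ev (Γ.bp e0).2 (Γ.tau e0 * Γ.secf r (Γ.v e0)) = r e0.1 := by
  classical
  have ht := Γ.ul_tau e0
  have h1 : ∀ e ∈ Γ.branches {Γ.v e0}, e ≠ e0 → (Γ.tau e)⁻¹ ∈ (Γ.bp e0).2.1 := by
    intro e he hne
    apply Γ.tau_inv_mem
    exact Γ.bp_snd_ne (q := Γ.bp e0) (Γ.mem_branches_single.mp he)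
      fun h' => hne (Γ.bp_injective h')
  have h2 : ∀ e ∈ Γ.branches {Γ.v e0},
      Γ.tau e0 * (RatFunc.C (r e.1) * (Γ.tau e)⁻¹) ∈ (Γ.bp e0).2.1 ∧
      ev (Γ.bp e0).2 (Γ.tau e0 * (RatFunc.C (r e.1) * (Γ.tau e)⁻¹)) =
        if e = e0 then r e0.1 else 0 := by
    intro e he
    by_cases h : e = e0
    · subst h
      have h3 : Γ.tau e * (RatFunc.C (r e.1) * (Γ.tau e)⁻¹) = RatFunc.C (r e.1) := by
        have := ht.ne
        field_simp
      rw [h3, if_pos rfl, ev_C]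
      exact ⟨C_mem_place _ _, rfl⟩
    · have h3 := h1 e he h
      have h4 : RatFunc.C (r e.1) * (Γ.tau e)⁻¹ ∈ (Γ.bp e0).2.1 :=
        (Γ.bp e0).2.1.mul_mem _ _ (C_mem_place _ _) h3
      refine ⟨(Γ.bp e0).2.1.mul_mem _ _ ht.mem h4, ?_⟩
      rw [ev_mul _ ht.mem h4, ht.ev0, zero_mul, if_neg h]
  rw [secf, Finset.mul_sum]
  refine ⟨sum_mem fun e he => (h2 e he).1, ?_⟩
  rw [ev_sum _ _ _ fun e he => (h2 e he).1, Finset.sum_congr rfl fun e he => (h2 e he).2,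
    Finset.sum_ite_eq', if_pos (Γ.mem_branches_single.mpr rfl)]

theorem XXC_mem (p : k) : (RatFunc.X * (RatFunc.X - RatFunc.C p)⁻¹ : RatFunc k) ∈ (inf k).1 ∧
    ev (inf k) (RatFunc.X * (RatFunc.X - RatFunc.C p)⁻¹ : RatFunc k) = 1 := by
  have ht := isUnif_pl (k := k) none
  have hX := X_ne (k := k)
  have hp := XC_ne p
  have h1 : (RatFunc.X - RatFunc.C p : RatFunc k)⁻¹ ∈ (inf k).1 :=
    (isUnif_pl (some p)).inv_mem _ (pl_some_ne p).symm
  have h2 : (RatFunc.X * (RatFunc.X - RatFunc.C p)⁻¹ : RatFunc k) ∈ (inf k).1 := by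
    refine ⟨X, X - C p, X_sub_C_ne_zero p, ?_, ?_⟩
    · rw [degree_X_sub_C, degree_X]
    · rw [map_sub, phi_X, phi_C]
      field_simp
  refine ⟨h2, ?_⟩
  have h3 : (RatFunc.X * (RatFunc.X - RatFunc.C p)⁻¹ : RatFunc k) =
      1 + RatFunc.C p * (ptUnif none * (RatFunc.X * (RatFunc.X - RatFunc.C p)⁻¹)) := by
    simp only [ptUnif]
    field_simp
    ring
  have h4 : (ptUnif none * (RatFunc.X * (RatFunc.X - RatFunc.C p)⁻¹) : RatFunc k) ∈ (inf k).1 :=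
    (inf k).1.mul_mem _ _ ht.mem h2
  rw [h3, ev_add _ (inf k).1.one_mem ((inf k).1.mul_mem _ _ (C_mem_place _ _) h4), ev_one,
    ev_mul _ (C_mem_place _ _) h4, ev_mul _ ht.mem h2, ht.ev_eq_zero]
  ring

theorem X_secf (r : Γ.E → k) (i : Γ.ι) :
    RatFunc.X * Γ.secf r i ∈ (inf k).1 ∧
      ev (inf k) (RatFunc.X * Γ.secf r i) = ∑ e ∈ Γ.branches {i}, Γ.sg e * r e.1 := by
  have h1 : ∀ e : Γ.E × Bool, RatFunc.X * (RatFunc.C (r e.1) * (Γ.tau e)⁻¹) =
      RatFunc.C (Γ.sg e * r e.1) * (RatFunc.X * (RatFunc.X - RatFunc.C (Γ.p e))⁻¹) := by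
    intro e
    rw [tau_inv_eq, map_mul]
    ring
  have h2 : ∀ e ∈ Γ.branches {i}, RatFunc.X * (RatFunc.C (r e.1) * (Γ.tau e)⁻¹) ∈ (inf k).1 := by
    intro e _
    rw [h1]
    exact (inf k).1.mul_mem _ _ (C_mem_place _ _) (XXC_mem _).1
  rw [secf, Finset.mul_sum]
  refine ⟨sum_mem h2, ?_⟩
  rw [ev_sum _ _ _ h2]
  refine Finset.sum_congr rfl fun e _ => ?_
  rw [h1, ev_mul _ (C_mem_place _ _) (XXC_mem _).1, ev_C, (XXC_mem _).2, mul_one]

/-- The flows. -/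
def IsFlow (r : Γ.E → k) : Prop := ∀ i, ∑ e ∈ Γ.branches {i}, Γ.sg e * r e.1 = 0

theorem XX_secf {r : Γ.E → k} (hr : Γ.IsFlow r) (i : Γ.ι) :
    RatFunc.X ^ 2 * Γ.secf r i ∈ (inf k).1 ∧
      ev (inf k) (RatFunc.X ^ 2 * Γ.secf r i) =
        ∑ e ∈ Γ.branches {i}, Γ.sg e * r e.1 * Γ.p e := by
  have h0 : RatFunc.X ^ 2 * Γ.secf r i = ∑ e ∈ Γ.branches {i},
      RatFunc.C (Γ.sg e * r e.1 * Γ.p e) * (RatFunc.X * (RatFunc.X - RatFunc.C (Γ.p e))⁻¹) := by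
    have h3 : RatFunc.X * (∑ e ∈ Γ.branches {i}, RatFunc.C (Γ.sg e * r e.1)) =
        (0 : RatFunc k) := by
      rw [← map_sum, hr i, map_zero, mul_zero]
    rw [← sub_zero (RatFunc.X ^ 2 * Γ.secf r i), ← h3, secf, Finset.mul_sum, Finset.mul_sum,
      ← Finset.sum_sub_distrib]
    refine Finset.sum_congr rfl fun e _ => ?_
    rw [tau_inv_eq]
    simp only [map_mul]
    have := XC_ne (Γ.p e)
    field_simp
    ring
  rw [h0]
  have h2 : ∀ e ∈ Γ.branches {i}, RatFunc.C (Γ.sg e * r e.1 * Γ.p e) *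
      (RatFunc.X * (RatFunc.X - RatFunc.C (Γ.p e))⁻¹) ∈ (inf k).1 := by
    intro e _
    exact (inf k).1.mul_mem _ _ (C_mem_place _ _) (XXC_mem _).1
  refine ⟨sum_mem h2, ?_⟩
  rw [ev_sum _ _ _ h2]
  refine Finset.sum_congr rfl fun e _ => ?_
  rw [ev_mul _ (C_mem_place _ _) (XXC_mem _).1, ev_C, (XXC_mem _).2, mul_one]


theorem cut_univ (a : Γ.Fam) : Γ.curve.cut Finset.univ a = a := by
  funext q
  show (if q.1 ∈ Finset.univ then a q else 0) = a q
  rw [if_pos (Finset.mem_univ _)]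

theorem mem_H0 {U : Submodule k Γ.Fam} {a : Γ.Fam} :
    a ∈ Γ.curve.H0 Finset.univ U ↔ (∃ f : Γ.ι → RatFunc k, ∀ q, a q = f q.1) ∧ a ∈ U := by
  constructor
  · rintro ⟨⟨f, hf⟩, ⟨b, hb, hab⟩⟩
    have h1 : b = a := by
      rw [← Γ.cut_univ b]
      exact hab
    subst h1
    refine ⟨⟨f, fun q => ?_⟩, hb⟩
    rw [← hf]
    exact congrFun (Γ.cut_univ (Γ.curve.diag f)) q
  · rintro ⟨⟨f, hf⟩, ha⟩
    refine ⟨⟨f, ?_⟩, ⟨a, ha, Γ.cut_univ a⟩⟩
    have h1 : a = Γ.curve.diag f := by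
      funext q
      exact hf q
    rw [h1]
    exact Γ.cut_univ _

/-- The section with the residues `r`. -/
noncomputable def sec (r : Γ.E → k) : Γ.Fam := fun q => Γ.secf r q.1

theorem wsec_bp (r : Γ.E → k) (e : Γ.E × Bool) :
    (Γ.wcan (Γ.bp e))⁻¹ * Γ.sec r (Γ.bp e) ∈ (Γ.bp e).2.1 ∧
      ev (Γ.bp e).2 ((Γ.wcan (Γ.bp e))⁻¹ * Γ.sec r (Γ.bp e)) = r e.1 := by
  rw [wcan_bp, inv_inv]
  exact Γ.secf_bp r e

theorem sec_mem {r : Γ.E → k} (hr : Γ.IsFlow r) : Γ.sec r ∈ Γ.curve.H0 Finset.univ Γ.can := by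
  rw [mem_H0]
  refine ⟨⟨Γ.secf r, fun _ => rfl⟩, fun q hq => absurd (Finset.mem_univ _) hq, fun q _ => ?_,
    fun e _ => ?_⟩
  · by_cases h : ∃ e, Γ.bp e = q
    · obtain ⟨e, rfl⟩ := h
      exact (Γ.wsec_bp r e).1
    · by_cases h' : q.2 = inf k
      · obtain ⟨i, q'⟩ := q
        have h'' : q' = inf k := h'
        subst h''
        rw [wcan_inf, inv_inv]
        exact (Γ.XX_secf hr i).1
      · rw [Γ.wcan_of_not h h', inv_one, one_mul]
        exact Γ.secf_mem r h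
  · rw [(Γ.wsec_bp r _).2, (Γ.wsec_bp r _).2]

/-- The residue of a section at a node. -/
noncomputable def res (e : Γ.E) : Γ.can →ₗ[k] k where
  toFun a := ev (Γ.bp (e, false)).2 ((Γ.wcan (Γ.bp (e, false)))⁻¹ * (a : Γ.Fam) (Γ.bp (e, false)))
  map_add' a b := by
    simp only [Submodule.coe_add, Pi.add_apply, mul_add]
    rw [ev_add _ (lat_integral a.2 _) (lat_integral b.2 _)]
  map_smul' c a := by
    simp only [Submodule.coe_smul, Pi.smul_apply, mul_smul_comm, RingHom.id_apply, smul_eq_mul]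
    rw [ev_smul _ _ (lat_integral a.2 _)]

theorem eq_sec {a : Γ.Fam} (ha : a ∈ Γ.curve.H0 Finset.univ Γ.can) :
    ∃ r : Γ.E → k, Γ.IsFlow r ∧ a = Γ.sec r ∧
      ∀ e, r e = ev (Γ.bp (e, false)).2
        ((Γ.wcan (Γ.bp (e, false)))⁻¹ * a (Γ.bp (e, false))) := by
  rw [mem_H0] at ha
  obtain ⟨⟨f, hf⟩, hac⟩ := ha
  set r : Γ.E → k := fun e => ev (Γ.bp (e, false)).2
        ((Γ.wcan (Γ.bp (e, false)))⁻¹ * a (Γ.bp (e, false))) with hr
  have hbr : ∀ e : Γ.E × Bool, ev (Γ.bp e).2 ((Γ.wcan (Γ.bp e))⁻¹ * a (Γ.bp e)) = r e.1 := by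
    rintro ⟨e, s⟩
    cases s
    · rfl
    · exact (hac.2.2 e (Finset.mem_univ _)).symm
  have hX := X_ne (k := k)
  -- the difference is a polynomial
  have hdiff : ∀ i, f i = Γ.secf r i := by
    intro i
    have h1 : ∀ q : Place k (RatFunc k), q ≠ inf k → f i - Γ.secf r i ∈ q.1 := by
      intro q hq
      by_cases h : ∃ e, Γ.bp e = (⟨i, q⟩ : Γ.Pt)
      · obtain ⟨e, he⟩ := h
        have hv : Γ.v e = i := congrArg Smooth.Pt.comp he
        subst hv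
        have hq2 : (Γ.bp e).2 = q := by
          have := (Smooth.Pt.mk.injEq _ _ _ _).mp he
          exact eq_of_heq this.2
        rw [← hq2]
        have e1 := lat_integral hac (Γ.bp e)
        have e2 := Γ.wsec_bp r e
        have e3 := hbr e
        have ht := Γ.ul_tau e
        have e4 : (Γ.wcan (Γ.bp e))⁻¹ * a (Γ.bp e) - (Γ.wcan (Γ.bp e))⁻¹ * Γ.sec r (Γ.bp e) ∈
            (Γ.bp e).2.1 := sub_mem e1 e2.1
        have e5 : ev (Γ.bp e).2 ((Γ.wcan (Γ.bp e))⁻¹ * a (Γ.bp e) -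
            (Γ.wcan (Γ.bp e))⁻¹ * Γ.sec r (Γ.bp e)) = 0 := by
          rw [ev_sub _ e1 e2.1, e3, e2.2, sub_self]
        have e6 := ht.div _ e4 e5
        rw [wcan_bp, inv_inv, ← mul_sub, inv_mul_cancel_left₀ ht.ne, hf] at e6
        exact e6
      · have e1 := lat_integral hac ⟨i, q⟩
        rw [Γ.wcan_of_not h hq, inv_one, one_mul, hf] at e1
        exact sub_mem e1 (Γ.secf_mem r (q := ⟨i, q⟩) h)
    obtain ⟨P, hP⟩ := poly_of_fin (f i - Γ.secf r i) (fun c => h1 (pl (some c)) (pl_some_ne c))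
    -- at infinity
    have h2 : RatFunc.X * (f i - Γ.secf r i) ∈ (inf k).1 := by
      rw [mul_sub]
      refine sub_mem ?_ (Γ.X_secf r i).1
      have e1 := lat_integral hac ⟨i, inf k⟩
      rw [wcan_inf, inv_inv, hf] at e1
      have e2 : RatFunc.X * f i = ptUnif none * (RatFunc.X ^ 2 * f i) := by
        simp only [ptUnif]
        field_simp
      rw [e2]
      exact (inf k).1.mul_mem _ _ (isUnif_pl none).mem e1
    rw [hP] at h2
    have h3 : P = 0 := by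
      by_contra hP0
      obtain ⟨p', q, hq, hd, he⟩ := h2
      rw [← phi_X, ← map_mul, ← map_mul] at he
      have h4 := RatFunc.algebraMap_injective k he
      rw [← h4, degree_mul, degree_mul, degree_X, degree_eq_natDegree hP0,
        degree_eq_natDegree hq] at hd
      have : 1 + P.natDegree + q.natDegree ≤ q.natDegree := by exact_mod_cast hd
      omega
    rw [h3, map_zero] at hP
    exact sub_eq_zero.mp hP
  refine ⟨r, fun i => ?_, ?_, fun e => rfl⟩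
  · rw [← (Γ.X_secf r i).2, ← hdiff]
    have e1 := lat_integral hac ⟨i, inf k⟩
    rw [wcan_inf, inv_inv, hf] at e1
    have e2 : RatFunc.X * f i = ptUnif none * (RatFunc.X ^ 2 * f i) := by
      simp only [ptUnif]
      field_simp
    rw [e2, ev_mul _ (isUnif_pl none).mem e1, (isUnif_pl none).ev_eq_zero, zero_mul]
  · funext q
    rw [hf, hdiff]
    rfl

end Conf

end Pool.Agent.KS6_81.GR
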