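import Pool.Agent.KS6_81.GR.ElimAll
import Pool.Agent.KS6_81.GR.OctaBasis

/-!
# The Koszul cohomology of the octahedral curve
-/

set_option autoImplicit false

open Module

namespace Pool.Agent.KS6_81.GR

section rows

variable {k : Type} [Field k]

theorem row21 (t : I4 7 → k) (hz : ∀ m c d, t (m, c, d, m) = 0) (p0 p1 p2 p3 p4 p5 p6 : k)
    (b c : Fin 7) (h : ∑ a, ∑ j, t (a, b, c, j) *
      ((![p0, p1, p2, p3, p4, p5, p6] : Fin 7 → k) a * (![p0, p1, p2, p3, p4, p5, p6] : Fin 7 → k) j) = 0) :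
    p0 * p1 * (t (0, b, c, 1) + t (1, b, c, 0)) +
      p0 * p2 * (t (0, b, c, 2) + t (2, b, c, 0)) +
      p0 * p3 * (t (0, b, c, 3) + t (3, b, c, 0)) +
      p0 * p4 * (t (0, b, c, 4) + t (4, b, c, 0)) +
      p0 * p5 * (t (0, b, c, 5) + t (5, b, c, 0)) +
      p0 * p6 * (t (0, b, c, 6) + t (6, b, c, 0)) +
      p1 * p2 * (t (1, b, c, 2) + t (2, b, c, 1)) +
      p1 * p3 * (t (1, b, c, 3) + t (3, b, c, 1)) +
      p1 * p4 * (t (1, b, c, 4) + t (4, b, c, 1)) +
      p1 * p5 * (t (1, b, c, 5) + t (5, b, c, 1)) +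
      p1 * p6 * (t (1, b, c, 6) + t (6, b, c, 1)) +
      p2 * p3 * (t (2, b, c, 3) + t (3, b, c, 2)) +
      p2 * p4 * (t (2, b, c, 4) + t (4, b, c, 2)) +
      p2 * p5 * (t (2, b, c, 5) + t (5, b, c, 2)) +
      p2 * p6 * (t (2, b, c, 6) + t (6, b, c, 2)) +
      p3 * p4 * (t (3, b, c, 4) + t (4, b, c, 3)) +
      p3 * p5 * (t (3, b, c, 5) + t (5, b, c, 3)) +
      p3 * p6 * (t (3, b, c, 6) + t (6, b, c, 3)) +
      p4 * p5 * (t (4, b, c, 5) + t (5, b, c, 4)) +
      p4 * p6 * (t (4, b, c, 6) + t (6, b, c, 4)) +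
      p5 * p6 * (t (5, b, c, 6) + t (6, b, c, 5)) = 0 := by
  simp only [Fin.sum_univ_seven, Matrix.cons_val] at h
  linear_combination h - p0 * p0 * hz 0 b c - p1 * p1 * hz 1 b c - p2 * p2 * hz 2 b c - p3 * p3 * hz 3 b c - p4 * p4 * hz 4 b c - p5 * p5 * hz 5 b c - p6 * p6 * hz 6 b c

end rows

variable {k : Type} [Field k] [CharZero k] [IsAlgClosed k]

theorem val0 : ∃ q : (octa k).Pt, IsVal q (![-1, -1, 0, 1, 0, 1, 1] : Fin 7 → k) := by
  refine ⟨_, fun m => (isVal_node 1 m).trans ?_⟩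
  fin_cases m <;> simp [fl]

theorem val1 : ∃ q : (octa k).Pt, IsVal q (![0, 0, 0, -1, 0, -1, -1] : Fin 7 → k) := by
  refine ⟨_, fun m => (isVal_node 3 m).trans ?_⟩
  fin_cases m <;> simp [fl]

theorem val2 : ∃ q : (octa k).Pt, IsVal q (![1, 0, -1, -1, 0, 0, 0] : Fin 7 → k) := by
  refine ⟨_, fun m => (isVal_node 4 m).trans ?_⟩
  fin_cases m <;> simp [fl]

theorem val3 : ∃ q : (octa k).Pt, IsVal q (![0, 0, -1, 0, 1, 1, 0] : Fin 7 → k) := by
  refine ⟨_, fun m => (isVal_node 7 m).trans ?_⟩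
  fin_cases m <;> simp [fl]

theorem val4 : ∃ q : (octa k).Pt, IsVal q (![0, -1, 0, 0, -1, 0, 1] : Fin 7 → k) := by
  refine ⟨_, fun m => (isVal_node 8 m).trans ?_⟩
  fin_cases m <;> simp [fl]

theorem val5 : ∃ q : (octa k).Pt, IsVal q (![2, 1, 0, 1, 0, 1, 1] : Fin 7 → k) := by
  refine ⟨_, fun m => (isVal_inf 0 m).trans ?_⟩
  fin_cases m <;> simp [rho]

theorem val6 : ∃ q : (octa k).Pt, IsVal q (![1, 0, -3, -2, 0, 0, 0] : Fin 7 → k) := by
  refine ⟨_, fun m => (isVal_inf 1 m).trans ?_⟩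
  fin_cases m <;> simp [rho]

theorem val7 : ∃ q : (octa k).Pt, IsVal q (![2, 3, -1, -2, 2, -1, -3] : Fin 7 → k) := by
  refine ⟨_, fun m => (isVal_inf 2 m).trans ?_⟩
  fin_cases m <;> simp [rho]

theorem val8 : ∃ q : (octa k).Pt, IsVal q (![0, 0, 3, 0, -1, -2, 0] : Fin 7 → k) := by
  refine ⟨_, fun m => (isVal_inf 3 m).trans ?_⟩
  fin_cases m <;> simp [rho]

theorem val9 : ∃ q : (octa k).Pt, IsVal q (![0, 2, 0, 0, -1, 0, -1] : Fin 7 → k) := by
  refine ⟨_, fun m => (isVal_inf 4 m).trans ?_⟩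
  fin_cases m <;> simp [rho]

theorem val10 : ∃ q : (octa k).Pt, IsVal q (![0, 0, 0, 2, 0, 3, 1] : Fin 7 → k) := by
  refine ⟨_, fun m => (isVal_inf 5 m).trans ?_⟩
  fin_cases m <;> simp [rho]

theorem good_of_cocycle (t : I4 7 → k) (h1 : ∀ a c d j, t (c, a, d, j) = - t (a, c, d, j))
    (h2 : ∀ a c d j, t (a, d, c, j) = - t (a, c, d, j))
    (h4 : ∀ c d, ∑ a, ∑ j, t (a, c, d, j) •
      mulOn ((octa k).curve.H0 Finset.univ (octa k).can) (omBasis k a) (omBasis k j) = 0) :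
    Good (fun b c a d => t (a, b, c, d) + t (d, b, c, a)) := by
  have hrow : ∀ {q : (octa k).Pt} {P : Fin 7 → k}, IsVal q P → ∀ b c,
      ∑ a, ∑ j, t (a, b, c, j) * (P a * P j) = 0 :=
    fun hP b c => quad hP (fun a j => t (a, b, c, j)) (h4 b c)
  have hz : ∀ m c d, t (m, c, d, m) = 0 := by
    intro m c d
    have h5 := hrow (isVal_node (ch m)) c d
    simp only [fl_ch] at h5
    rw [Finset.sum_eq_single m, Finset.sum_eq_single m] at h5
    · simpa using h5
    · intro j _ hj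
      simp [hj]
    · intro h; exact absurd (Finset.mem_univ _) h
    · intro a _ ha
      refine Finset.sum_eq_zero fun j _ => ?_
      simp [ha]
    · intro h; exact absurd (Finset.mem_univ _) h
  have two : ∀ x : k, x = -x → x = 0 := by
    intro x hx
    have : (2 : k) * x = 0 := by linear_combination hx
    exact (mul_eq_zero.mp this).resolve_left two_ne_zero
  have e1 : ∀ a d j, t (a, a, d, j) = 0 := fun a d j => two _ (h1 a a d j)
  have e2 : ∀ a d j, t (a, d, d, j) = 0 := fun a d j => two _ (h2 a d d j)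
  have e3 : ∀ a d j, t (a, d, a, j) = 0 := fun a d j => by
    rw [h2 a a d j, e1, neg_zero]
  have e4 : ∀ m c d, t (c, m, d, m) = 0 := fun m c d => by
    rw [h1 m c d m, hz, neg_zero]
  have e5 : ∀ m c d, t (c, d, m, m) = 0 := fun m c d => by
    rw [h2 c m d m, e4, neg_zero]
  constructor
  · intro b c d
    simp only [e1, e4, add_zero]
  · intro b c d
    simp only [e3, e5, add_zero]
  · intro b c d
    simp only [e1, e4, add_zero]
  · intro b c d
    simp only [e3, e5, add_zero]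
  · intro b c a
    simp only [hz, add_zero]
  · intro b c a d
    show _ + _ = _ + _
    ring
  · intro b c a d
    show _ + _ = -(_ + _)
    rw [h2 a b c d, h2 d b c a]
    ring
  · intro a b c d
    show (t (c, a, b, d) + t (d, a, b, c)) + (t (b, a, c, d) + t (d, a, c, b)) +
      (t (b, a, d, c) + t (c, a, d, b)) = 0
    have f1 : t (c, a, b, d) = - t (b, a, c, d) := by
      rw [h1 a c b d, h2 a b c d, h1 b a c d]
      ring
    have f2 : t (d, a, b, c) = - t (b, a, d, c) := by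
      rw [h1 a d b c, h2 a b d c, h1 b a d c]
      ring
    have f3 : t (d, a, c, b) = - t (c, a, d, b) := by
      rw [h1 a d c b, h2 a c d b, h1 c a d b]
      ring
    rw [f1, f2, f3]
    ring
  · intro b c
    obtain ⟨q, hq⟩ := val0 (k := k)
    have h5 := row21 t hz (-1) (-1) 0 1 0 1 1 b c (hrow hq b c)
    linear_combination h5
  · intro b c
    obtain ⟨q, hq⟩ := val1 (k := k)
    have h5 := row21 t hz 0 0 0 (-1) 0 (-1) (-1) b c (hrow hq b c)
    linear_combination h5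
  · intro b c
    obtain ⟨q, hq⟩ := val2 (k := k)
    have h5 := row21 t hz 1 0 (-1) (-1) 0 0 0 b c (hrow hq b c)
    linear_combination h5
  · intro b c
    obtain ⟨q, hq⟩ := val3 (k := k)
    have h5 := row21 t hz 0 0 (-1) 0 1 1 0 b c (hrow hq b c)
    linear_combination h5
  · intro b c
    obtain ⟨q, hq⟩ := val4 (k := k)
    have h5 := row21 t hz 0 (-1) 0 0 (-1) 0 1 b c (hrow hq b c)
    linear_combination h5
  · intro b c
    obtain ⟨q, hq⟩ := val5 (k := k)
    have h5 := row21 t hz 2 1 0 1 0 1 1 b c (hrow hq b c)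
    linear_combination h5
  · intro b c
    obtain ⟨q, hq⟩ := val6 (k := k)
    have h5 := row21 t hz 1 0 (-3) (-2) 0 0 0 b c (hrow hq b c)
    linear_combination h5
  · intro b c
    obtain ⟨q, hq⟩ := val7 (k := k)
    have h5 := row21 t hz 2 3 (-1) (-2) 2 (-1) (-3) b c (hrow hq b c)
    linear_combination h5
  · intro b c
    obtain ⟨q, hq⟩ := val8 (k := k)
    have h5 := row21 t hz 0 0 3 0 (-1) (-2) 0 b c (hrow hq b c)
    linear_combination h5
  · intro b c
    obtain ⟨q, hq⟩ := val9 (k := k)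
    have h5 := row21 t hz 0 2 0 0 (-1) 0 (-1) b c (hrow hq b c)
    linear_combination h5
  · intro b c
    obtain ⟨q, hq⟩ := val10 (k := k)
    have h5 := row21 t hz 0 0 0 2 0 3 1 b c (hrow hq b c)
    linear_combination h5

theorem octa_vanish : (octa k).curve.KoszulVanishes (octa k).can 2 := by
  refine koszul_criterion (omBasis k) _ fun t h1 h2 h4 a c d j => ?_
  have h := (good_of_cocycle t h1 h2 h4).zero a c d j
  have h' : t (d, a, c, j) + t (j, a, c, d) = 0 := h
  have e1 : t (a, c, d, j) = t (d, a, c, j) := by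
    rw [h1 a d c j, h2 a c d j]
    ring
  have e2 : t (a, c, j, d) = t (j, a, c, d) := by
    rw [h1 a j c d, h2 a c j d]
    ring
  rw [e1, e2]
  linear_combination h'

end Pool.Agent.KS6_81.GR
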